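import Pool.Agent.Lib.MP_5f8612_pr.Trees

set_option linter.unusedSectionVars false

namespace Pool.Agent.Lib.MP_5f8612_pr

open Finset SimpleGraph

variable {V : Type} [Fintype V] [DecidableEq V] {G : SimpleGraph V} {lam : ℝ}

open Classical in
/-- edges leaving `S` -/
noncomputable def cut (G : SimpleGraph V) (S : Finset V) : Finset (V × V) :=
  (S ×ˢ Sᶜ).filter fun x => G.Adj x.1 x.2

theorem mem_cut {S : Finset V} {x : V × V} :
    x ∈ cut G S ↔ x.1 ∈ S ∧ x.2 ∉ S ∧ G.Adj x.1 x.2 := by simp [cut, and_assoc]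

/-- edge expansion -/
def Exp (lam : ℝ) (G : SimpleGraph V) : Prop :=
  ∀ S : Finset V, 2 * S.card ≤ Fintype.card V → lam * S.card ≤ (cut G S).card

theorem Exp.mono {G' : SimpleGraph V} (h : Exp lam G) (hle : G ≤ G') : Exp lam G' := fun S hS =>
  (h S hS).trans (Nat.cast_le.2 (card_le_card fun _ hx =>
    mem_cut.2 ⟨(mem_cut.1 hx).1, (mem_cut.1 hx).2.1, hle (mem_cut.1 hx).2.2⟩))

theorem Exp.min_le (h : Exp lam G) (hl : 0 ≤ lam) (S : Finset V) :
    lam * (min S.card (Fintype.card V - S.card) : ℕ) ≤ (cut G S).card := by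
  by_cases hS : 2 * S.card ≤ Fintype.card V
  · exact le_trans (by gcongr; exact min_le_left _ _) (h S hS)
  · have h1 := h Sᶜ (by rw [card_compl]; omega)
    have h2 : (cut G Sᶜ).card ≤ (cut G S).card := by
      refine card_le_card_of_injOn Prod.swap (fun x hx => ?_) Prod.swap_injective.injOn
      obtain ⟨a, b, c⟩ := mem_cut.1 (mem_coe.1 hx)
      exact mem_coe.2 (mem_cut.2 ⟨by simpa using b, by simpa using a, c.symm⟩)
    rw [card_compl] at h1
    exact le_trans (by gcongr; exact min_le_right _ _) (h1.trans (Nat.cast_le.2 h2))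

open Classical in
/-- vertices reachable from `u` -/
noncomputable def rs (G : SimpleGraph V) (u : V) : Finset V := univ.filter (G.Reachable u)

@[simp] theorem mem_rs {u y : V} : y ∈ rs G u ↔ G.Reachable u y := by simp [rs]

theorem Exp.conn (h : Exp lam G) (hl : 0 < lam) (u : V) : G.Connected := by
  refine (connected_iff_exists_forall_reachable _).2 ⟨u, fun y => ?_⟩
  have h1 := h.min_le hl.le (rs G u)
  have h2 : cut G (rs G u) = ∅ := eq_empty_of_forall_notMem fun x hx => by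
    obtain ⟨a, b, c⟩ := mem_cut.1 hx
    exact b (mem_rs.2 ((mem_rs.1 a).trans c.reachable))
  rw [h2, card_empty, Nat.cast_zero] at h1
  have h3 : min (rs G u).card (Fintype.card V - (rs G u).card) = 0 := by
    have := nonpos_of_mul_nonpos_right h1 hl
    exact_mod_cast le_antisymm this (Nat.cast_nonneg _)
  have h4 : 0 < (rs G u).card := card_pos.2 ⟨u, mem_rs.2 (Reachable.refl u)⟩
  have h5 : rs G u = univ := eq_univ_of_card _ (le_antisymm (card_le_univ _) (by omega))
  exact mem_rs.1 (h5 ▸ mem_univ y)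

open Classical in
/-- spanning trees -/
noncomputable def trees (G : SimpleGraph V) : Finset (SimpleGraph V) :=
  univ.filter fun T => T ≤ G ∧ T.IsTree

theorem mem_trees {T : SimpleGraph V} : T ∈ trees G ↔ T ≤ G ∧ T.IsTree := by simp [trees]

theorem tau_eq (G : SimpleGraph V) : tau G = (trees G).card := by
  rw [tau, ← Set.ncard_coe_finset]
  congr 1
  ext T
  simp [mem_trees]

theorem tau_mono {G' : SimpleGraph V} (h : G ≤ G') : tau G ≤ tau G' := by
  rw [tau_eq, tau_eq]
  exact card_le_card fun T hT => mem_trees.2 ⟨(mem_trees.1 hT).1.trans h, (mem_trees.1 hT).2⟩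

theorem tau_pos (h : G.Connected) : 0 < tau G := by
  obtain ⟨T, h⟩ := h.exists_isTree_le
  rw [tau_eq]
  exact card_pos.2 ⟨T, mem_trees.2 h⟩

theorem reach_transfer {G1 G2 : SimpleGraph V} {x y : V}
    (h : ∀ a b, G1.Reachable x a → G1.Adj a b → G2.Adj a b) (hy : G1.Reachable x y) :
    G2.Reachable x y := by
  rw [reachable_iff_reflTransGen] at hy
  induction hy with
  | refl => exact Reachable.refl _
  | tail h1 h2 ih => exact ih.trans (h _ _ ((reachable_iff_reflTransGen _ _).2 h1) h2).reachable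

theorem reach_or {T : SimpleGraph V} (hT : T.Connected) (u v y : V) :
    (T.deleteEdges {s(u, v)}).Reachable u y ∨ (T.deleteEdges {s(u, v)}).Reachable v y := by
  have hy := (reachable_iff_reflTransGen _ _).1 (hT u y)
  induction hy with
  | refl => exact Or.inl (Reachable.refl _)
  | @tail a b _ h2 ih =>
    by_cases he : s(a, b) = s(u, v)
    · rcases Sym2.eq_iff.1 he with h | h
      · exact Or.inr (h.2 ▸ Reachable.refl _)
      · exact Or.inl (h.2 ▸ Reachable.refl _)
    · have : (T.deleteEdges {s(u, v)}).Adj a b := by simp [h2, he]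
      exact ih.imp (·.trans this.reachable) (·.trans this.reachable)

theorem swap_inj {F1 F2 : SimpleGraph V} {u v a1 b1 a2 b2 : V}
    (h : F1 ⊔ edge a1 b1 = F2 ⊔ edge a2 b2) (hc : (rs F1 u).card = (rs F2 u).card)
    (x1 : F1.Reachable u a1) (y1 : ¬ F1.Reachable u b1) (x2 : F2.Reachable u a2)
    (y2 : ¬ F2.Reachable u b2) (c1 : ∀ y, F1.Reachable u y ∨ F1.Reachable v y)
    (v2 : ¬ F2.Reachable u v) : F1 = F2 ∧ a1 = a2 ∧ b1 = b2 := by
  have tr : ∀ {F1 F2 : SimpleGraph V} {a1 b1 a2 b2 : V}, F1 ⊔ edge a1 b1 = F2 ⊔ edge a2 b2 →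
      ∀ a b, (F1 ⊔ edge a1 b1).Adj a b → s(a, b) ≠ s(a2, b2) → F2.Adj a b := by
    intro F1 F2 a1 b1 a2 b2 h a b hab hne
    rw [h, sup_adj, edge_adj] at hab
    refine hab.resolve_right fun h' => hne ?_
    exact Sym2.eq_iff.2 h'.1
  have out : ∀ {F1 F2 : SimpleGraph V} {a1 b1 a2 b2 : V}, F1 ⊔ edge a1 b1 = F2 ⊔ edge a2 b2 →
      (rs F1 u).card = (rs F2 u).card → F1.Reachable u a1 → ¬ F1.Reachable u b1 →
      s(a1, b1) ≠ s(a2, b2) → F1.Reachable u a2 ∨ F1.Reachable u b2 := by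
    intro F1 F2 a1 b1 a2 b2 h hc x1 y1 hne
    by_contra hcon
    rw [not_or] at hcon
    have sub : ∀ y, F1.Reachable u y → F2.Reachable u y := fun y =>
      reach_transfer fun a b ha hab => tr h a b (Or.inl hab) fun he => by
        rcases Sym2.eq_iff.1 he with h' | h'
        exacts [hcon.1 (h'.1 ▸ ha), hcon.2 (h'.1 ▸ ha)]
    have hne' : a1 ≠ b1 := fun h' => y1 (h' ▸ x1)
    have hb : F2.Reachable u b1 := (sub _ x1).trans
      (tr h a1 b1 (Or.inr ((edge_adj ..).2 ⟨Or.inl ⟨rfl, rfl⟩, hne'⟩)) hne).reachable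
    have : rs F1 u = rs F2 u :=
      eq_of_subset_of_card_le (fun y hy => mem_rs.2 (sub y (mem_rs.1 hy))) hc.ge
    exact y1 (mem_rs.1 (this ▸ mem_rs.2 hb))
  have n1 : ¬ F1.Adj a1 b1 := fun h' => y1 (x1.trans h'.reachable)
  have n2 : ¬ F2.Adj a2 b2 := fun h' => y2 (x2.trans h'.reachable)
  by_cases he : s(a1, b1) = s(a2, b2)
  · have hF : F1 = F2 := by
      ext a b
      constructor
      · intro hab
        refine tr h a b (Or.inl hab) fun h' => n1 ?_
        rw [← mem_edgeSet, he, ← h']; exact hab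
      · intro hab
        refine tr h.symm a b (Or.inl hab) fun h' => n2 ?_
        rw [← mem_edgeSet, ← he, ← h']; exact hab
    subst hF
    rcases Sym2.eq_iff.1 he with h' | h'
    · exact ⟨rfl, h'⟩
    · exact absurd (h'.1 ▸ x1) y2
  exfalso
  have f2 : F1.Adj a2 b2 := tr h.symm a2 b2
    (Or.inr ((edge_adj ..).2 ⟨Or.inl ⟨rfl, rfl⟩, fun h' => y2 (h' ▸ x2)⟩)) (Ne.symm he)
  have f1 : F2.Adj a1 b1 := tr h a1 b1
    (Or.inr ((edge_adj ..).2 ⟨Or.inl ⟨rfl, rfl⟩, fun h' => y1 (h' ▸ x1)⟩)) he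
  have i2 : F1.Reachable u a2 ∧ F1.Reachable u b2 := by
    rcases out h hc x1 y1 he with h' | h'
    exacts [⟨h', h'.trans f2.reachable⟩, ⟨h'.trans f2.symm.reachable, h'⟩]
  have i1 : F2.Reachable u b1 := by
    rcases out h.symm hc.symm x2 y2 (Ne.symm he) with h' | h'
    exacts [h'.trans f1.reachable, h']
  have hb : F1.Reachable b1 v := ((c1 b1).resolve_left y1).symm
  refine v2 (i1.trans (reach_transfer (fun a b ha hab => tr h a b (Or.inl hab) fun he' => ?_) hb))
  rcases Sym2.eq_iff.1 he' with h' | h'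
  · exact y1 (i2.1.trans (h'.1 ▸ ha.symm))
  · exact y1 (i2.2.trans (h'.1 ▸ ha.symm))

theorem harm_bound (N : ℕ) :
    ∑ j ∈ Ico 1 N, (1 : ℝ) / (min j (N - j) : ℕ) ≤ 2 * (1 + Real.log N) := by
  have h1 : ∑ j ∈ Ico 1 N, (1 : ℝ) / j ≤ 1 + Real.log N := by
    refine le_trans ?_ (harmonic_le_one_add_log N)
    rw [harmonic_eq_sum_Icc]
    push_cast
    simp only [one_div]
    exact sum_le_sum_of_subset_of_nonneg Ico_subset_Icc_self fun _ _ _ => by positivity
  have h2 : ∑ j ∈ Ico 1 N, (1 : ℝ) / (N - j : ℕ) = ∑ j ∈ Ico 1 N, (1 : ℝ) / j := by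
    refine sum_bij' (fun j _ => N - j) (fun j _ => N - j) ?_ ?_ ?_ ?_ ?_ <;>
      intro j hj <;> simp only [mem_Ico] at hj ⊢ <;> omega
  calc _ ≤ ∑ j ∈ Ico 1 N, ((1 : ℝ) / j + 1 / (N - j : ℕ)) := sum_le_sum fun j _ => by
        rcases min_choice j (N - j) with h | h <;> rw [h]
        · exact le_add_of_nonneg_right (by positivity)
        · exact le_add_of_nonneg_left (by positivity)
    _ ≤ _ := by rw [sum_add_distrib, h2]; linarith

theorem Exp.add_edge (h : Exp lam G) (hl : 0 < lam) (u v : V) :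
    (tau (G ⊔ edge u v) : ℝ) ≤ (1 + 2 * (1 + Real.log (Fintype.card V)) / lam) * tau G := by
  classical
  set N := Fintype.card V with hN
  let Bd := (trees (G ⊔ edge u v)).filter fun T => ¬ T ≤ G
  let S : SimpleGraph V → Finset V := fun T => rs (T.deleteEdges {s(u, v)}) u
  have hB : ∀ T ∈ Bd, T.IsTree ∧ T.Adj u v ∧ T.deleteEdges {s(u, v)} ≤ G ∧
      ¬ (T.deleteEdges {s(u, v)}).Reachable u v := by
    intro T hT
    obtain ⟨h1, h2⟩ := mem_filter.1 hT
    obtain ⟨h1, h3⟩ := mem_trees.1 h1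
    have h4 : T.deleteEdges {s(u, v)} ≤ G := by
      intro a b hab
      rw [deleteEdges_adj] at hab
      exact (h1 hab.1).resolve_right fun h' => hab.2 (Sym2.eq_iff.2 ((edge_adj ..).1 h').1)
    have h5 : T.Adj u v := by
      by_contra h'
      refine h2 fun a b hab => h4 ?_
      rw [deleteEdges_adj]
      refine ⟨hab, fun he => h' ?_⟩
      rw [← mem_edgeSet, ← Set.mem_singleton_iff.1 he]; exact hab
    exact ⟨h3, h5, h4, isBridge_iff.1 (isAcyclic_iff_forall_adj_isBridge.1 h3.isAcyclic h5)⟩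
  have c1 : ∀ j, ((Bd.filter fun T => (S T).card = j).sigma fun T => cut G (S T)).card ≤
      (trees G).card := by
    intro j
    refine card_le_card_of_injOn (fun x => x.1.deleteEdges {s(u, v)} ⊔ edge x.2.1 x.2.2)
      (fun x hx => ?_) fun x hx y hy hxy => ?_
    · obtain ⟨h1, h2⟩ := mem_sigma.1 (mem_coe.1 hx)
      obtain ⟨a1, a2, a3, a4⟩ := hB _ (mem_filter.1 h1).1
      obtain ⟨b1, b2, b3⟩ := mem_cut.1 h2
      have b1 := mem_rs.1 b1
      have b4 := (reach_or a1.connected u v x.2.2).resolve_left fun h => b2 (mem_rs.2 h)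
      refine mem_coe.2 (mem_trees.2 ⟨sup_le a3 ((edge_le_iff _).2 (Or.inr b3)), tree_iff.2
        ⟨(connected_iff_exists_forall_reachable _).2 ⟨u, fun y => ?_⟩, ?_⟩⟩)
      · rcases reach_or a1.connected u v y with h' | h'
        · exact h'.mono le_sup_left
        · refine ((b1.mono le_sup_left).trans (Adj.reachable (Or.inr ?_))).trans
            ((b4.symm.trans h').mono le_sup_left)
          exact (edge_adj ..).2 ⟨Or.inl ⟨rfl, rfl⟩, b3.ne⟩
      · have e1 := tree_card a1
        have e2 := Set.ncard_sdiff_singleton_add_one ((mem_edgeSet _).2 a2)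
        have e3 := Set.ncard_union_le (x.1.edgeSet \ {s(u, v)}) {s(x.2.1, x.2.2)}
        rw [edgeSet_sup, edgeSet_deleteEdges, edgeSet_edge_of_ne b3.ne]
        rw [Set.ncard_singleton] at e3
        omega
    · obtain ⟨h1, h2⟩ := mem_sigma.1 (mem_coe.1 hx)
      obtain ⟨h3, h4⟩ := mem_sigma.1 (mem_coe.1 hy)
      obtain ⟨a1, a2, -, -⟩ := hB _ (mem_filter.1 h1).1
      obtain ⟨a3, a4, -, a5⟩ := hB _ (mem_filter.1 h3).1
      obtain ⟨b1, b2, -⟩ := mem_cut.1 h2
      obtain ⟨b3, b4, -⟩ := mem_cut.1 h4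
      obtain ⟨e1, e2, e3⟩ := swap_inj hxy ((mem_filter.1 h1).2.trans (mem_filter.1 h3).2.symm)
        (mem_rs.1 b1) (fun h => b2 (mem_rs.2 h)) (mem_rs.1 b3) (fun h => b4 (mem_rs.2 h))
        (reach_or a1.connected u v) a5
      have : x.1 = y.1 := by
        apply edgeSet_injective
        have := congrArg edgeSet e1
        rw [edgeSet_deleteEdges, edgeSet_deleteEdges] at this
        rw [← Set.insert_sdiff_self_of_mem ((mem_edgeSet _).2 a2), this,
          Set.insert_sdiff_self_of_mem ((mem_edgeSet _).2 a4)]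
      exact Sigma.ext this (heq_of_eq (Prod.ext e2 e3))
  have c2 : ∀ j ∈ Ico 1 N, ((Bd.filter fun T => (S T).card = j).card : ℝ) ≤
      1 / (min j (N - j) : ℕ) * (tau G / lam) := by
    intro j hj
    have hm : (0 : ℝ) < (min j (N - j) : ℕ) := by
      have := mem_Ico.1 hj
      exact_mod_cast (by omega : 0 < min j (N - j))
    have e1 : ((Bd.filter fun T => (S T).card = j).card : ℝ) * (lam * (min j (N - j) : ℕ)) ≤
        tau G := by
      rw [tau_eq]
      refine le_trans ?_ (Nat.cast_le.2 (c1 j))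
      rw [card_sigma, ← nsmul_eq_mul, ← sum_const]
      push_cast
      refine sum_le_sum fun T hT => ?_
      have := h.min_le hl.le (S T)
      rw [(mem_filter.1 hT).2] at this
      exact_mod_cast this
    rw [div_mul_div_comm, one_mul, le_div_iff₀ (by positivity), mul_comm _ lam]
    exact e1
  have c3 : Bd.card = ∑ j ∈ Ico 1 N, (Bd.filter fun T => (S T).card = j).card := by
    refine card_eq_sum_card_fiberwise fun T hT => mem_coe.2 (mem_Ico.2 ⟨?_, ?_⟩)
    · exact card_pos.2 ⟨u, mem_rs.2 (Reachable.refl u)⟩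
    · exact card_lt_card ⟨subset_univ _, fun hs => (hB T hT).2.2.2 (mem_rs.1 (hs (mem_univ v)))⟩
  have c4 : tau (G ⊔ edge u v) ≤ tau G + Bd.card := by
    rw [tau_eq, tau_eq, ← card_filter_add_card_filter_not (fun T => T ≤ G)]
    exact Nat.add_le_add_right (card_le_card fun T hT =>
      mem_trees.2 ⟨(mem_filter.1 hT).2, (mem_trees.1 (mem_filter.1 hT).1).2⟩) _
  have c5 : (Bd.card : ℝ) ≤ 2 * (1 + Real.log N) * (tau G / lam) := by
    rw [c3]
    push_cast
    refine (sum_le_sum c2).trans ?_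
    rw [← sum_mul]
    exact mul_le_mul_of_nonneg_right (harm_bound N) (by positivity)
  have c6 : (tau (G ⊔ edge u v) : ℝ) ≤ tau G + Bd.card := by exact_mod_cast c4
  calc _ ≤ tau G + 2 * (1 + Real.log N) * (tau G / lam) := by linarith
    _ = _ := by ring

theorem Exp.add_edges (h : Exp lam G) (hl : 0 < lam) {B : ℝ}
    (hB : 1 + 2 * (1 + Real.log (Fintype.card V)) / lam ≤ B) (hB0 : 0 ≤ B) (A : Finset (Sym2 V)) :
    (tau (G ⊔ fromEdgeSet ↑A) : ℝ) ≤ B ^ A.card * tau G := by
  induction A using Finset.induction_on with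
  | empty => simp
  | insert e A he ih =>
    induction e using Sym2.ind with
    | _ u v =>
    have e1 := (h.mono (le_sup_left : G ≤ G ⊔ fromEdgeSet ↑A)).add_edge hl u v
    have e2 : G ⊔ fromEdgeSet ↑(insert s(u, v) A) = G ⊔ fromEdgeSet ↑A ⊔ edge u v := by
      rw [coe_insert, Set.insert_eq, fromEdgeSet_union, edge, sup_assoc, sup_comm (fromEdgeSet _)]
    rw [e2, card_insert_of_notMem he, pow_succ', mul_assoc]
    exact e1.trans (mul_le_mul hB ih (Nat.cast_nonneg _) hB0)

end Pool.Agent.Lib.MP_5f8612_pr
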