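import Pool.Agent.Lib.MP_5f8612_pr.Bud

set_option linter.unusedSectionVars false

namespace Pool.Agent.Lib.MP_5f8612_pr

open Finset

variable {V : Type*} [Fintype V] [DecidableEq V] {R : Finset V} {p : V → V}
  {B : ℝ} {g : (V → V) → ℝ}

open Classical in
/-- moves of a vertex of `A` to a vertex of `U` -/
noncomputable def fw (p : V → V) (A U : Finset V) : Finset (V × V) :=
  (A ×ˢ U).filter fun x => ¬ Anc p x.2 x.1

theorem mem_fw {A U : Finset V} {x : V × V} :
    x ∈ fw p A U ↔ x.1 ∈ A ∧ x.2 ∈ U ∧ ¬ Anc p x.2 x.1 := by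
  simp [fw, and_assoc]

theorem card_fw (A U : Finset V) : A.card * U.card ≤ (fw p A U).card + ∑ c ∈ A, sg p c := by
  classical
  have : (fw p A U).card = ∑ c ∈ A, (U.filter fun u => ¬ Anc p u c).card := by
    rw [fw, card_filter, sum_product]
    exact sum_congr rfl fun c _ => (card_filter _ _).symm
  rw [this, ← sum_add_distrib, ← smul_eq_mul, ← sum_const]
  refine sum_le_sum fun c _ => ?_
  have h1 := card_filter_add_card_filter_not (s := U) (fun u => Anc p u c)
  have h2 : (U.filter fun u => Anc p u c).card ≤ sg p c :=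
    card_le_card fun u hu => mem_D.2 (mem_filter.1 hu).2
  omega

theorem cast_le_div {a b m C : ℕ} (hC : 0 < C) (h : C * a ≤ m * b) :
    (a : ℝ) ≤ (m : ℝ) / C * b := by
  have : (0 : ℝ) < C := by exact_mod_cast hC
  rw [div_mul_eq_mul_div, le_div_iff₀ this, mul_comm]
  exact_mod_cast h

theorem Lip.deg (hg : Lip R B g) (y : V) {m : ℕ} (hm : 0 < m) (T : ℕ) :
    mass R g (fun p => m + T ≤ (ch p y).card) ≤ (B / m) ^ T * mass R g fun _ => True := by
  have hB : 0 ≤ B := zero_le_one.trans hg.one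
  have := hg.chain (fun t p => m + T ≤ (ch p y).card + t) (θ := B / m) (by positivity) T ?_
  · exact this.trans (mul_le_mul_of_nonneg_left (hg.mono fun _ _ _ => trivial) (by positivity))
  intro t ht
  have := hg.switch (X := fun p => m + T ≤ (ch p y).card + t)
    (Y := fun p => m + T ≤ (ch p y).card + (t + 1)) (fun p => fw p (ch p y) univ)
    (fun _ => univ ×ˢ {y}) (γ := ((1 : ℕ) : ℝ) / m) (by positivity) ?_
  · convert this using 2
    simp [div_eq_mul_inv]
  intro p hF hX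
  have h1 := card_fw (p := p) (ch p y) univ
  have h2 := hF.sg_eq y
  have h3 := sg_le (p := p) y
  have hN : 0 < Fintype.card V := Fintype.card_pos_iff.2 ⟨y⟩
  rw [card_univ] at h1
  have h4 : m * Fintype.card V ≤ (fw p (ch p y) univ).card := by
    have : (m + 1) * Fintype.card V ≤ (ch p y).card * Fintype.card V :=
      Nat.mul_le_mul_right _ (by omega)
    rw [add_mul, one_mul] at this
    omega
  refine ⟨card_pos.1 ((Nat.mul_pos hm hN).trans_le h4), fun x hx => ?_⟩
  obtain ⟨h5, -, h6⟩ := mem_fw.1 hx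
  refine ⟨⟨hF.ch_not_root h5, h6⟩, ?_, by simp [(mem_ch.1 h5).1], cast_le_div hm (by simpa)⟩
  have : ch p y ⊆ insert x.1 (ch (Function.update p x.1 x.2) y) := by
    intro c hc
    by_cases h : c = x.1
    · simp [h]
    · rw [mem_insert, mem_ch, Function.update_of_ne h]
      exact Or.inr (mem_ch.1 hc)
  have := (card_le_card this).trans (card_insert_le _ _)
  omega

theorem sg_upd_le (hF : IsF R p) {w u : V} (hm : Mv R p w u) (v : V) :
    sg (Function.update p w u) v ≤ sg p v + sg p w ∧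
      sg p v ≤ sg (Function.update p w u) v + sg p w := by
  by_cases hv : Anc p v w
  · rw [sg_upd_in hF hm hv]; omega
  · have := sg_upd_out hF hm hv
    split_ifs at this <;> omega

theorem big_child (hF : IsF R p) {s : ℕ} {z c u : V} (hz : Bud s p z) (hb : 3 * s ≤ sg p z)
    (hc : c ∈ ch p z) (hm : Mv R p c u) : Bud (2 * s) (Function.update p c u) z := by
  have h1 := hz.2 c hc
  refine ⟨by have := (sg_upd_le hF hm z).2; omega, fun c' hc' => ?_⟩
  by_cases h : c' = c
  · rw [h, sg_upd_in hF hm (Anc.refl c)]; omega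
  · rw [mem_ch, Function.update_of_ne h] at hc'
    have := hz.2 c' (mem_ch.2 hc')
    have := (sg_upd_le hF hm c').1
    omega

theorem card_ch_big (hF : IsF R p) {s C : ℕ} {z : V} (hz : Bud s p z) (hs : 0 < s) (hC : 2 ≤ C)
    (hb : C * s ≤ sg p z) : C ≤ (ch p z).card := by
  have h1 := hF.sg_eq z
  have h2 : ∑ c ∈ ch p z, sg p c ≤ (ch p z).card * (s - 1) := by
    rw [← smul_eq_mul, ← sum_const]
    exact sum_le_sum fun c hc => by have := hz.2 c hc; omega
  by_contra h
  obtain ⟨s, rfl⟩ : ∃ s', s = s' + 1 := ⟨s - 1, by omega⟩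
  have : (ch p z).card * s ≤ C * s := Nat.mul_le_mul_right _ (by omega)
  simp only [Nat.add_sub_cancel, mul_add, mul_one] at h2 hb
  omega

theorem type1 (hF : IsF R p) {s C n : ℕ} {ρ : V} (hs : 0 < s) (hC : 3 ≤ C) (hn : 2 * s ≤ n)
    (ha : n ≤ sg p ρ) {Z : Finset V} (hZ : ∀ z ∈ Z, Bud s p z ∧ C * s ≤ sg p z) :
    C * Z.card * n ≤ 2 * (fw p (Z.biUnion (ch p)) (D p ρ)).card ∧
    ∀ x ∈ fw p (Z.biUnion (ch p)) (D p ρ), Mv R p x.1 x.2 ∧ Anc p x.2 ρ ∧ p x.1 ∈ Z ∧
      Bud (2 * s) (Function.update p x.1 x.2) (p x.1) ∧ sg p x.1 < s := by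
  constructor
  · have h1 := card_fw (p := p) (Z.biUnion (ch p)) (D p ρ)
    have h2 : ∑ c ∈ Z.biUnion (ch p), sg p c ≤ (Z.biUnion (ch p)).card * s := by
      rw [← smul_eq_mul, ← sum_const]
      refine sum_le_sum fun c hc => ?_
      obtain ⟨z, hz, hc⟩ := mem_biUnion.1 hc
      exact ((hZ z hz).1.2 c hc).le
    have h3 : C * Z.card ≤ (Z.biUnion (ch p)).card := by
      rw [card_biUnion, mul_comm, ← smul_eq_mul, ← sum_const]
      · exact sum_le_sum fun z hz => card_ch_big hF (hZ z hz).1 hs (by omega) (hZ z hz).2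
      · intro a _ b _ hab
        exact Finset.disjoint_left.2 fun c h1 h2 =>
          hab ((mem_ch.1 h1).1.symm.trans (mem_ch.1 h2).1)
    set j := (Z.biUnion (ch p)).card
    have h4 : j * n ≤ j * (D p ρ).card := Nat.mul_le_mul_left _ ha
    have h5 : j * (2 * s) ≤ j * n := Nat.mul_le_mul_left _ hn
    have h6 : C * Z.card * n ≤ j * n := Nat.mul_le_mul_right _ h3
    have h7 : j * (2 * s) = 2 * (j * s) := by ring
    omega
  · intro x hx
    obtain ⟨h1, h2, h3⟩ := mem_fw.1 hx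
    obtain ⟨z, hz, hc⟩ := mem_biUnion.1 h1
    have hm : Mv R p x.1 x.2 := ⟨hF.ch_not_root hc, h3⟩
    rw [(mem_ch.1 hc).1]
    exact ⟨hm, mem_D.1 h2, hz, big_child hF (hZ z hz).1
      ((Nat.mul_le_mul_right _ hC).trans (hZ z hz).2) hc hm, (hZ z hz).1.2 _ hc⟩

/-- small movable buds in the component of `ρ` -/
noncomputable def sb (R : Finset V) (C s : ℕ) (p : V → V) (ρ : V) : Finset V :=
  (buds (D p ρ) s p).filter fun v => v ∉ R ∧ sg p v < C * s

theorem mem_sb {C s : ℕ} {ρ v : V} :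
    v ∈ sb R C s p ρ ↔ Anc p v ρ ∧ Bud s p v ∧ v ∉ R ∧ sg p v < C * s := by
  simp [sb, and_assoc]

theorem sb_upd_le (hF : IsF R p) {w u : V} (hm : Mv R p w u) {C s : ℕ} (ρ : V)
    (hw : ∀ y, Anc p y w → y ≠ w → sg p y < s) :
    (sb R C s (Function.update p w u) ρ).card ≤ (sb R C s p ρ).card + 3 := by
  have := card_le_upd hF hm (s := s) (A := insert w (sb R C s p ρ))
    (A' := sb R C s (Function.update p w u) ρ) (fun v hv => (mem_sb.1 hv).2.1) ?_
  · have := card_insert_le w (sb R C s p ρ)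
    omega
  intro v hv ha
  obtain ⟨h1, h2, h3, h4⟩ := mem_sb.1 hv
  obtain ⟨e1, e2⟩ := unaff hF hm ha
  rw [e2] at h2
  rw [e1] at h4
  by_cases hvw : v = w
  · simp [hvw]
  · refine mem_insert_of_mem (mem_sb.2 ⟨?_, h2, h3, h4⟩)
    refine (anc_upd_out fun h => ?_).1 h1
    have := hw v h hvw
    have := h2.1
    omega

theorem sg_root_ge (hF : IsF R p) {w u ρ : V} (hm : Mv R p w u) (hρ : ρ ∈ R) (hu : Anc p u ρ) :
    sg p ρ ≤ sg (Function.update p w u) ρ := by
  have := sg_upd_out hF hm (hF.root_not hm.1 hρ)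
  split_ifs at this <;> omega

theorem Lip.asym_step (hg : Lip R B g) {k n C s κ t : ℕ} {ρ : V} (hk : R.card = k)
    (hN : Fintype.card V = k * n) (hC : 48 * B * k ≤ C) (hC' : 60 ≤ C) (hρ : ρ ∈ R) (hs : 0 < s)
    (hn : 2 * s ≤ n) (hκ : 6 * k ≤ κ) (ht : C * (t + 1) ≤ κ) :
    mass R g (fun p => n ≤ sg p ρ ∧ κ ≤ (buds univ s p).card + 2 * t ∧
      (buds univ s p).card ≤ κ + 2 * t ∧ C * (sb R C s p ρ).card ≤ κ + 3 * C * t) ≤
    1 / 2 * mass R g (fun p => n ≤ sg p ρ ∧ κ ≤ (buds univ s p).card + 2 * (t + 1) ∧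
      (buds univ s p).card ≤ κ + 2 * (t + 1) ∧ C * (sb R C s p ρ).card ≤ κ + 3 * C * (t + 1)) := by
  classical
  set X := fun p => n ≤ sg p ρ ∧ κ ≤ (buds univ s p).card + 2 * t ∧
      (buds univ s p).card ≤ κ + 2 * t ∧ C * (sb R C s p ρ).card ≤ κ + 3 * C * t with hX
  set Y := fun p => n ≤ sg p ρ ∧ κ ≤ (buds univ s p).card + 2 * (t + 1) ∧
      (buds univ s p).card ≤ κ + 2 * (t + 1) ∧ C * (sb R C s p ρ).card ≤ κ + 3 * C * (t + 1)
      with hY
  let Big : (V → V) → Finset V := fun p => (buds univ s p).filter fun v => C * s ≤ sg p v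
  have hC0 : 0 < C := by omega
  have hn0 : 0 < n := by omega
  have ht1 : 60 * (t + 1) ≤ κ := (Nat.mul_le_mul_right _ hC').trans ht
  have hγ : B * (((12 * k : ℕ) : ℝ) / C) ≤ 1 / 4 := by
    have : (0 : ℝ) < C := by exact_mod_cast hC0
    rw [← mul_div_assoc, div_le_iff₀ this]
    push_cast
    linarith
  have stay : ∀ p, IsF R p → X p → ∀ w u, Mv R p w u → Anc p u ρ →
      (∀ y, Anc p y w → y ≠ w → sg p y < s) → Y (Function.update p w u) := by
    intro p hF ⟨h1, h2, h3, h4⟩ w u hm hu hw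
    have e1 := sg_root_ge hF hm hρ hu
    have e2 := buds_upd_le hF hm univ s
    have e3 := buds_le_upd hF hm univ s
    have e4 := Nat.mul_le_mul_left C (sb_upd_le hF hm (C := C) ρ hw)
    refine ⟨by omega, by omega, by omega, ?_⟩
    have : 3 * C * (t + 1) = 3 * C * t + C * 3 := by ring
    rw [mul_add] at e4
    omega
  have c1 := hg.switch (X := fun p => X p ∧ κ ≤ 3 * (Big p).card) (Y := Y)
    (fun p => fw p ((Big p).biUnion (ch p)) (D p ρ)) (fun q => univ ×ˢ buds univ (2 * s) q)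
    (γ := ((12 * k : ℕ) : ℝ) / C) (by positivity) (by
      intro p hF ⟨hx, hb⟩
      obtain ⟨e1, e2⟩ := type1 hF (Z := Big p) (ρ := ρ) hs (by omega : 3 ≤ C) hn hx.1
        fun z hz => ⟨(mem_buds.1 (mem_filter.1 hz).1).2, (mem_filter.1 hz).2⟩
      set f := (fw p ((Big p).biUnion (ch p)) (D p ρ)).card with hf
      have e3 : C * κ * n ≤ 6 * f := by
        calc C * κ * n ≤ C * (3 * (Big p).card) * n := by gcongr
          _ = 3 * (C * (Big p).card * n) := by ring
          _ ≤ _ := by omega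
      refine ⟨card_pos.1 ?_, fun x hx' => ?_⟩
      · have : 0 < C * κ * n := Nat.mul_pos (Nat.mul_pos hC0 (by omega)) hn0
        omega
      obtain ⟨hm, hu, -, hb2, hsm⟩ := e2 x hx'
      have hy := stay p hF hx _ _ hm hu fun y hy _ => (sg_mono hy).trans_lt hsm
      refine ⟨hm, hy, by simp [hb2], cast_le_div hC0 ?_⟩
      have e4 := (hF.upd hm).buds_anti (U := univ) (fun _ _ _ _ => mem_univ _)
        (show s ≤ 2 * s by omega)
      have e5 := hy.2.2.1
      rw [card_product, card_univ, hN]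
      calc C * (k * n * _) ≤ C * (k * n * (2 * κ)) := by gcongr; omega
        _ = 2 * k * (C * κ * n) := by ring
        _ ≤ 2 * k * (6 * f) := by gcongr
        _ = _ := by ring)
  let So : (V → V) → Finset V := fun p =>
    (buds univ s p).filter fun v => v ∉ R ∧ sg p v < C * s ∧ ¬ Anc p v ρ
  have c2 := hg.switch (X := fun p => X p ∧ ¬ κ ≤ 3 * (Big p).card) (Y := Y)
    (fun p => So p ×ˢ D p ρ) (fun q => sb R C s q ρ ×ˢ univ)
    (γ := ((12 * k : ℕ) : ℝ) / C) (by positivity) (by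
      intro p hF ⟨hx, hb⟩
      have e1 : (buds univ s p).card ≤ (Big p).card + (sb R C s p ρ).card + (So p).card + k := by
        have : buds univ s p ⊆ Big p ∪ sb R C s p ρ ∪ So p ∪ R := by
          intro v hv
          have hv' := (mem_buds.1 hv).2
          simp only [mem_union, Big, So, mem_filter, mem_sb, hv, hv', true_and]
          by_cases h1 : v ∈ R
          · simp [h1]
          by_cases h2 : Anc p v ρ <;> simp [h1, h2] <;> omega
        have := card_le_card this
        have := card_union_le (Big p ∪ sb R C s p ρ ∪ So p) R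
        have := card_union_le (Big p ∪ sb R C s p ρ) (So p)
        have := card_union_le (Big p) (sb R C s p ρ)
        omega
      have e2 : κ ≤ 3 * (So p).card := by
        obtain ⟨-, h2, -, h4⟩ := hx
        have a1 : 60 * (sb R C s p ρ).card ≤ C * (sb R C s p ρ).card :=
          Nat.mul_le_mul_right _ hC'
        have a2 : 3 * C * t + 3 * C = 3 * (C * (t + 1)) := by ring
        omega
      have e3 : κ * n ≤ 3 * (So p ×ˢ D p ρ).card := by
        rw [card_product, ← mul_assoc]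
        exact Nat.mul_le_mul e2 hx.1
      refine ⟨card_pos.1 ?_, fun x hx' => ?_⟩
      · have : 0 < κ * n := Nat.mul_pos (by omega) hn0
        omega
      obtain ⟨h1, h2⟩ := mem_product.1 hx'
      obtain ⟨h1, h3, h4, h5⟩ := mem_filter.1 h1
      have h1 := (mem_buds.1 h1).2
      have h2 := mem_D.1 h2
      have hm : Mv R p x.1 x.2 :=
        ⟨h3, fun h => (h.total h2).elim h5 (hF.root_not h3 hρ)⟩
      have hy := stay p hF hx _ _ hm h2 fun y hy hne => h1.desc hy hne
      refine ⟨hm, hy, ?_, cast_le_div hC0 ?_⟩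
      · simp only [mem_product, mem_univ, and_true, mem_sb]
        exact ⟨(anc_upd_in hF hm (Anc.refl _)).2 (Or.inr h2), bud_upd_self hF hm h1, h3,
          by rwa [sg_upd_in hF hm (Anc.refl _)]⟩
      have e5 := hy.2.2.2
      have a2 : 3 * C * (t + 1) = 3 * (C * (t + 1)) := by ring
      rw [card_product, card_univ, hN, ← mul_assoc]
      calc _ ≤ 4 * κ * (k * n) := Nat.mul_le_mul_right _ (by omega)
        _ = 4 * k * (κ * n) := by ring
        _ ≤ 4 * k * (3 * (So p ×ˢ D p ρ).card) := by gcongr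
        _ = _ := by ring)
  have c3 := hg.union (X := X) (Y := fun p => X p ∧ κ ≤ 3 * (Big p).card)
    (Z := fun p => X p ∧ ¬ κ ≤ 3 * (Big p).card) fun p _ hx => by tauto
  have c4 := mul_le_mul_of_nonneg_right hγ (hg.mass_nonneg Y)
  linarith

theorem Lip.asym (hg : Lip R B g) {k n C s κ : ℕ} {ρ : V} (hk : R.card = k)
    (hN : Fintype.card V = k * n) (hC : 48 * B * k ≤ C) (hC' : 60 ≤ C) (hρ : ρ ∈ R) (hs : 0 < s)
    (hn : 2 * s ≤ n) (hκ : 6 * k ≤ κ) :
    mass R g (fun p => n ≤ sg p ρ ∧ (buds univ s p).card = κ ∧ C * (sb R C s p ρ).card ≤ κ) ≤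
      (1 / 2) ^ (κ / C) * mass R g fun _ => True := by
  have := hg.chain (fun t p => n ≤ sg p ρ ∧ κ ≤ (buds univ s p).card + 2 * t ∧
      (buds univ s p).card ≤ κ + 2 * t ∧ C * (sb R C s p ρ).card ≤ κ + 3 * C * t)
      (θ := 1 / 2) (by norm_num) (κ / C) fun t ht =>
        hg.asym_step hk hN hC hC' hρ hs hn hκ
          ((Nat.mul_le_mul_left C ht).trans (Nat.mul_div_le κ C))
  refine le_trans (hg.mono ?_) (this.trans
    (mul_le_mul_of_nonneg_left (hg.mono fun _ _ _ => trivial) (by positivity)))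
  intro p _ h
  omega

theorem Lip.cond (hg : Lip R B g) {k n C s : ℕ} {ρ : V}
    (hN : Fintype.card V = k * n) (hC : 48 * B * k ≤ C) (hC' : 60 ≤ C) (hρ : ρ ∈ R) (hs : 0 < s)
    (hn : 2 * s ≤ n) {X : (V → V) → Prop}
    (h1 : ∀ p w u, IsF R p → X p → Mv R p w u → Anc p w ρ → Anc p u ρ →
      X (Function.update p w u))
    (h2 : ∀ p, X p → n ≤ sg p ρ ∧ C * s ≤ sg p ρ) :
    mass R g X ≤ 2 * mass R g fun p => X p ∧ (sb R C s p ρ).Nonempty := by
  classical
  have hC0 : 0 < C := by omega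
  have hγ : B * (((6 * k : ℕ) : ℝ) / C) ≤ 1 / 2 := by
    have : (0 : ℝ) < C := by exact_mod_cast hC0
    rw [← mul_div_assoc, div_le_iff₀ this]
    push_cast
    linarith
  have c1 := hg.switch (X := fun p => X p ∧ ¬ (sb R C s p ρ).Nonempty) (Y := X)
    (fun p => fw p ((buds (D p ρ) s p).biUnion (ch p)) (D p ρ))
    (fun q => univ ×ˢ buds (D q ρ) (2 * s) q)
    (γ := ((6 * k : ℕ) : ℝ) / C) (by positivity) (by
      intro p hF ⟨hx, hb⟩
      obtain ⟨a1, a2⟩ := h2 p hx
      obtain ⟨e1, e2⟩ := type1 hF (Z := buds (D p ρ) s p) (ρ := ρ) hs (by omega : 3 ≤ C) hn a1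
        fun z hz => by
          obtain ⟨b1, b2⟩ := mem_buds.1 hz
          refine ⟨b2, ?_⟩
          by_cases hzR : z ∈ R
          · rwa [← (mem_D.1 b1).root hF hzR]
          · by_contra h
            exact hb ⟨z, mem_sb.2 ⟨mem_D.1 b1, b2, hzR, by omega⟩⟩
      set f := (fw p ((buds (D p ρ) s p).biUnion (ch p)) (D p ρ)).card with hf
      have e0 : 0 < (buds (D p ρ) s p).card := by
        obtain ⟨z, hz⟩ := hF.exists_bud (s := s) (v := ρ) (by omega)
        exact card_pos.2 ⟨z, mem_buds.2 ⟨mem_D.2 hz.1, hz.2⟩⟩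
      refine ⟨card_pos.1 ?_, fun x hx' => ?_⟩
      · have : 0 < C * (buds (D p ρ) s p).card * n := Nat.mul_pos (Nat.mul_pos hC0 e0) (by omega)
        omega
      obtain ⟨hm, hu, hz, hb2, hsm⟩ := e2 x hx'
      have hw : Anc p x.1 ρ := (mem_D.1 (mem_buds.1 hz).1).head
      have hD : D (Function.update p x.1 x.2) ρ = D p ρ :=
        D_upd_same hF hm (hF.root_not hm.1 hρ) (by simp [hw, hu])
      refine ⟨hm, h1 p _ _ hF hx hm hw hu, ?_, cast_le_div hC0 ?_⟩
      · rw [hD]
        exact mem_product.2 ⟨mem_univ _, mem_buds.2 ⟨(mem_buds.1 hz).1, hb2⟩⟩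
      have e4 := (hF.upd hm).buds_anti (U := D (Function.update p x.1 x.2) ρ)
        (fun _ hv _ hy => mem_D.2 (hy.trans (mem_D.1 hv))) (show s ≤ 2 * s by omega)
      have e5 := buds_upd_le hF hm (D p ρ) s
      rw [hD] at e4
      rw [card_product, card_univ, hN, hD]
      calc C * (k * n * _) ≤ C * (k * n * (3 * (buds (D p ρ) s p).card)) := by gcongr; omega
        _ = 3 * k * (C * (buds (D p ρ) s p).card * n) := by ring
        _ ≤ 3 * k * (2 * f) := by gcongr
        _ = _ := by ring)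
  have c3 := hg.union (X := X) (Y := fun p => X p ∧ (sb R C s p ρ).Nonempty)
    (Z := fun p => X p ∧ ¬ (sb R C s p ρ).Nonempty) fun p _ hx => by tauto
  have c4 := mul_le_mul_of_nonneg_right hγ (hg.mass_nonneg X)
  linarith

end Pool.Agent.Lib.MP_5f8612_pr
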