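import Pool.Agent.Lib.MP_5f8612_pr.Forest

set_option linter.unusedSectionVars false

namespace Pool.Agent.Lib.MP_5f8612_pr

open Finset

variable {V : Type*} [Fintype V] [DecidableEq V] {R : Finset V} {p : V → V}

/-- minimal subtrees of size at least `s` -/
def Bud (s : ℕ) (p : V → V) (v : V) : Prop := s ≤ sg p v ∧ ∀ c ∈ ch p v, sg p c < s

open Classical in
/-- buds in `U` -/
noncomputable def buds (U : Finset V) (s : ℕ) (p : V → V) : Finset V := U.filter (Bud s p)

@[simp] theorem mem_buds {U : Finset V} {s : ℕ} {v : V} :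
    v ∈ buds U s p ↔ v ∈ U ∧ Bud s p v := by simp [buds]

theorem Bud.desc {s : ℕ} {v y : V} (h : Bud s p v) (hy : Anc p y v) (hne : y ≠ v) :
    sg p y < s := by
  obtain ⟨c, h1, h2, h3⟩ := hy.child hne
  exact (sg_mono h3).trans_lt (h.2 c (mem_ch.2 ⟨h1, h2⟩))

theorem Bud.eq {s : ℕ} {a b z : V} (ha : Bud s p a) (hb : Bud s p b) (h1 : Anc p z a)
    (h2 : Anc p z b) : a = b := by
  by_contra hne
  rcases h1.total h2 with h | h
  · exact absurd ha.1 (not_le.2 (hb.desc h hne))
  · exact absurd hb.1 (not_le.2 (ha.desc h (Ne.symm hne)))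

theorem IsF.exists_bud (hF : IsF R p) {s : ℕ} {v : V} (h : s ≤ sg p v) :
    ∃ z, Anc p z v ∧ Bud s p z := by
  classical
  obtain ⟨z, hz, hmin⟩ := exists_min_image (univ.filter fun z => Anc p z v ∧ s ≤ sg p z) (sg p)
    ⟨v, by simp [Anc.refl, h]⟩
  simp only [mem_filter, mem_univ, true_and] at hz hmin
  refine ⟨z, hz.1, hz.2, fun c hc => ?_⟩
  by_contra h'
  have := hmin c ⟨(ch_anc hc).trans hz.1, not_lt.1 h'⟩
  have := hF.sg_lt (ch_anc hc) (mem_ch.1 hc).2
  omega

theorem buds_mul_le (U : Finset V) (s : ℕ) : (buds U s p).card * s ≤ Fintype.card V := by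
  have h1 : (buds U s p : Set V).PairwiseDisjoint (D p) := by
    intro a ha b hb hab
    exact Finset.disjoint_left.2 fun y h1 h2 =>
      hab ((mem_buds.1 ha).2.eq (mem_buds.1 hb).2 (mem_D.1 h1) (mem_D.1 h2))
  calc (buds U s p).card * s = ∑ _v ∈ buds U s p, s := by simp
    _ ≤ ∑ v ∈ buds U s p, (D p v).card := sum_le_sum fun v hv => (mem_buds.1 hv).2.1
    _ = ((buds U s p).biUnion (D p)).card := (card_biUnion h1).symm
    _ ≤ _ := card_le_univ _

theorem IsF.buds_anti (hF : IsF R p) {U : Finset V} (hU : ∀ v ∈ U, ∀ y, Anc p y v → y ∈ U)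
    {s s' : ℕ} (h : s ≤ s') : (buds U s' p).card ≤ (buds U s p).card := by
  have : ∀ v, ∃ z, Bud s' p v → Anc p z v ∧ Bud s p z := by
    intro v
    by_cases hv : Bud s' p v
    · obtain ⟨z, hz⟩ := hF.exists_bud (h.trans hv.1)
      exact ⟨z, fun _ => hz⟩
    · exact ⟨v, fun h => absurd h hv⟩
  choose f hf using this
  refine card_le_card_of_injOn f (fun v hv => ?_) (fun a ha b hb hab => ?_)
  · have hv := mem_buds.1 (mem_coe.1 hv)
    exact mem_coe.2 (mem_buds.2 ⟨hU v hv.1 _ (hf v hv.2).1, (hf v hv.2).2⟩)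
  · have ha := (mem_buds.1 (mem_coe.1 ha)).2
    have hb := (mem_buds.1 (mem_coe.1 hb)).2
    exact ha.eq hb (hf a ha).1 (hab ▸ (hf b hb).1)

/-- vertices whose subtree may change in a move -/
def Aff (p : V → V) (w u v : V) : Prop := ¬ Anc p v w ∧ (Anc p (p w) v ∨ Anc p u v)

theorem unaff (hF : IsF R p) {w u v : V} (hm : Mv R p w u) (hv : ¬ Aff p w u v) :
    sg (Function.update p w u) v = sg p v ∧
      ∀ s, Bud s (Function.update p w u) v ↔ Bud s p v := by
  have h1 : u ≠ v := by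
    rintro rfl
    exact hv ⟨hm.2, Or.inr (Anc.refl _)⟩
  have h2 : p w ≠ v := by
    rintro rfl
    exact hv ⟨hF.not_anc hm.1, Or.inl (Anc.refl _)⟩
  have hch : ch (Function.update p w u) v = ch p v := by
    ext c
    simp only [mem_ch]
    by_cases hc : c = w
    · subst hc; simp [h1, h2]
    · rw [Function.update_of_ne hc]
  have key : ∀ c, Anc p c v → sg (Function.update p w u) c = sg p c := by
    intro c hc
    by_cases hcw : Anc p c w
    · exact sg_upd_in hF hm hcw
    · have hvw : ¬ Anc p v w := fun h => hcw (hc.trans h)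
      have e1 : ¬ Anc p u c := fun h => hv ⟨hvw, Or.inr (h.trans hc)⟩
      have e2 : ¬ Anc p w c := by
        intro h
        rcases (h.trans hc).cases with h' | h'
        · exact hvw (h' ▸ Anc.refl _)
        · exact hv ⟨hvw, Or.inl h'⟩
      rw [sg, D_upd_same hF hm hcw (by simp [e1, e2]), sg]
  refine ⟨key v (Anc.refl v), fun s => ?_⟩
  unfold Bud
  rw [key v (Anc.refl v), hch]
  refine and_congr_right fun _ => forall₂_congr fun c hc => ?_
  rw [key c (ch_anc hc)]

theorem card_chain {q : V → V} {s : ℕ} {x y : V} {A : Finset V}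
    (h : ∀ v ∈ A, Bud s q v ∧ (Anc q x v ∨ Anc q y v)) : A.card ≤ 2 := by
  classical
  have h1 : ∀ z, (A.filter fun v => Anc q z v).card ≤ 1 := fun z =>
    card_le_one.2 fun a ha b hb =>
      (h a (mem_filter.1 ha).1).1.eq (h b (mem_filter.1 hb).1).1 (mem_filter.1 ha).2
        (mem_filter.1 hb).2
  have : A ⊆ (A.filter fun v => Anc q x v) ∪ (A.filter fun v => Anc q y v) := by
    intro v hv
    rcases (h v hv).2 with h' | h' <;> simp [hv, h']
  have := (card_le_card this).trans (card_union_le _ _)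
  have := h1 x
  have := h1 y
  omega

theorem card_le_upd (hF : IsF R p) {w u : V} (hm : Mv R p w u) {s : ℕ} {A A' : Finset V}
    (h1 : ∀ v ∈ A', Bud s (Function.update p w u) v) (h2 : ∀ v ∈ A', ¬ Aff p w u v → v ∈ A) :
    A'.card ≤ A.card + 2 := by
  classical
  have e1 : (A'.filter (Aff p w u)).card ≤ 2 := by
    refine card_chain (q := Function.update p w u) (s := s) (x := p w) (y := u) fun v hv => ?_
    obtain ⟨hv, ha⟩ := mem_filter.1 hv
    refine ⟨h1 v hv, ?_⟩
    rw [anc_upd_out (hF.not_anc hm.1), anc_upd_out hm.2]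
    exact ha.2
  have e2 : (A'.filter fun v => ¬ Aff p w u v).card ≤ A.card :=
    card_le_card fun v hv => h2 v (mem_filter.1 hv).1 (mem_filter.1 hv).2
  have := card_filter_add_card_filter_not (s := A') (Aff p w u)
  omega

theorem card_le_upd' {w u : V} {s : ℕ} {A A' : Finset V}
    (h1 : ∀ v ∈ A, Bud s p v) (h2 : ∀ v ∈ A, ¬ Aff p w u v → v ∈ A') :
    A.card ≤ A'.card + 2 := by
  classical
  have e1 : (A.filter (Aff p w u)).card ≤ 2 := by
    refine card_chain (q := p) (s := s) (x := p w) (y := u) fun v hv => ?_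
    obtain ⟨hv, ha⟩ := mem_filter.1 hv
    exact ⟨h1 v hv, ha.2⟩
  have e2 : (A.filter fun v => ¬ Aff p w u v).card ≤ A'.card :=
    card_le_card fun v hv => h2 v (mem_filter.1 hv).1 (mem_filter.1 hv).2
  have := card_filter_add_card_filter_not (s := A) (Aff p w u)
  omega

theorem buds_upd_le (hF : IsF R p) {w u : V} (hm : Mv R p w u) (U : Finset V) (s : ℕ) :
    (buds U s (Function.update p w u)).card ≤ (buds U s p).card + 2 :=
  card_le_upd hF hm (fun _ hv => (mem_buds.1 hv).2) fun _ hv ha =>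
    mem_buds.2 ⟨(mem_buds.1 hv).1, ((unaff hF hm ha).2 s).1 (mem_buds.1 hv).2⟩

theorem buds_le_upd (hF : IsF R p) {w u : V} (hm : Mv R p w u) (U : Finset V) (s : ℕ) :
    (buds U s p).card ≤ (buds U s (Function.update p w u)).card + 2 :=
  card_le_upd' (w := w) (u := u) (fun _ hv => (mem_buds.1 hv).2) fun _ hv ha =>
    mem_buds.2 ⟨(mem_buds.1 hv).1, ((unaff hF hm ha).2 s).2 (mem_buds.1 hv).2⟩

theorem bud_upd_self (hF : IsF R p) {w u : V} (hm : Mv R p w u) {s : ℕ} (h : Bud s p w) :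
    Bud s (Function.update p w u) w :=
  ((unaff hF hm fun ha => ha.1 (Anc.refl w)).2 s).2 h

/-! ### weights and switching -/

open Classical in
/-- total weight of the forests with property `X` -/
noncomputable def mass (R : Finset V) (g : (V → V) → ℝ) (X : (V → V) → Prop) : ℝ :=
  ∑ p ∈ univ.filter fun p => IsF R p ∧ X p, g p

/-- weights that change by a bounded factor in a move -/
structure Lip (R : Finset V) (B : ℝ) (g : (V → V) → ℝ) : Prop where
  one : 1 ≤ B
  nonneg : ∀ p, 0 ≤ g p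
  lip : ∀ p w u, IsF R p → Mv R p w u → g p ≤ B * g (Function.update p w u)

variable {B : ℝ} {g : (V → V) → ℝ}

theorem Lip.mass_nonneg (hg : Lip R B g) (X : (V → V) → Prop) : 0 ≤ mass R g X :=
  sum_nonneg fun p _ => hg.nonneg p

theorem Lip.mono (hg : Lip R B g) {X Y : (V → V) → Prop} (h : ∀ p, IsF R p → X p → Y p) :
    mass R g X ≤ mass R g Y := by
  refine sum_le_sum_of_subset_of_nonneg (fun p hp => ?_) fun p _ _ => hg.nonneg p
  simp only [mem_filter, mem_univ, true_and] at hp ⊢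
  exact ⟨hp.1, h p hp.1 hp.2⟩

theorem Lip.cover (hg : Lip R B g) {ι : Type*} (I : Finset ι) {X : (V → V) → Prop}
    {Y : ι → (V → V) → Prop} (h : ∀ p, IsF R p → X p → ∃ i ∈ I, Y i p) :
    mass R g X ≤ ∑ i ∈ I, mass R g (Y i) := by
  classical
  simp only [mass, sum_filter]
  rw [sum_comm]
  refine sum_le_sum fun p _ => ?_
  have hn : ∀ i ∈ I, 0 ≤ if IsF R p ∧ Y i p then g p else 0 := fun i _ => by
    split_ifs
    exacts [hg.nonneg p, le_rfl]
  split_ifs with hp
  · obtain ⟨i, hi, hY⟩ := h p hp.1 hp.2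
    refine le_trans ?_ (single_le_sum hn hi)
    simp [hp.1, hY]
  · exact sum_nonneg hn

theorem Lip.union (hg : Lip R B g) {X Y Z : (V → V) → Prop}
    (h : ∀ p, IsF R p → X p → Y p ∨ Z p) : mass R g X ≤ mass R g Y + mass R g Z := by
  have := hg.cover (univ : Finset Bool) (X := X) (Y := fun b => if b then Y else Z)
    fun p hp hx => by simpa [or_comm] using h p hp hx
  simpa using this

theorem Lip.switch (hg : Lip R B g) {X Y : (V → V) → Prop} (Fw Bw : (V → V) → Finset (V × V))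
    {γ : ℝ} (hγ : 0 ≤ γ)
    (h : ∀ p, IsF R p → X p → (Fw p).Nonempty ∧ ∀ m ∈ Fw p, Mv R p m.1 m.2 ∧
      Y (Function.update p m.1 m.2) ∧ (m.1, p m.1) ∈ Bw (Function.update p m.1 m.2) ∧
      ((Bw (Function.update p m.1 m.2)).card : ℝ) ≤ γ * (Fw p).card) :
    mass R g X ≤ B * γ * mass R g Y := by
  classical
  have hB : 0 ≤ B := zero_le_one.trans hg.one
  set SX := univ.filter fun p => IsF R p ∧ X p with hSX
  set SY := univ.filter fun p => IsF R p ∧ Y p with hSY
  let φ : (Σ _ : V → V, V × V) → (Σ _ : V → V, V × V) :=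
    fun x => ⟨Function.update x.1 x.2.1 x.2.2, (x.2.1, x.1 x.2.1)⟩
  let c : (Σ _ : V → V, V × V) → ℝ := fun y => B * γ * g y.1 / (Bw y.1).card
  have hc : ∀ y, 0 ≤ c y := fun y =>
    div_nonneg (mul_nonneg (mul_nonneg hB hγ) (hg.nonneg _)) (Nat.cast_nonneg _)
  have inj : Function.Injective φ := by
    rintro ⟨p, w, u⟩ ⟨q, w', u'⟩ hpq
    simp only [φ, Sigma.mk.injEq, heq_eq_eq, Prod.mk.injEq] at hpq
    obtain ⟨h1, rfl, h3⟩ := hpq
    have hu : u = u' := by simpa using congrFun h1 w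
    subst hu
    have : p = q := by
      ext z
      by_cases hz : z = w
      · rw [hz, h3]
      · simpa [Function.update_of_ne hz] using congrFun h1 z
    rw [this]
  calc mass R g X = ∑ p ∈ SX, g p := rfl
    _ ≤ ∑ p ∈ SX, ∑ m ∈ Fw p, c (φ ⟨p, m⟩) := by
      refine sum_le_sum fun p hp => ?_
      obtain ⟨hF, hX⟩ := (mem_filter.1 hp).2
      obtain ⟨hne, hm⟩ := h p hF hX
      have hpos : (0 : ℝ) < (Fw p).card := by exact_mod_cast card_pos.2 hne
      calc g p = ∑ _m ∈ Fw p, g p / (Fw p).card := by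
            rw [sum_const, nsmul_eq_mul]; field_simp
        _ ≤ _ := sum_le_sum fun m hm' => by
            obtain ⟨h1, _, h3, h4⟩ := hm m hm'
            have hpos' : (0 : ℝ) < (Bw (Function.update p m.1 m.2)).card := by
              exact_mod_cast card_pos.2 ⟨_, h3⟩
            have h5 := hg.lip p _ _ hF h1
            have h6 := hg.nonneg p
            simp only [c, φ]
            rw [div_le_div_iff₀ hpos hpos']
            calc g p * _ ≤ (B * g (Function.update p m.1 m.2)) * (γ * (Fw p).card) :=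
                  mul_le_mul h5 h4 hpos'.le (h6.trans h5)
              _ = _ := by ring
    _ = ∑ y ∈ (SX.sigma Fw).image φ, c y := by
      rw [sum_image fun a _ b _ hab => inj hab, sum_sigma]
    _ ≤ ∑ y ∈ SY.sigma Bw, c y := by
      refine sum_le_sum_of_subset_of_nonneg (fun y hy => ?_) fun y _ _ => hc y
      obtain ⟨⟨p, m⟩, hx, rfl⟩ := mem_image.1 hy
      obtain ⟨hp, hm'⟩ := mem_sigma.1 hx
      obtain ⟨hF, hX⟩ := (mem_filter.1 hp).2
      obtain ⟨h1, h2, h3, _⟩ := (h p hF hX).2 m hm'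
      exact mem_sigma.2 ⟨mem_filter.2 ⟨mem_univ _, hF.upd h1, h2⟩, h3⟩
    _ ≤ ∑ q ∈ SY, B * γ * g q := by
      rw [sum_sigma]
      refine sum_le_sum fun q _ => ?_
      simp only [c, sum_const, nsmul_eq_mul]
      have := mul_nonneg (mul_nonneg hB hγ) (hg.nonneg q)
      rcases Nat.eq_zero_or_pos (Bw q).card with h0 | h0
      · simpa [h0] using this
      · have : (0 : ℝ) < (Bw q).card := by exact_mod_cast h0
        exact le_of_eq (by field_simp)
    _ = _ := by rw [← mul_sum]; rfl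

theorem Lip.crude (hg : Lip R B g) {X Y : (V → V) → Prop}
    (h : ∀ p, IsF R p → X p → ∃ w u, Mv R p w u ∧ Y (Function.update p w u)) :
    mass R g X ≤ B * (Fintype.card V : ℝ) ^ 2 * mass R g Y := by
  classical
  refine hg.switch (fun p => univ.filter fun m => Mv R p m.1 m.2 ∧ Y (Function.update p m.1 m.2))
    (fun _ => univ) (by positivity) fun p hF hX => ?_
  obtain ⟨w, u, h1⟩ := h p hF hX
  have hne : (univ.filter fun m : V × V =>
      Mv R p m.1 m.2 ∧ Y (Function.update p m.1 m.2)).Nonempty := ⟨(w, u), by simpa using h1⟩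
  refine ⟨hne, fun m hm => ?_⟩
  obtain ⟨h2, h3⟩ := (mem_filter.1 hm).2
  refine ⟨h2, h3, mem_univ _, ?_⟩
  have : (1 : ℝ) ≤ _ := Nat.one_le_cast.2 (card_pos.2 hne)
  simp only [card_univ, Fintype.card_prod, Nat.cast_mul]
  nlinarith [sq_nonneg (Fintype.card V : ℝ)]

theorem Lip.chain (hg : Lip R B g) (X : ℕ → (V → V) → Prop) {θ : ℝ} (hθ : 0 ≤ θ) (T : ℕ)
    (h : ∀ t < T, mass R g (X t) ≤ θ * mass R g (X (t + 1))) :
    mass R g (X 0) ≤ θ ^ T * mass R g (X T) := by
  induction T with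
  | zero => simp
  | succ T ih =>
    calc _ ≤ θ ^ T * mass R g (X T) := ih fun t ht => h t (by omega)
      _ ≤ θ ^ T * (θ * mass R g (X (T + 1))) :=
          mul_le_mul_of_nonneg_left (h T (by omega)) (pow_nonneg hθ _)
      _ = _ := by ring

end Pool.Agent.Lib.MP_5f8612_pr
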