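import Pool.Agent.Lib.MP_5f8612_pr.AddEdge
import Pool.Agent.Lib.MP_5f8612_pr.Bud

set_option linter.unusedSectionVars false

namespace Pool.Agent.Lib.MP_5f8612_pr

open Finset SimpleGraph

variable {V : Type} [Fintype V] [DecidableEq V]

theorem mass_eq (R : Finset V) (g : (V → V) → ℝ) (X : (V → V) → Prop) :
    ∃ S : Finset (V → V), (∀ p, p ∈ S ↔ IsF R p ∧ X p) ∧ mass R g X = ∑ p ∈ S, g p :=
  ⟨_, fun p => by simp, rfl⟩

open Classical in
theorem compare {R : Finset V} {r : V} (hr : r ∈ R) {n : ℕ} {lam B Q : ℝ} (hl : 0 < lam)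
    (hB : 1 + 2 * (1 + Real.log (Fintype.card V)) / lam ≤ B) (hB1 : 1 ≤ B) (hQ : 0 ≤ Q)
    (hmain : ∀ g : (V → V) → ℝ, Lip R B g →
      mass R g (fun _ => True) ≤ Q * mass R g fun p => ∀ r ∈ R, sg p r = n)
    (H : SimpleGraph V) :
    ∑ T ∈ (trees ⊤).filter (fun T => Exp lam (T ⊔ H)), (1 : ℝ) / tau (T ⊔ H) ≤
      (B * Fintype.card V) ^ R.card * Q *
        ∑ T ∈ (trees ⊤).filter (Splittable R.card n), (1 : ℝ) / tau (T ⊔ H) := by
  set E := (trees ⊤).filter (fun T => Exp lam (T ⊔ H)) with hE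
  have hB0 : 0 < B := by linarith
  let t : (V → V) → E → ℝ := fun p T => 1 / tau (T.1 ⊔ H) /
    B ^ ((gr (lift R r p)).edgeSet \ T.1.edgeSet).ncard
  have t0 : ∀ p T, 0 ≤ t p T := fun p T => by positivity
  let g : (V → V) → ℝ := fun p => ⨆ T, t p T
  have g0 : ∀ p, 0 ≤ g p := fun p => Real.iSup_nonneg (t0 p)
  have gle : ∀ p T, t p T ≤ g p := fun p T => le_ciSup (Finite.bddAbove_range _) T
  have hg : Lip R B g := by
    refine ⟨hB1, g0, fun p w u hF hm => Real.iSup_le (fun T => ?_) (mul_nonneg hB0.le (g0 _))⟩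
    refine le_trans ?_ (mul_le_mul_of_nonneg_left (gle _ T) hB0.le)
    have e1 : ((gr (lift R r (Function.update p w u))).edgeSet \ T.1.edgeSet).ncard ≤
        ((gr (lift R r p)).edgeSet \ T.1.edgeSet).ncard + 1 := by
      refine le_trans (Set.ncard_le_ncard (t := insert s(w, u) _) fun e he => ?_)
        (Set.ncard_insert_le _ _)
      exact (gr_lift_upd he.1).imp id fun h => ⟨h, he.2⟩
    have e2 := pow_le_pow_right₀ hB1 e1
    simp only [t]
    rw [← mul_div_assoc, div_le_div_iff₀ (by positivity) (by positivity)]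
    calc _ ≤ _ := mul_le_mul_of_nonneg_left e2 (by positivity)
      _ = _ := by ring
  have up : ∀ p, IsF R p → g p ≤ 1 / tau (gr (lift R r p) ⊔ H) := by
    intro p hF
    refine Real.iSup_le (fun T => ?_) (by positivity)
    obtain ⟨h1, h2⟩ := mem_filter.1 T.2
    have h1 := (mem_trees.1 h1).2
    have e1 := h2.add_edges hl hB hB0.le ((gr (lift R r p)).edgeSet \ T.1.edgeSet).toFinset
    have e2 : tau (gr (lift R r p) ⊔ H) ≤ tau (T.1 ⊔ H ⊔
        fromEdgeSet ↑((gr (lift R r p)).edgeSet \ T.1.edgeSet).toFinset) := by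
      refine tau_mono (sup_le (fun a b hab => ?_) (le_sup_of_le_left le_sup_right))
      by_cases h : T.1.Adj a b
      · exact Or.inl (Or.inl h)
      · exact Or.inr ((fromEdgeSet_adj _).2 ⟨by simpa using ⟨hab, h⟩, hab.ne⟩)
    have e3 : (0 : ℝ) < tau (gr (lift R r p) ⊔ H) := by
      exact_mod_cast tau_pos ((hF.lift hr).tree.connected.mono le_sup_left)
    have e4 : (0 : ℝ) < tau (T.1 ⊔ H) := by
      exact_mod_cast tau_pos (h1.connected.mono le_sup_left)
    rw [← Set.ncard_eq_toFinset_card'] at e1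
    simp only [t]
    rw [div_div, mul_comm]
    exact one_div_le_one_div_of_le e3 ((Nat.cast_le.2 e2).trans e1)
  have c1 : mass R g (fun p => ∀ r ∈ R, sg p r = n) ≤
      ∑ T ∈ (trees ⊤).filter (Splittable R.card n), (1 : ℝ) / tau (T ⊔ H) := by
    obtain ⟨S, hS, hm⟩ := mass_eq R g fun p => ∀ r ∈ R, sg p r = n
    rw [hm]
    refine (sum_le_sum fun p hp => up p ((hS p).1 hp).1).trans ?_
    rw [← sum_image (g := fun p => gr (lift R r p)) (f := fun T => (1 : ℝ) / tau (T ⊔ H))]
    · refine sum_le_sum_of_subset_of_nonneg (fun T hT => ?_) fun _ _ _ => by positivity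
      obtain ⟨p, hp, rfl⟩ := mem_image.1 hT
      obtain ⟨h1, h2⟩ := (hS p).1 hp
      exact mem_filter.2 ⟨mem_trees.2 ⟨le_top, (h1.lift hr).tree⟩, h1.split hr h2⟩
    · intro p hp q hq h
      have h1 := ((hS p).1 hp).1
      have h2 := ((hS q).1 hq).1
      exact lift_inj h1 h2 (gr_inj (h1.lift hr) (h2.lift hr) h)
  have : ∀ T : SimpleGraph V, ∃ q, T.IsTree → IsF {r} q ∧ gr q = T := fun T => by
    by_cases h : T.IsTree
    · exact (exists_gr h r).imp fun q hq _ => hq
    · exact ⟨id, fun h' => absurd h' h⟩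
  choose q hq using this
  have hq' : ∀ T ∈ E, IsF {r} (q T) ∧ gr (q T) = T := fun T hT =>
    hq T (mem_trees.1 (mem_filter.1 hT).1).2
  have c2 : ∀ T ∈ E, (1 : ℝ) / tau (T ⊔ H) ≤ B ^ R.card * g (cutR R (q T)) := by
    intro T hT
    refine le_trans ?_ (mul_le_mul_of_nonneg_left (gle _ ⟨T, hT⟩) (by positivity))
    have e1 := Set.ncard_le_ncard (gr_lift_cut (R := R) (q := q T) (r := r)) (Finset.finite_toSet _)
    rw [Set.ncard_coe_finset, (hq' T hT).2] at e1
    have e2 := pow_le_pow_right₀ hB1 (e1.trans card_image_le)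
    simp only [t]
    rw [← mul_div_assoc, le_div_iff₀ (by positivity), mul_comm]
    exact mul_le_mul_of_nonneg_right e2 (by positivity)
  have c3 : ∑ T ∈ E, g (cutR R (q T)) ≤ (Fintype.card V) ^ R.card * mass R g fun _ => True := by
    obtain ⟨S, hS, hm⟩ := mass_eq R g fun _ => True
    rw [← sum_fiberwise_of_maps_to (g := fun T => cutR R (q T)) (t := S)
      (fun T hT => (hS _).2 ⟨(hq' T hT).1.cutR hr, trivial⟩), hm, mul_sum]
    refine sum_le_sum fun p _ => ?_
    rw [sum_congr rfl (g := fun _ => g p) fun T hT => by rw [(mem_filter.1 hT).2], sum_const,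
      nsmul_eq_mul]
    refine mul_le_mul_of_nonneg_right ?_ (g0 p)
    have : (E.filter fun T => cutR R (q T) = p).card ≤ (univ : Finset (R → V)).card := by
      refine card_le_card_of_injOn (fun T x => q T x) (fun _ _ => mem_univ _)
        fun T hT T' hT' h => ?_
      obtain ⟨h1, h2⟩ := mem_filter.1 hT
      obtain ⟨h3, h4⟩ := mem_filter.1 hT'
      rw [← (hq' T h1).2, ← (hq' T' h3).2]
      congr 1
      funext v
      by_cases hv : v ∈ R
      · exact congrFun h ⟨v, hv⟩
      · simpa [cutR, hv] using congrFun (h2.trans h4.symm) v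
    rw [card_univ, Fintype.card_fun, Fintype.card_coe] at this
    exact_mod_cast this
  calc _ ≤ ∑ T ∈ E, B ^ R.card * g (cutR R (q T)) := sum_le_sum c2
    _ ≤ B ^ R.card * ((Fintype.card V) ^ R.card * (Q * _)) := by
        rw [← mul_sum]
        exact mul_le_mul_of_nonneg_left (c3.trans (mul_le_mul_of_nonneg_left
          ((hmain g hg).trans (mul_le_mul_of_nonneg_left c1 hQ)) (by positivity))) (by positivity)
    _ = _ := by ring

end Pool.Agent.Lib.MP_5f8612_pr
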