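import Mathlib

namespace Pool.Agent.Lib.MP_5f8612_pr

/-- The probability of the graph `G` in the Erdős–Rényi model `G(N,p)`. -/
noncomputable def gnp {N : ℕ} (p : ℝ) (G : SimpleGraph (Fin N)) : ℝ :=
  p ^ G.edgeSet.ncard * (1 - p) ^ (N.choose 2 - G.edgeSet.ncard)

/-- Deleting some `k - 1` edges of `T` leaves `k` components, each with exactly `n` vertices. -/
def Splittable {V : Type} (k n : ℕ) (T : SimpleGraph V) : Prop :=
  ∃ F ⊆ T.edgeSet, F.ncard = k - 1 ∧ Nat.card (T.deleteEdges F).ConnectedComponent = k ∧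
    ∀ c : (T.deleteEdges F).ConnectedComponent, c.supp.ncard = n

/-- The number of spanning trees of `G`. -/
noncomputable def tau {V : Type} (G : SimpleGraph V) : ℕ := {T | T ≤ G ∧ T.IsTree}.ncard

/-- The number of `k`-splittable spanning trees of `G`. -/
noncomputable def tauk {V : Type} (k n : ℕ) (G : SimpleGraph V) : ℕ :=
  {T | T ≤ G ∧ T.IsTree ∧ Splittable k n T}.ncard

open Classical in
/-- `E[τ_k(G) / τ(G) | G connected]` for `G ∼ G(nk, p)`. -/
noncomputable def splitProb (k n : ℕ) (p : ℝ) : ℝ :=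
  (∑ G : SimpleGraph (Fin (n * k)) with G.Connected, gnp p G * (tauk k n G / tau G)) /
    ∑ G : SimpleGraph (Fin (n * k)) with G.Connected, gnp p G

end Pool.Agent.Lib.MP_5f8612_pr
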