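import Mathlib

/-! Rooted forests as parent functions; re-parenting moves; buds. -/

set_option linter.unusedSectionVars false

namespace Pool.Agent.Lib.MP_5f8612_pr

open Finset

variable {V : Type*} [Fintype V] [DecidableEq V]

/-- `p` is the parent function of a forest with root set `R`. -/
def IsF (R : Finset V) (p : V → V) : Prop :=
  (∀ r ∈ R, p r = r) ∧ ∃ d : V → ℕ, ∀ v, v ∉ R → d (p v) < d v

/-- `v` is an ancestor of `y`. -/
def Anc (p : V → V) (y v : V) : Prop := Relation.ReflTransGen (fun a b => p a = b) y v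

open Classical in
/-- descendants -/
noncomputable def D (p : V → V) (v : V) : Finset V := univ.filter fun y => Anc p y v

/-- subtree size -/
noncomputable def sg (p : V → V) (v : V) : ℕ := (D p v).card

/-- children -/
def ch (p : V → V) (v : V) : Finset V := univ.filter fun c => p c = v ∧ c ≠ v

variable {R : Finset V} {p : V → V}

omit [DecidableEq V] in
@[simp] theorem mem_D {y v : V} : y ∈ D p v ↔ Anc p y v := by simp [D]

@[simp] theorem mem_ch {c v : V} : c ∈ ch p v ↔ p c = v ∧ c ≠ v := by simp [ch]

omit [Fintype V] [DecidableEq V] in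
theorem Anc.refl (y : V) : Anc p y y := Relation.ReflTransGen.refl

omit [Fintype V] [DecidableEq V] in
theorem Anc.trans {a b c : V} (h1 : Anc p a b) (h2 : Anc p b c) : Anc p a c :=
  Relation.ReflTransGen.trans h1 h2

omit [Fintype V] [DecidableEq V] in
theorem Anc.step (y : V) : Anc p y (p y) := Relation.ReflTransGen.single rfl

omit [Fintype V] [DecidableEq V] in
theorem Anc.head {y v : V} (h : Anc p (p y) v) : Anc p y v := (Anc.step y).trans h

omit [Fintype V] [DecidableEq V] in
theorem Anc.cases {y v : V} (h : Anc p y v) : y = v ∨ Anc p (p y) v := by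
  rcases Relation.ReflTransGen.cases_head h with h | ⟨c, rfl, h⟩
  · exact Or.inl h
  · exact Or.inr h

omit [Fintype V] [DecidableEq V] in
theorem Anc.ind {v : V} {P : V → Prop} {y : V} (h : Anc p y v) (h0 : P v)
    (hs : ∀ a, Anc p (p a) v → P (p a) → P a) : P y := by
  induction h using Relation.ReflTransGen.head_induction_on with
  | refl => exact h0
  | head h1 h2 ih => subst h1; exact hs _ h2 ih

omit [Fintype V] [DecidableEq V] in
theorem Anc.total {y a b : V} (h1 : Anc p y a) (h2 : Anc p y b) : Anc p a b ∨ Anc p b a :=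
  Relation.ReflTransGen.total_of_right_unique (fun _ _ _ h h' => h.symm.trans h') h1 h2

omit [Fintype V] [DecidableEq V] in
theorem Anc.root (hF : IsF R p) {r v : V} (hr : r ∈ R) (h : Anc p r v) : v = r := by
  induction h with
  | refl => rfl
  | tail _ h2 ih => subst ih; rw [← h2, hF.1 _ hr]

omit [Fintype V] in
theorem Anc.antisymm (hF : IsF R p) {y v : V} (h1 : Anc p y v) (h2 : Anc p v y) : y = v := by
  obtain ⟨h0, d, hd⟩ := hF
  have key : ∀ {a b}, Anc p a b → a = b ∨ d b < d a := by
    intro a b h
    refine h.ind (P := fun a => a = b ∨ d b < d a) (Or.inl rfl) ?_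
    intro a _ ih
    by_cases ha : a ∈ R
    · rwa [h0 a ha] at ih
    · have := hd a ha
      rcases ih with ih | ih
      · right; rwa [← ih]
      · right; omega
  rcases key h1 with h | h
  · exact h
  · rcases key h2 with h' | h'
    · exact h'.symm
    · omega

omit [Fintype V] in
theorem IsF.ne (hF : IsF R p) {w : V} (hw : w ∉ R) : p w ≠ w := by
  obtain ⟨_, d, hd⟩ := hF
  intro h
  have := hd w hw
  rw [h] at this
  omega

omit [Fintype V] in
theorem IsF.not_anc (hF : IsF R p) {w : V} (hw : w ∉ R) : ¬ Anc p (p w) w := fun h =>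
  hF.ne hw (h.antisymm hF (Anc.step w))

omit [Fintype V] in
theorem IsF.exists_root (hF : IsF R p) (y : V) : ∃ r ∈ R, Anc p y r := by
  obtain ⟨_, d, hd⟩ := hF
  induction h : d y using Nat.strong_induction_on generalizing y with
  | _ m ih =>
    by_cases hy : y ∈ R
    · exact ⟨y, hy, Anc.refl y⟩
    · obtain ⟨r, hr, h'⟩ := ih _ (h ▸ hd y hy) (p y) rfl
      exact ⟨r, hr, h'.head⟩

omit [Fintype V] [DecidableEq V] in
theorem IsF.root_unique (hF : IsF R p) {y a b : V} (ha : a ∈ R) (hb : b ∈ R) (h1 : Anc p y a)
    (h2 : Anc p y b) : a = b := by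
  rcases h1.total h2 with h | h
  · exact (h.root hF ha).symm
  · exact h.root hF hb

omit [Fintype V] in
theorem Anc.child {y v : V} (h : Anc p y v) (hne : y ≠ v) : ∃ c, p c = v ∧ c ≠ v ∧ Anc p y c := by
  revert hne
  refine h.ind (P := fun y => y ≠ v → ∃ c, p c = v ∧ c ≠ v ∧ Anc p y c) (fun h => (h rfl).elim) ?_
  intro a _ ih ha
  by_cases h' : p a = v
  · exact ⟨a, h', ha, Anc.refl a⟩
  · obtain ⟨c, h1, h2, h3⟩ := ih h'
    exact ⟨c, h1, h2, h3.head⟩

theorem IsF.ch_not_root (hF : IsF R p) {c v : V} (hc : c ∈ ch p v) : c ∉ R := by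
  intro h
  rw [mem_ch] at hc
  exact hc.2 ((hF.1 c h).symm.trans hc.1)

theorem ch_anc {c v : V} (hc : c ∈ ch p v) : Anc p c v := by
  rw [mem_ch] at hc
  exact hc.1 ▸ Anc.step c

theorem IsF.ch_disj (hF : IsF R p) (v : V) :
    (ch p v : Set V).PairwiseDisjoint (D p) := by
  have key : ∀ a b, a ∈ ch p v → b ∈ ch p v → Anc p a b → a = b := by
    intro a b ha hb h
    rcases h.cases with h | h
    · exact h
    · rw [(mem_ch.1 ha).1] at h
      exact absurd (h.antisymm hF (ch_anc hb)).symm (mem_ch.1 hb).2
  intro a ha b hb hab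
  refine Finset.disjoint_left.2 fun y h1 h2 => hab ?_
  rcases (mem_D.1 h1).total (mem_D.1 h2) with h | h
  · exact key _ _ ha hb h
  · exact (key _ _ hb ha h).symm

omit [DecidableEq V] in
theorem D_mono {y v : V} (h : Anc p y v) : D p y ⊆ D p v := fun _ hz =>
  mem_D.2 ((mem_D.1 hz).trans h)

omit [DecidableEq V] in
theorem sg_mono {y v : V} (h : Anc p y v) : sg p y ≤ sg p v := card_le_card (D_mono h)

omit [DecidableEq V] in
theorem sg_pos (v : V) : 0 < sg p v := card_pos.2 ⟨v, mem_D.2 (Anc.refl v)⟩

omit [DecidableEq V] in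
theorem sg_le (v : V) : sg p v ≤ Fintype.card V := card_le_univ _

theorem IsF.sg_lt (hF : IsF R p) {y v : V} (h : Anc p y v) (hne : y ≠ v) : sg p y < sg p v :=
  card_lt_card ⟨D_mono h, fun hs =>
    hne (h.antisymm hF (mem_D.1 (hs (mem_D.2 (Anc.refl v)))))⟩

theorem IsF.sg_eq (hF : IsF R p) (v : V) : sg p v = 1 + ∑ c ∈ ch p v, sg p c := by
  have : D p v = insert v ((ch p v).biUnion (D p)) := by
    ext y
    simp only [mem_D, mem_insert, mem_biUnion]
    constructor
    · intro h
      by_cases hy : y = v
      · exact Or.inl hy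
      · obtain ⟨c, h1, h2, h3⟩ := h.child hy
        exact Or.inr ⟨c, mem_ch.2 ⟨h1, h2⟩, h3⟩
    · rintro (rfl | ⟨c, hc, h⟩)
      · exact Anc.refl _
      · exact h.trans (ch_anc hc)
  rw [sg, this, card_insert_of_notMem, card_biUnion (hF.ch_disj v), add_comm]
  · rfl
  · simp only [mem_biUnion, mem_D, not_exists, not_and]
    intro c hc h
    exact (mem_ch.1 hc).2 (h.antisymm hF (ch_anc hc)).symm

theorem IsF.sum_roots (hF : IsF R p) : ∑ r ∈ R, sg p r = Fintype.card V := by
  have h1 : (R : Set V).PairwiseDisjoint (D p) := by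
    intro a ha b hb hab
    exact Finset.disjoint_left.2 fun y h1 h2 =>
      hab (hF.root_unique ha hb (mem_D.1 h1) (mem_D.1 h2))
  have h2 : R.biUnion (D p) = univ := by
    ext y
    simpa using hF.exists_root y
  rw [← card_univ, ← h2, card_biUnion h1]
  rfl

/-! ### moves -/

/-- a valid re-parenting move -/
def Mv (R : Finset V) (p : V → V) (w u : V) : Prop := w ∉ R ∧ ¬ Anc p u w

omit [Fintype V] in
theorem anc_upd_out {w u z v : V} (hz : ¬ Anc p z w) :
    Anc (Function.update p w u) z v ↔ Anc p z v := by
  constructor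
  · intro h
    revert hz
    refine h.ind (P := fun z => ¬ Anc p z w → Anc p z v) (fun _ => Anc.refl v) ?_
    intro a _ ih ha
    have hne : a ≠ w := fun h => ha (h ▸ Anc.refl a)
    rw [Function.update_of_ne hne] at ih
    exact (ih fun h => ha h.head).head
  · intro h
    revert hz
    refine h.ind (P := fun z => ¬ Anc p z w → Anc (Function.update p w u) z v)
      (fun _ => Anc.refl v) ?_
    intro a _ ih ha
    have hne : a ≠ w := fun h => ha (h ▸ Anc.refl a)
    apply Anc.head
    rw [Function.update_of_ne hne]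
    exact ih fun h => ha h.head

omit [Fintype V] in
theorem anc_upd_in (hF : IsF R p) {w u z v : V} (hm : Mv R p w u) (hz : Anc p z w) :
    Anc (Function.update p w u) z v ↔ (Anc p z v ∧ Anc p v w) ∨ Anc p u v := by
  have left : ∀ {z v}, Anc p z v → Anc p v w → Anc (Function.update p w u) z v := by
    intro z v h hv
    refine h.ind (P := fun z => Anc (Function.update p w u) z v) (Anc.refl v) ?_
    intro a ha ih
    have hne : a ≠ w := by
      rintro rfl
      exact hF.not_anc hm.1 (ha.trans hv)
    apply Anc.head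
    rwa [Function.update_of_ne hne]
  constructor
  · intro h
    revert hz
    refine h.ind (P := fun z => Anc p z w → (Anc p z v ∧ Anc p v w) ∨ Anc p u v)
      (fun h => Or.inl ⟨Anc.refl v, h⟩) ?_
    intro a h1 ih ha
    by_cases hne : a = w
    · subst hne
      rw [Function.update_self] at h1
      exact Or.inr ((anc_upd_out hm.2).1 h1)
    · rw [Function.update_of_ne hne] at ih
      rcases ha.cases with h | h
      · exact absurd h hne
      · rcases ih h with h' | h'
        · exact Or.inl ⟨h'.1.head, h'.2⟩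
        · exact Or.inr h'
  · rintro (⟨h1, h2⟩ | h)
    · exact left h1 h2
    · refine (left hz (Anc.refl w)).trans (Anc.head ?_)
      rw [Function.update_self]
      exact (anc_upd_out hm.2).2 h

omit [Fintype V] in
theorem IsF.upd (hF : IsF R p) {w u : V} (hm : Mv R p w u) : IsF R (Function.update p w u) := by
  classical
  obtain ⟨h0, d, hd⟩ := hF
  refine ⟨fun r hr => ?_, fun y => if Anc p y w then d y + d u + 1 else d y, fun v hv => ?_⟩
  · rw [Function.update_of_ne (fun h : r = w => hm.1 (h ▸ hr)), h0 r hr]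
  · by_cases hvw : v = w
    · subst hvw
      simp only [Function.update_self, hm.2, Anc.refl, if_true, if_false]
      omega
    · have := hd v hv
      rw [Function.update_of_ne hvw]
      by_cases h1 : Anc p (p v) w
      · simp only [h1, h1.head, if_true]; omega
      · simp only [h1, if_false]
        split_ifs <;> omega

theorem D_upd_in (hF : IsF R p) {w u v : V} (hm : Mv R p w u) (hv : Anc p v w) :
    D (Function.update p w u) v = D p v := by
  ext z
  simp only [mem_D]
  by_cases hz : Anc p z w
  · rw [anc_upd_in hF hm hz]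
    exact ⟨fun h => h.elim (·.1) fun h => absurd (h.trans hv) hm.2, fun h => Or.inl ⟨h, hv⟩⟩
  · exact anc_upd_out hz

theorem sg_upd_in (hF : IsF R p) {w u v : V} (hm : Mv R p w u) (hv : Anc p v w) :
    sg (Function.update p w u) v = sg p v := by
  rw [sg, D_upd_in hF hm hv, sg]

open Classical in
theorem sg_upd_out (hF : IsF R p) {w u v : V} (hm : Mv R p w u) (hv : ¬ Anc p v w) :
    sg (Function.update p w u) v + (if Anc p w v then sg p w else 0) =
      sg p v + (if Anc p u v then sg p w else 0) := by
  have h1 : D (Function.update p w u) v =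
      (D p v \ D p w) ∪ (if Anc p u v then D p w else ∅) := by
    ext z
    simp only [mem_D, mem_union, mem_sdiff]
    by_cases hz : Anc p z w
    · rw [anc_upd_in hF hm hz]
      by_cases hu : Anc p u v <;> simp [hu, hz, hv]
    · rw [anc_upd_out hz]
      by_cases hu : Anc p u v <;> simp [hu, hz]
  have h2 : (D p v \ D p w).card + (if Anc p w v then sg p w else 0) = sg p v := by
    split_ifs with h
    · exact card_sdiff_add_card_eq_card (D_mono h)
    · rw [add_zero, sg, sdiff_eq_self_of_disjoint]
      refine Finset.disjoint_left.2 fun y h1 h2 => ?_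
      rcases (mem_D.1 h1).total (mem_D.1 h2) with h' | h'
      · exact hv h'
      · exact h h'
  rw [sg, h1, card_union_of_disjoint]
  · have : (if Anc p u v then D p w else ∅).card = if Anc p u v then sg p w else 0 := by
      split_ifs <;> simp [sg]
    omega
  · split_ifs
    · exact sdiff_disjoint
    · exact disjoint_empty_right _

theorem D_upd_same (hF : IsF R p) {w u v : V} (hm : Mv R p w u) (hv : ¬ Anc p v w)
    (h : Anc p w v ↔ Anc p u v) : D (Function.update p w u) v = D p v := by
  ext z
  simp only [mem_D]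
  by_cases hz : Anc p z w
  · rw [anc_upd_in hF hm hz]
    constructor
    · rintro (h' | h')
      · exact h'.1
      · exact hz.trans (h.2 h')
    · intro h'
      rcases hz.total h' with h'' | h''
      · exact Or.inr (h.1 h'')
      · exact absurd h'' hv
  · exact anc_upd_out hz

omit [Fintype V] in
theorem IsF.root_not (hF : IsF R p) {w r : V} (hw : w ∉ R) (hr : r ∈ R) : ¬ Anc p r w :=
  fun h => hw ((h.root hF hr) ▸ hr)

theorem Mv.inv (hF : IsF R p) {w u : V} (hm : Mv R p w u) :
    Mv R (Function.update p w u) w (p w) := by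
  refine ⟨hm.1, fun h => ?_⟩
  rw [← mem_D, D_upd_in hF hm (Anc.refl w), mem_D] at h
  exact hF.not_anc hm.1 h

end Pool.Agent.Lib.MP_5f8612_pr
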