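import Pool.Agent.Lib.MP_5f8612_pr.Round

set_option linter.unusedSectionVars false

namespace Pool.Agent.Lib.MP_5f8612_pr

open Finset

theorem sq_le_two_pow (l : ℕ) : (l + 1) ^ 2 ≤ 4 * 2 ^ l := by
  induction l with
  | zero => norm_num
  | succ l ih =>
    rcases Nat.lt_or_ge l 2 with h | h
    · interval_cases l <;> norm_num
    · rw [pow_succ 2 l]; nlinarith

theorem phi_bound (k C : ℕ) (B : ℝ) (hB : 1 ≤ B) (hBC : B ≤ C) :
    ∃ c : ℕ, ∀ L N l : ℕ, C + k + 2 ≤ L → N ≤ 2 ^ (L + 1) → l ^ 2 ≤ 4 * L → 0 < l →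
    k * ((1 + 2 * B * (N ^ 2 : ℕ)) ^ ((2 * C + 1) * (k + 2)) *
      (1 + 2 * B * (2 * C * 2 ^ (2 * (k + 2) + (3 * l + 1)) : ℕ)) ^ ((2 * C + 1) * (3 * l + 1)) *
      (2 + ((L + 1 : ℕ) + 1) * ((1 + (B * (N : ℝ) ^ 2) ^ 2) *
        (2 + 4 * B * C * k) ^ (2 * L + (2 * C + 1) * (L + 1 + C))))) ≤ ((2 : ℝ) ^ L) ^ c := by
  set J := 2 * C + 1 with hJ
  set e := 1 + 4 * C ^ 2 * 2 ^ (2 * (k + 2)) with he
  set e' := 2 + 4 * C ^ 2 * k with he'
  refine ⟨1 + (7 * (J * (k + 2)) + 64 * (e + 1) * J + (13 + e' * (2 + 2 * J) + 1)),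
    fun L N l hL hN hl hl0 => ?_⟩
  set X : ℝ := 2 ^ L with hX
  have hLX : (L : ℝ) + 1 ≤ X := by
    have : L + 1 ≤ 2 ^ L := Nat.lt_two_pow_self
    rw [hX]; exact_mod_cast this
  have hL' : (C : ℝ) + k + 2 ≤ L := by exact_mod_cast hL
  have hk0 : (0 : ℝ) ≤ k := Nat.cast_nonneg _
  have hX2 : 2 ≤ X := by linarith
  have hBX : B ≤ X := by linarith
  have hNX : (N : ℝ) ≤ X ^ 2 := by
    have : (N : ℝ) ≤ 2 ^ (L + 1) := by exact_mod_cast hN
    rw [pow_succ] at this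
    nlinarith
  have add1 : ∀ {a : ℝ} {j : ℕ}, a ≤ X ^ j → 1 + a ≤ X ^ (j + 1) := by
    intro a j h
    have : 1 ≤ X ^ j := one_le_pow₀ (by linarith)
    rw [pow_succ]; nlinarith
  have hN2 : (N : ℝ) ^ 2 ≤ X ^ 4 := by
    calc (N : ℝ) ^ 2 ≤ (X ^ 2) ^ 2 := by gcongr
      _ = _ := by ring
  have a1 : (1 + 2 * B * (N ^ 2 : ℕ)) ^ (J * (k + 2)) ≤ X ^ (7 * (J * (k + 2))) := by
    rw [pow_mul X]
    refine pow_le_pow_left₀ (by positivity) (add1 (j := 6) ?_) _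
    push_cast
    calc 2 * B * (N : ℝ) ^ 2 ≤ X * X * X ^ 4 := by gcongr
      _ = _ := by ring
  have a2 : (1 + 2 * B * (2 * C * 2 ^ (2 * (k + 2) + (3 * l + 1)) : ℕ)) ^ (J * (3 * l + 1)) ≤
      X ^ (64 * (e + 1) * J) := by
    have b1 : (e : ℝ) ≤ 2 ^ e := by exact_mod_cast (Nat.lt_two_pow_self (n := e)).le
    have b2 : 1 + 2 * B * (2 * C * 2 ^ (2 * (k + 2) + (3 * l + 1)) : ℕ) ≤
        (2 : ℝ) ^ (e + (3 * l + 1)) := by
      rw [pow_add (2 : ℝ) e]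
      refine le_trans ?_ (mul_le_mul_of_nonneg_right b1 (by positivity))
      have : (1 : ℝ) ≤ 2 ^ (3 * l + 1) := one_le_pow₀ (by norm_num)
      rw [he, pow_add 2 (2 * (k + 2))]
      push_cast
      have h3 : B * (C * (2 ^ (2 * (k + 2)) * 2 ^ (3 * l + 1))) ≤
          C * (C * (2 ^ (2 * (k + 2)) * 2 ^ (3 * l + 1))) := by gcongr
      nlinarith
    refine (pow_le_pow_left₀ (by positivity) b2 _).trans ?_
    rw [← pow_mul, hX, ← pow_mul]
    refine pow_le_pow_right₀ (by norm_num) ?_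
    have b3 : e + (3 * l + 1) ≤ (e + 1) * (4 * l) := by nlinarith
    calc (e + (3 * l + 1)) * (J * (3 * l + 1)) ≤ ((e + 1) * (4 * l)) * (J * (4 * l)) := by
          gcongr; omega
      _ = 16 * (e + 1) * J * l ^ 2 := by ring
      _ ≤ 16 * (e + 1) * J * (4 * L) := by gcongr
      _ = _ := by ring
  have a3 : (2 + 4 * B * C * k) ^ (2 * L + J * (L + 1 + C)) ≤ X ^ (e' * (2 + 2 * J)) := by
    have b1 : (e' : ℝ) ≤ 2 ^ e' := by exact_mod_cast (Nat.lt_two_pow_self (n := e')).le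
    have b2 : 2 + 4 * B * C * k ≤ (2 : ℝ) ^ e' := by
      refine le_trans ?_ b1
      rw [he']
      push_cast
      have h3 : B * (C * k) ≤ C * (C * k) := by gcongr
      nlinarith
    refine (pow_le_pow_left₀ (by positivity) b2 _).trans ?_
    rw [← pow_mul, hX, ← pow_mul]
    refine pow_le_pow_right₀ (by norm_num) ?_
    calc e' * (2 * L + J * (L + 1 + C)) ≤ e' * (2 * L + J * (2 * L)) := by gcongr; omega
      _ = _ := by ring
  have a4 : 1 + (B * (N : ℝ) ^ 2) ^ 2 ≤ X ^ 11 := by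
    refine add1 (j := 10) ?_
    calc (B * (N : ℝ) ^ 2) ^ 2 ≤ (X * X ^ 4) ^ 2 := by gcongr
      _ = _ := by ring
  have a5 : 2 + (((L + 1 : ℕ) : ℝ) + 1) * ((1 + (B * (N : ℝ) ^ 2) ^ 2) *
      (2 + 4 * B * C * k) ^ (2 * L + J * (L + 1 + C))) ≤ X ^ (13 + e' * (2 + 2 * J) + 1) := by
    have b1 : ((L + 1 : ℕ) : ℝ) + 1 ≤ X ^ 2 := by push_cast; nlinarith
    have b2 : (((L + 1 : ℕ) : ℝ) + 1) * ((1 + (B * (N : ℝ) ^ 2) ^ 2) *
        (2 + 4 * B * C * k) ^ (2 * L + J * (L + 1 + C))) ≤ X ^ (13 + e' * (2 + 2 * J)) := by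
      calc _ ≤ X ^ 2 * (X ^ 11 * X ^ (e' * (2 + 2 * J))) := by gcongr
        _ = _ := by ring
    have b3 : X ^ 1 ≤ X ^ (13 + e' * (2 + 2 * J)) := pow_le_pow_right₀ (by linarith) (by omega)
    rw [pow_succ X (13 + _)]
    nlinarith
  calc _ ≤ X * (X ^ (7 * (J * (k + 2))) * X ^ (64 * (e + 1) * J) *
        X ^ (13 + e' * (2 + 2 * J) + 1)) := by gcongr; linarith
    _ = _ := by rw [← pow_add, ← pow_add, pow_add X 1, pow_one]

theorem delta_bound (k C c : ℕ) (B : ℝ) (hB : 1 ≤ B) (hBC : B ≤ C) (L N : ℕ) (hC : 0 < C)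
    (h1 : 2 * (C * 2 ^ (3 * (c + 3))) + C * (c + 7) + k + 2 ≤ L) (hN : N < 2 ^ (L + 1)) :
    ((2 : ℝ) ^ L) ^ c * ((N : ℕ) * (B / (L / 2 : ℕ)) ^ (L / 2) +
      ((N + 1) * k * (N + 1) : ℕ) * (1 / 2) ^ (L ^ 2 / C)) ≤ 1 / 2 := by
  have hN1 : N + 1 ≤ 2 ^ (2 * L) := hN.trans_le (Nat.pow_le_pow_right (by norm_num) (by omega))
  have key : ∀ {a j e : ℕ}, a ≤ 2 ^ j → L * c + j + 2 ≤ e →
      ((2 : ℝ) ^ L) ^ c * (a * (1 / 2) ^ e) ≤ 1 / 4 := by
    intro a j e ha he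
    have ha' : (a : ℝ) ≤ 2 ^ j := by exact_mod_cast ha
    calc _ ≤ ((2 : ℝ) ^ L) ^ c * (2 ^ j * (1 / 2) ^ (L * c + j + 2)) := by
          gcongr ((2 : ℝ) ^ L) ^ c * (?_ * ?_)
          exact pow_le_pow_of_le_one (by norm_num) (by norm_num) he
      _ = _ := by
          rw [← pow_mul, pow_add, pow_add, one_div, inv_pow, inv_pow]
          field_simp
          norm_num
  have e1 := key (a := N) (j := 2 * L) (e := 3 * (c + 3) * (L / 2)) (by omega) (by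
    have h2 : 2 ≤ L := by omega
    have h3 : L ≤ 3 * (L / 2) := by omega
    calc L * c + 2 * L + 2 ≤ L * c + 2 * L + L := by omega
      _ = (c + 3) * L := by ring
      _ ≤ (c + 3) * (3 * (L / 2)) := Nat.mul_le_mul_left _ h3
      _ = _ := by ring)
  have e2 := key (a := (N + 1) * k * (N + 1)) (j := 5 * L) (e := L ^ 2 / C) (by
    have : k ≤ 2 ^ L := (show k ≤ L by omega).trans Nat.lt_two_pow_self.le
    calc _ ≤ 2 ^ (2 * L) * 2 ^ L * 2 ^ (2 * L) := by gcongr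
      _ = _ := by ring) (by
    rw [Nat.le_div_iff_mul_le hC]
    calc (L * c + 5 * L + 2) * C ≤ (L * c + 5 * L + 2 * L) * C := by gcongr; omega
      _ = C * (c + 7) * L := by ring
      _ ≤ L * L := by gcongr; omega
      _ = _ := by ring)
  have e3 : (B / (L / 2 : ℕ)) ^ (L / 2) ≤ (1 / 2) ^ (3 * (c + 3) * (L / 2)) := by
    rw [pow_mul]
    refine pow_le_pow_left₀ (by positivity) ?_ _
    have h2 : C * 2 ^ (3 * (c + 3)) ≤ L / 2 := by omega
    have h3 : (C : ℝ) * 2 ^ (3 * (c + 3)) ≤ (L / 2 : ℕ) := by exact_mod_cast h2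
    have h4 : (0 : ℝ) < 2 ^ (3 * (c + 3)) := by positivity
    rw [one_div, inv_pow, ← one_div, div_le_div_iff₀ (by nlinarith) h4]
    nlinarith
  have e4 : ((2 : ℝ) ^ L) ^ c * (N * (B / (L / 2 : ℕ)) ^ (L / 2)) ≤
      ((2 : ℝ) ^ L) ^ c * (N * (1 / 2) ^ (3 * (c + 3) * (L / 2))) := by gcongr
  rw [mul_add]
  linarith

theorem forest_main (k : ℕ) (hk : 2 ≤ k) (B : ℝ) (hB : 1 ≤ B) : ∃ c n0 : ℕ, ∀ n, n0 ≤ n →
    ∀ (V : Type) [Fintype V] [DecidableEq V] (R : Finset V) (g : (V → V) → ℝ), R.card = k →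
      Fintype.card V = k * n → Lip R B g →
      mass R g (fun _ => True) ≤ ((k * n : ℕ) : ℝ) ^ c * mass R g fun p => ∀ r ∈ R, sg p r = n := by
  obtain ⟨C, hC⟩ : ∃ C, C = 60 + ⌈48 * B * k⌉₊ := ⟨_, rfl⟩
  have hC1 : 48 * B * k ≤ C := by
    have := Nat.le_ceil (48 * B * k)
    rw [hC]; push_cast; linarith
  have hk' : (2 : ℝ) ≤ k := by exact_mod_cast hk
  have hBC : B ≤ C := by nlinarith
  obtain ⟨c, hc⟩ := phi_bound k C B hB hBC
  obtain ⟨a, ha⟩ : ∃ a, a = 2 * (C * 2 ^ (3 * (c * k + 3))) + C * (c * k + 7) := ⟨_, rfl⟩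
  obtain ⟨L0, hL0⟩ : ∃ L0, L0 = a + 6 * k + 12 * C + 200 := ⟨_, rfl⟩
  refine ⟨c * k + 1, 2 ^ L0, fun n hn V _ _ R g hR hN hg => ?_⟩
  have hn' : L0 < n := Nat.lt_two_pow_self.trans_le hn
  have hnN : n ≤ k * n := Nat.le_mul_of_pos_left _ (by omega)
  obtain ⟨L, hL1, hL2, hL3⟩ : ∃ L, L0 ≤ L ∧ 2 ^ L ≤ k * n ∧ k * n < 2 ^ (L + 1) :=
    ⟨Nat.log 2 (k * n), Nat.le_log_of_pow_le (by norm_num) (hn.trans hnN),
      Nat.pow_log_le_self 2 (by omega), Nat.lt_pow_succ_log_self (by norm_num) _⟩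
  obtain ⟨l, hl0, hl1, hl2⟩ : ∃ l, 0 < l ∧ L < 2 ^ l ∧ l ^ 2 ≤ 4 * L :=
    ⟨Nat.log 2 L + 1, by omega, Nat.lt_pow_succ_log_self (by norm_num) _,
      (sq_le_two_pow _).trans (Nat.mul_le_mul_left _ (Nat.pow_log_le_self 2 (by omega)))⟩
  have hl3 : 6 * l ≤ L := by
    by_contra h
    have h1 : L * L ≤ (6 * l) * (6 * l) := Nat.mul_le_mul (by omega) (by omega)
    have h2 : 200 * L ≤ L * L := Nat.mul_le_mul_right _ (by omega)
    have h3 : (6 * l) * (6 * l) = 36 * l ^ 2 := by ring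
    omega
  have hLL : 6 * k ≤ L ^ 2 := (show 6 * k ≤ L by omega).trans (Nat.le_self_pow (by norm_num) _)
  obtain ⟨i, hi⟩ : ∃ i, L + 1 = i + (3 * l + 1) + (k + 2) := ⟨L + 1 - (3 * l + 1) - (k + 2), by omega⟩
  have c1 := hc L (k * n) l (by omega) hL3.le hl2 (by omega)
  have c2 := delta_bound k C (c * k) B hB hBC L (k * n) (by omega) (by omega) hL3
  have c3 := hg.bad hR hN (m := L / 2) (Δ := L) (K := L ^ 2) hC1 (by omega) (by omega) (by omega)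
    hLL
  have c4 := rounds hg hR hN (hg.mass_nonneg (Bad R n C L (L ^ 2))) ?_
    (fun Fx ρ h => h.round hg (Δ := L) (K := L ^ 2) (K0 := L ^ 3) (i := i) (d1 := 3 * l + 1)
      (d2 := k + 2) hC1 (by omega) (by omega) (hi ▸ hL3) (by rw [← hi, pow_succ]; omega) (by
        have e1 : k ≤ 2 ^ k := Nat.lt_two_pow_self.le
        have e2 : 2 ^ L = 2 ^ k * (2 * 2 ^ (i + (3 * l + 1))) := by
          rw [show L = k + (i + (3 * l + 1) + 1) by omega, pow_add, pow_succ]; ring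
        refine Nat.le_of_mul_le_mul_left ?_ (show 0 < k by omega)
        exact (Nat.mul_le_mul_right _ e1).trans (e2 ▸ hL2)) (by omega) (by
        rw [← hi]
        have e1 : (2 * C + 1) * (L + 1 + C) ≤ (2 * C + 1) * (2 * L) :=
          Nat.mul_le_mul_left _ (by omega)
        have e2 : (12 * C + 200) * L ≤ L * L := Nat.mul_le_mul_right _ (by omega)
        have e3 : 2 * (L * L) ≤ L * (L * L) := Nat.mul_le_mul_right _ (by omega)
        have e4 : (2 * C + 1) * (2 * L) = 4 * (C * L) + 2 * L := by ring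
        have e5 : (12 * C + 200) * L = 12 * (C * L) + 200 * L := by ring
        have e6 : L ^ 2 = L * L := by ring
        have e7 : L ^ 3 = L * (L * L) := by ring
        omega) (by
        have : L ^ 3 < (2 ^ l) ^ 3 := Nat.pow_lt_pow_left hl1 (by norm_num)
        rw [pow_succ 2, mul_comm 3 l, pow_mul]
        omega)) (k - 1) ∅ (empty_subset _) (by simp; omega)
  swap
  · refine one_le_mul_of_one_le_of_one_le (one_le_mul_of_one_le_of_one_le
      (one_le_pow₀ (le_add_of_nonneg_right (by positivity)))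
      (one_le_pow₀ (le_add_of_nonneg_right (by positivity)))) ?_
    exact one_le_two.trans (le_add_of_nonneg_right (by positivity))
  rw [← hi, hN] at c4
  set X : ℝ := 2 ^ L with hX
  have hX2 : 2 ≤ X := by
    have : (2 : ℝ) ^ 1 ≤ 2 ^ L := pow_le_pow_right₀ (by norm_num) (by omega)
    linarith
  have b0 := hg.mass_nonneg (Bad R n C L (L ^ 2))
  have M0 := hg.mass_nonneg fun _ => True
  have W0 := hg.mass_nonneg fun p => ∀ r ∈ R, sg p r = n
  have c5 := (pow_le_pow_left₀ (by positivity) c1 (k - 1)).trans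
    (pow_le_pow_right₀ (one_le_pow₀ (by linarith)) (Nat.sub_le k 1))
  rw [← pow_mul] at c5
  have c6 := c4.trans (mul_le_mul_of_nonneg_right c5 (add_nonneg W0 b0))
  have c7 : mass R g (fun p => ∀ r ∈ (∅ : Finset V), sg p r = n) = mass R g fun _ => True := by
    simp
  have c8 := mul_le_mul_of_nonneg_left c3 (show 0 ≤ X ^ (c * k) by positivity)
  have c9 := mul_le_mul_of_nonneg_right c2 M0
  have c10 : 2 * X ^ (c * k) ≤ ((k * n : ℕ) : ℝ) ^ (c * k + 1) := by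
    have : X ≤ (k * n : ℕ) := by rw [hX]; exact_mod_cast hL2
    calc 2 * X ^ (c * k) ≤ X * X ^ (c * k) := by gcongr
      _ = X ^ (c * k + 1) := by ring
      _ ≤ _ := by gcongr
  have c11 := mul_le_mul_of_nonneg_right c10 W0
  rw [c7] at c6
  rw [← mul_assoc] at c8
  rw [mul_add] at c6
  linarith

end Pool.Agent.Lib.MP_5f8612_pr
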