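import Pool.Agent.Lib.MP_5f8612_pr.Random
import Pool.Agent.Lib.MP_5f8612_pr.Compare
import Pool.Agent.Lib.MP_5f8612_pr.Num

set_option linter.unusedSectionVars false

namespace Pool.Agent.Lib.MP_5f8612_pr

open Finset SimpleGraph

variable {N : ℕ} {p : ℝ}

open Classical in
theorem plant_sum (p : ℝ) (X : SimpleGraph (Fin N) → Prop) (φ : SimpleGraph (Fin N) → ℝ) :
    ∑ G, gnp p G * (((trees G).filter X).card * φ G) =
      p ^ (N - 1) * ∑ H, gnp p H * ∑ T ∈ (trees ⊤).filter X, φ (T ⊔ H) := by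
  have h1 : ∀ G : SimpleGraph (Fin N), gnp p G * (((trees G).filter X).card * φ G) =
      ∑ T ∈ (trees ⊤).filter X, gnp p G * (if T ≤ G then φ G else 0) := by
    intro G
    rw [← mul_sum, ← sum_filter, sum_const, nsmul_eq_mul]
    congr 4
    ext T
    simp only [mem_filter, mem_trees, le_top, true_and]
    tauto
  simp only [h1, mul_sum]
  rw [sum_comm, sum_comm (s := univ)]
  refine sum_congr rfl fun T hT => ?_
  have := tree_card (mem_trees.1 (mem_filter.1 hT).1).2
  rw [Fintype.card_fin] at this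
  rw [plant_graph, mul_sum, show T.edgeSet.ncard = N - 1 by omega]

open Classical in
theorem num_eq (p : ℝ) (k n : ℕ) :
    ∑ G : SimpleGraph (Fin N) with G.Connected, gnp p G * (tauk k n G / tau G) =
      p ^ (N - 1) * ∑ H : SimpleGraph (Fin N), gnp p H *
        ∑ T ∈ (trees ⊤).filter (Splittable k n), (1 : ℝ) / tau (T ⊔ H) := by
  rw [← plant_sum p (Splittable k n) fun G => (1 : ℝ) / tau G, sum_filter]
  refine sum_congr rfl fun G _ => ?_
  split_ifs with h
  · rw [mul_one_div, tauk, ← Set.ncard_coe_finset]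
    congr 4
    ext T
    simp [mem_trees, and_assoc]
  · rw [filter_eq_empty_iff.2 fun T hT _ => h ((mem_trees.1 hT).2.connected.mono (mem_trees.1 hT).1)]
    simp

open Classical in
theorem exp_eq (p : ℝ) {lam : ℝ} (hl : 0 < lam) (u : Fin N) :
    ∑ G : SimpleGraph (Fin N), gnp p G * (if Exp lam G then 1 else 0) =
      p ^ (N - 1) * ∑ H : SimpleGraph (Fin N), gnp p H *
        ∑ T ∈ (trees ⊤).filter (fun T => Exp lam (T ⊔ H)), (1 : ℝ) / tau (T ⊔ H) := by
  have := plant_sum p (fun _ : SimpleGraph (Fin N) => True)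
    fun G => if Exp lam G then (1 : ℝ) / tau G else 0
  simp only [filter_true] at this
  simp only [sum_filter]
  rw [← this]
  refine sum_congr rfl fun G _ => ?_
  split_ifs with h
  · have := tau_pos (h.conn hl u)
    rw [← tau_eq]
    field_simp
  · simp

theorem main (k : ℕ) (hk : 2 ≤ k) (ε : ℝ) (hε : 0 < ε) : ∃ C c : ℝ, 0 < C ∧ 0 < c ∧
    ∃ n0 : ℕ, ∀ n, n0 ≤ n → ∀ p : ℝ, (1 + ε) * Real.log (n * k : ℕ) / (n * k : ℕ) ≤ p → p ≤ 1 →
      C * (n : ℝ) ^ (-c) ≤ splitProb k n p := by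
  classical
  wlog hε1 : ε ≤ 1 generalizing ε
  · obtain ⟨C, c, hC, hc, n0, h⟩ := this 1 one_pos le_rfl
    refine ⟨C, c, hC, hc, n0, fun n hn p hp => h n hn p (le_trans ?_ hp)⟩
    have := Real.log_natCast_nonneg (n * k)
    gcongr
    linarith
  set c0 := ε / (8 * Real.log (8 / ε)) with hc0
  have hc0' : 0 < c0 := by
    have := Real.log_pos (show 1 < 8 / ε by rw [lt_div_iff₀ hε]; linarith)
    positivity
  have hB1 : 1 ≤ 1 + 4 / c0 := le_add_of_nonneg_right (by positivity)
  set B := 1 + 4 / c0 with hB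
  obtain ⟨c, n0, hm⟩ := forest_main k hk B hB1
  refine ⟨1 / (2 * B ^ k), (2 * (k + c) : ℕ), by positivity, by positivity,
    max n0 (max k ⌈Real.exp (103 / ε)⌉₊), fun n hn p hp h1 => ?_⟩
  simp only [max_le_iff] at hn
  obtain ⟨hn0, hnk, hne⟩ := hn
  have hn' : (0 : ℝ) < n := by exact_mod_cast (by omega : 0 < n)
  have hN : 103 ≤ ε * Real.log (n * k : ℕ) := by
    rw [← div_le_iff₀' hε, Real.le_log_iff_exp_le (by exact_mod_cast Nat.mul_pos (by omega) (by omega))]
    exact (Nat.ceil_le.1 hne).trans (Nat.cast_le.2 (Nat.le_mul_of_pos_right _ (by omega)))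
  have hl1 : 1 ≤ Real.log (n * k : ℕ) := by nlinarith [Real.log_natCast_nonneg (n * k)]
  have h0 : 0 ≤ p := le_trans (by positivity) hp
  have hl : 0 < c0 * Real.log (n * k : ℕ) := by positivity
  obtain ⟨R, -, hR⟩ := exists_subset_card_eq (s := (univ : Finset (Fin (n * k)))) (n := k)
    (by rw [card_univ, Fintype.card_fin]; exact Nat.le_mul_of_pos_left _ (by omega))
  obtain ⟨r, hr⟩ : R.Nonempty := card_pos.1 (by omega)
  have e1 := exp_prob hε hε1 hN hp h1
  have e2 := fun H => compare hr hl (B := B) (Q := ((k * n : ℕ) : ℝ) ^ c) (n := n) (by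
      rw [Fintype.card_fin, hB, add_le_add_iff_left, div_le_div_iff₀ hl hc0']
      nlinarith) hB1 (by positivity)
    (fun g hg => hm n hn0 _ R g hR (by rw [Fintype.card_fin, mul_comm]) hg) H
  rw [hR, Fintype.card_fin] at e2
  have e3 : 1 / 2 ≤ (B * (n * k : ℕ)) ^ k * ((k * n : ℕ) : ℝ) ^ c *
      ∑ G : SimpleGraph (Fin (n * k)) with G.Connected, gnp p G * (tauk k n G / tau G) := by
    rw [num_eq, mul_left_comm, mul_sum]
    rw [exp_eq p hl r] at e1
    refine e1.trans (mul_le_mul_of_nonneg_left (sum_le_sum fun H _ => ?_) (by positivity))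
    rw [mul_left_comm]
    exact mul_le_mul_of_nonneg_left (e2 H) (gnp_nonneg h0 h1 H)
  have e4 : ∑ G : SimpleGraph (Fin (n * k)) with G.Connected, gnp p G ≤ 1 := by
    rw [← sum_gnp (N := n * k) p]
    exact sum_le_sum_of_subset_of_nonneg (filter_subset _ _) fun G _ _ => gnp_nonneg h0 h1 G
  have e5 : 1 / 2 ≤ ∑ G : SimpleGraph (Fin (n * k)) with G.Connected, gnp p G := by
    rw [sum_filter]
    refine e1.trans (sum_le_sum fun G _ => ?_)
    have := gnp_nonneg h0 h1 G
    split_ifs with a b b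
    · simp
    · exact absurd (a.conn hl r) b
    · simpa
    · simp
  unfold splitProb
  set a := ∑ G : SimpleGraph (Fin (n * k)) with G.Connected, gnp p G * (tauk k n G / tau G)
  have ha : 0 ≤ a := by
    by_contra ha
    have : (B * (n * k : ℕ)) ^ k * ((k * n : ℕ) : ℝ) ^ c * a ≤ 0 :=
      mul_nonpos_of_nonneg_of_nonpos (by positivity) (by linarith)
    linarith
  refine le_trans ?_ (le_div_self ha (by linarith) e4)
  have e6 : (B * (n * k : ℕ)) ^ k * ((k * n : ℕ) : ℝ) ^ c ≤ B ^ k * n ^ (2 * (k + c)) := by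
    rw [mul_pow, mul_assoc, mul_comm k n, ← pow_add, pow_mul]
    gcongr
    exact_mod_cast (by nlinarith : n * k ≤ n ^ 2)
  rw [Real.rpow_neg hn'.le, Real.rpow_natCast, ← div_eq_mul_inv, div_div, div_le_iff₀ (by positivity)]
  nlinarith [mul_le_mul_of_nonneg_right e6 ha]

end Pool.Agent.Lib.MP_5f8612_pr
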