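import Pool.Agent.Lib.MP_5f8612_pr.AddEdge

set_option linter.unusedSectionVars false

namespace Pool.Agent.Lib.MP_5f8612_pr

open Finset SimpleGraph

section
variable {α : Type*} [DecidableEq α]

/-- product weight -/
noncomputable def wt (p : ℝ) (E A : Finset α) : ℝ := p ^ A.card * (1 - p) ^ (E.card - A.card)

theorem plant_one (p : ℝ) {E : Finset α} {e : α} (he : e ∈ E) (ψ : Finset α → ℝ) :
    ∑ A ∈ E.powerset, wt p E A * (if e ∈ A then ψ A else 0) =
      p * ∑ A ∈ E.powerset, wt p E A * ψ (insert e A) := by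
  obtain ⟨E', he', rfl⟩ : ∃ E', e ∉ E' ∧ E = insert e E' :=
    ⟨E.erase e, notMem_erase _ _, (insert_erase he).symm⟩
  rw [sum_powerset_insert he', sum_powerset_insert he', ← sum_add_distrib, ← sum_add_distrib,
    mul_sum]
  refine sum_congr rfl fun A hA => ?_
  have h1 := mem_powerset.1 hA
  have h2 : e ∉ A := fun h => he' (h1 h)
  obtain ⟨d, hd⟩ := Nat.exists_eq_add_of_le (card_le_card h1)
  simp only [wt, h2, if_false, mem_insert_self, if_true, insert_eq_of_mem (mem_insert_self e A),
    card_insert_of_notMem h2, card_insert_of_notMem he', hd]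
  rw [show A.card + d + 1 - (A.card + 1) = d by omega, show A.card + d + 1 - A.card = d + 1 by omega]
  ring

theorem plant (p : ℝ) {E T : Finset α} (hT : T ⊆ E) (ψ : Finset α → ℝ) :
    ∑ A ∈ E.powerset, wt p E A * (if T ⊆ A then ψ A else 0) =
      p ^ T.card * ∑ A ∈ E.powerset, wt p E A * ψ (T ∪ A) := by
  induction T using Finset.induction_on generalizing ψ with
  | empty => simp
  | insert e T he ih =>
    have h1 := plant_one p (hT (mem_insert_self _ _)) fun A => if T ⊆ A then ψ A else 0
    have h2 := ih ((subset_insert _ _).trans hT) fun A => ψ (insert e A)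
    simp only [subset_insert_iff_of_notMem he] at h1
    rw [h2] at h1
    simp only [insert_subset_iff, ite_and, h1, card_insert_of_notMem he, insert_union]
    ring

theorem mgf (p θ : ℝ) {E F : Finset α} (hF : F ⊆ E) :
    ∑ A ∈ E.powerset, wt p E A * θ ^ (A ∩ F).card = (1 - p + p * θ) ^ F.card := by
  have h := prod_add (fun e => p * if e ∈ F then θ else 1) (fun _ => 1 - p) E
  have h1 : ∏ e ∈ E, (p * (if e ∈ F then θ else 1) + (1 - p)) = (1 - p + p * θ) ^ F.card := by
    rw [← prod_subset hF fun x _ hx => by simp [hx], ← prod_const]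
    exact prod_congr rfl fun x hx => by simp [hx, add_comm]
  rw [← h1, h]
  refine sum_congr rfl fun A hA => ?_
  rw [prod_mul_distrib, prod_const, prod_const, card_sdiff_of_subset (mem_powerset.1 hA),
    prod_ite, prod_const, prod_const_one, filter_mem_eq_inter, wt]
  ring

end

variable {N : ℕ} {p : ℝ}

theorem sum_graphs (p : ℝ) (φ : SimpleGraph (Fin N) → ℝ) :
    ∑ G, gnp p G * φ G = ∑ A ∈ (⊤ : SimpleGraph (Fin N)).edgeFinset.powerset,
      wt p (⊤ : SimpleGraph (Fin N)).edgeFinset A * φ (fromEdgeSet ↑A) := by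
  classical
  refine sum_bij' (fun G _ => G.edgeSet.toFinset) (fun A _ => fromEdgeSet ↑A) ?_ ?_ ?_ ?_ ?_
  · intro G _
    refine mem_powerset.2 fun e he => ?_
    rw [mem_edgeFinset]
    exact edgeSet_mono le_top (Set.mem_toFinset.1 he)
  · simp
  · simp
  · intro A hA
    ext e
    simp only [edgeSet_fromEdgeSet, Set.mem_toFinset, Set.mem_sdiff, mem_coe, and_iff_left_iff_imp]
    intro he
    exact not_isDiag_of_mem_edgeSet _ (mem_edgeFinset.1 (mem_powerset.1 hA he))
  · intro G _
    rw [gnp, wt, card_edgeFinset_top_eq_card_choose_two, Fintype.card_fin,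
      ← Set.ncard_eq_toFinset_card']
    simp

theorem gnp_nonneg (h0 : 0 ≤ p) (h1 : p ≤ 1) (G : SimpleGraph (Fin N)) : 0 ≤ gnp p G :=
  mul_nonneg (pow_nonneg h0 _) (pow_nonneg (by linarith) _)

theorem sum_gnp (p : ℝ) : ∑ G : SimpleGraph (Fin N), gnp p G = 1 := by
  have h1 := sum_graphs (N := N) p fun _ => 1
  have h2 := mgf p 1 (empty_subset (⊤ : SimpleGraph (Fin N)).edgeFinset)
  simp only [mul_one, one_pow, card_empty, pow_zero] at h1 h2
  rw [h1, h2]

open Classical in
theorem plant_graph (p : ℝ) (T : SimpleGraph (Fin N)) (φ : SimpleGraph (Fin N) → ℝ) :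
    ∑ G, gnp p G * (if T ≤ G then φ G else 0) =
      p ^ T.edgeSet.ncard * ∑ H, gnp p H * φ (T ⊔ H) := by
  rw [sum_graphs, sum_graphs, Set.ncard_eq_toFinset_card']
  have := plant p (E := (⊤ : SimpleGraph (Fin N)).edgeFinset) (T := T.edgeSet.toFinset)
    (fun e he => mem_edgeFinset.2 (edgeSet_mono le_top (Set.mem_toFinset.1 he)))
    fun A => φ (fromEdgeSet ↑A)
  simp only [coe_union, fromEdgeSet_union, Set.coe_toFinset, fromEdgeSet_edgeSet] at this
  rw [← this]
  refine sum_congr rfl fun A _ => ?_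
  congr 2
  rw [Set.toFinset_subset, ← edgeSet_subset_edgeSet, edgeSet_fromEdgeSet, Set.subset_sdiff,
    eq_iff_iff, and_iff_left]
  exact Set.disjoint_left.2 fun e he => not_isDiag_of_mem_edgeSet _ he

open Classical in
theorem cut_tail (h0 : 0 ≤ p) (h1 : p ≤ 1) {τ t : ℝ} (hτ : 0 ≤ τ) (S : Finset (Fin N)) :
    ∑ G, gnp p G * (if ((cut G S).card : ℝ) < t then 1 else 0) ≤
      Real.exp (τ * t - p * (1 - Real.exp (-τ)) * (S.card * (N - S.card : ℕ))) := by
  let F : Finset (Sym2 (Fin N)) := (S ×ˢ Sᶜ).image fun x => s(x.1, x.2)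
  have hF : F ⊆ (⊤ : SimpleGraph (Fin N)).edgeFinset := by
    intro e he
    obtain ⟨x, hx, rfl⟩ := mem_image.1 he
    obtain ⟨a, b⟩ := mem_product.1 hx
    simpa using fun h : x.1 = x.2 => mem_compl.1 b (h ▸ a)
  have hc : F.card = S.card * (N - S.card) := by
    rw [card_image_of_injOn, card_product, card_compl, Fintype.card_fin]
    intro x hx y hy h
    rcases Sym2.eq_iff.1 h with h | h
    · exact Prod.ext h.1 h.2
    · exact absurd (h.1 ▸ (mem_product.1 hx).1) (mem_compl.1 (mem_product.1 hy).2)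
  have e1 := mgf p (Real.exp (-τ)) hF
  rw [sum_graphs]
  calc _ ≤ ∑ A ∈ (⊤ : SimpleGraph (Fin N)).edgeFinset.powerset, Real.exp (τ * t) *
        (wt p (⊤ : SimpleGraph (Fin N)).edgeFinset A * Real.exp (-τ) ^ (A ∩ F).card) := by
        refine sum_le_sum fun A _ => ?_
        rw [mul_left_comm]
        refine mul_le_mul_of_nonneg_left ?_
          (mul_nonneg (pow_nonneg h0 _) (pow_nonneg (by linarith) _))
        split_ifs with h
        · have : (A ∩ F).card ≤ (cut (fromEdgeSet ↑A) S).card := by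
            refine le_trans (card_le_card fun e he => ?_)
              (card_image_le (f := fun x : Fin N × Fin N => s(x.1, x.2)))
            obtain ⟨x, hx, rfl⟩ := mem_image.1 (mem_inter.1 he).2
            obtain ⟨a, b⟩ := mem_product.1 hx
            exact mem_image.2 ⟨x, mem_cut.2 ⟨a, mem_compl.1 b, (fromEdgeSet_adj _).2
              ⟨(mem_inter.1 he).1, fun h => mem_compl.1 b (h ▸ a)⟩⟩, rfl⟩
          have : ((A ∩ F).card : ℝ) ≤ t := (Nat.cast_le.2 this).trans h.le
          rw [← Real.exp_nat_mul, ← Real.exp_add]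
          exact Real.one_le_exp (by nlinarith)
        · positivity
    _ = Real.exp (τ * t) * (1 - p + p * Real.exp (-τ)) ^ F.card := by rw [← mul_sum, e1]
    _ ≤ Real.exp (τ * t) * Real.exp (-(p * (1 - Real.exp (-τ)))) ^ F.card := by
        gcongr
        have := Real.add_one_le_exp (-(p * (1 - Real.exp (-τ)))); linarith
    _ = _ := by
        rw [← Real.exp_nat_mul, ← Real.exp_add, hc]
        congr 1
        push_cast
        ring

open Classical in
theorem exp_prob {ε : ℝ} (hε : 0 < ε) (hε1 : ε ≤ 1) (hN : 103 ≤ ε * Real.log N)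
    (hp : (1 + ε) * Real.log N / N ≤ p) (h1 : p ≤ 1) :
    1 / 2 ≤ ∑ G : SimpleGraph (Fin N), gnp p G *
      (if Exp (ε / (8 * Real.log (8 / ε)) * Real.log N) G then 1 else 0) := by
  set l := Real.log N with hl
  have hl0 : 0 < l := by nlinarith
  have hN0 : 0 < N := by
    rcases Nat.eq_zero_or_pos N with h | h
    · simp [hl, h] at hl0
    · exact h
  have hN' : (0 : ℝ) < N := by exact_mod_cast hN0
  have hpN : (1 + ε) * l ≤ p * N := by rwa [div_le_iff₀ hN'] at hp
  have h0 : 0 ≤ p := le_trans (by positivity) hp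
  set τ := Real.log (8 / ε) with hτ
  have hτ0 : 0 < τ := Real.log_pos (by rw [lt_div_iff₀ hε]; linarith)
  have hθ : Real.exp (-τ) = ε / 8 := by
    rw [Real.exp_neg, Real.exp_log (by positivity), inv_div]
  set lam := ε / (8 * τ) * l with hlam
  have c1 : ∀ S : Finset (Fin N), ∑ G, gnp p G * (if 2 * S.card ≤ Fintype.card (Fin N) ∧
      ((cut G S).card : ℝ) < lam * S.card then 1 else 0) ≤
      (1 / 8 / N) ^ S.card - (if S = ∅ then 1 else 0) + (1 / 2) ^ N / 8 := by
    intro S
    by_cases hS : S = ∅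
    · simp [hS]
      positivity
    have hpos : (0 : ℝ) ≤ (1 / 8 / N) ^ S.card := by positivity
    have hpos' : (0 : ℝ) ≤ (1 / 2) ^ N / 8 := by positivity
    by_cases hS' : 2 * S.card ≤ Fintype.card (Fin N)
    swap
    · simp only [hS', false_and, if_false, mul_zero, sum_const_zero, hS, sub_zero]
      positivity
    simp only [hS', true_and, hS, if_false, sub_zero]
    refine (cut_tail h0 h1 hτ0.le S).trans ?_
    rw [Fintype.card_fin] at hS'
    have e0 : τ * (lam * S.card) = ε / 8 * l * S.card := by rw [hlam]; field_simp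
    rw [hθ, e0, Nat.cast_sub (by omega)]
    set s : ℝ := (S.card : ℝ) with hs
    have hs0 : 0 ≤ s := Nat.cast_nonneg _
    have hs1 : 2 * s ≤ N := by rw [hs]; exact_mod_cast hS'
    by_cases hc : s ≤ ε / 8 * N
    · refine le_add_of_le_of_nonneg ?_ hpos'
      have e1 : (1 + ε) * l * (1 - ε / 8) ≤ p * (N - s) := by
        have : p * N * (1 - ε / 8) ≤ p * (N - s) := by nlinarith
        exact le_trans (mul_le_mul_of_nonneg_right hpN (by linarith)) this
      have e2 : (1 + ε / 2) * l ≤ (1 - ε / 8) * (p * (N - s)) := by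
        refine le_trans ?_ (mul_le_mul_of_nonneg_left e1 (by linarith))
        have : 1 + ε / 2 ≤ (1 - ε / 8) * ((1 + ε) * (1 - ε / 8)) := by nlinarith [sq_nonneg ε]
        nlinarith
      have e3 : Real.exp (-(l + 7)) ≤ 1 / 8 / N := by
        rw [Real.exp_neg, Real.exp_add, hl, Real.exp_log hN', div_div, one_div, mul_comm]
        have := Real.add_one_le_exp 7
        gcongr
        linarith
      refine le_trans ?_ (pow_le_pow_left₀ (Real.exp_pos _).le e3 _)
      rw [← Real.exp_nat_mul, Real.exp_le_exp, ← hs]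
      nlinarith [mul_le_mul_of_nonneg_left e2 hs0]
    · refine le_add_of_nonneg_of_le hpos ?_
      have e1 : l / 2 ≤ p * (N - s) := by nlinarith
      have e2 : 7 / 16 * l ≤ (1 - ε / 8) * (p * (N - s)) := by nlinarith
      have e3 : Real.exp (-4) ^ N ≤ (1 / 2) ^ N / 8 := by
        have a1 : Real.exp (-4) ≤ 1 / 2 * (1 / 8) := by
          have a2 : (2 : ℝ) ^ 4 ≤ Real.exp 1 ^ 4 :=
            pow_le_pow_left₀ (by norm_num) (by have := Real.add_one_le_exp 1; linarith) _
          rw [← Real.exp_nat_mul] at a2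
          rw [Real.exp_neg, inv_le_comm₀ (Real.exp_pos _) (by norm_num)]
          norm_num at a2 ⊢
          exact a2
        refine (pow_le_pow_left₀ (Real.exp_pos _).le a1 _).trans ?_
        rw [mul_pow, div_eq_mul_one_div ((1 / 2) ^ N) (8 : ℝ)]
        exact mul_le_mul_of_nonneg_left
          (pow_le_of_le_one (a := (1 / 8 : ℝ)) (by norm_num) (by norm_num) hN0.ne')
          (by positivity)
      refine le_trans ?_ e3
      rw [← Real.exp_nat_mul, Real.exp_le_exp]
      have e4 : ε / 8 * N * l ≤ s * l := mul_le_mul_of_nonneg_right (by linarith) hl0.le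
      have e5 : ε * (s * l) ≤ 1 * (s * l) := mul_le_mul_of_nonneg_right hε1 (by positivity)
      nlinarith [mul_le_mul_of_nonneg_left e2 hs0, mul_le_mul_of_nonneg_right hN hN'.le]
  have c2 : ∑ S : Finset (Fin N), ((1 / 8 / N : ℝ) ^ S.card - (if S = ∅ then 1 else 0) +
      (1 / 2) ^ N / 8) ≤ 1 / 2 := by
    have e1 := prod_one_add (f := fun _ : Fin N => (1 / 8 / N : ℝ)) univ
    simp only [prod_const, card_univ, Fintype.card_fin, powerset_univ] at e1
    rw [sum_add_distrib, sum_sub_distrib, ← e1, sum_ite_eq', sum_const, card_univ,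
      Fintype.card_finset, Fintype.card_fin, nsmul_eq_mul]
    have e2 : (1 + 1 / 8 / N : ℝ) ^ N ≤ Real.exp (1 / 8) := by
      refine (pow_le_pow_left₀ (by positivity) ((add_comm _ _).trans_le
        (Real.add_one_le_exp _)) _).trans ?_
      rw [← Real.exp_nat_mul]
      exact le_of_eq (by congr 1; field_simp)
    have e3 := Real.exp_bound_div_one_sub_of_interval (x := 1 / 8) (by norm_num) (by norm_num)
    have e4 : ((2 ^ N : ℕ) : ℝ) * ((1 / 2) ^ N / 8) = 1 / 8 := by
      push_cast
      rw [one_div, inv_pow]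
      field_simp
    simp only [mem_univ, if_true]
    rw [e4]
    norm_num at e3
    linarith
  have c3 := (sum_le_sum fun S _ => c1 S).trans c2
  rw [sum_comm] at c3
  have c4 : ∀ G : SimpleGraph (Fin N), gnp p G ≤ gnp p G * (if Exp lam G then 1 else 0) +
      ∑ S : Finset (Fin N), gnp p G * (if 2 * S.card ≤ Fintype.card (Fin N) ∧
        ((cut G S).card : ℝ) < lam * S.card then 1 else 0) := by
    intro G
    have hn : ∀ S ∈ (univ : Finset (Finset (Fin N))), 0 ≤ gnp p G *
        (if 2 * S.card ≤ Fintype.card (Fin N) ∧ ((cut G S).card : ℝ) < lam * S.card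
          then 1 else 0) := fun S _ =>
      mul_nonneg (gnp_nonneg h0 h1 G) (by split_ifs <;> norm_num)
    by_cases h : Exp lam G
    · simpa [h] using sum_nonneg hn
    · obtain ⟨S, hS⟩ := not_forall.1 h
      rw [Classical.not_imp, not_le] at hS
      have := single_le_sum hn (mem_univ S)
      simp only [hS, and_self, if_true, mul_one] at this
      simpa [h] using this
  have c5 := sum_le_sum fun G (_ : G ∈ univ) => c4 G
  rw [sum_gnp, sum_add_distrib] at c5
  linarith

end Pool.Agent.Lib.MP_5f8612_pr
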