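import Pool.Agent.Lib.MP_5f8612_pr.Steps

set_option linter.unusedSectionVars false

namespace Pool.Agent.Lib.MP_5f8612_pr

open Finset

variable {V : Type*} [Fintype V] [DecidableEq V] {R : Finset V} {p : V → V}
  {B : ℝ} {g : (V → V) → ℝ} {Fx : Finset V} {ρ : V} {k n : ℕ}

theorem Lv.mono {a a' x x' : ℕ} (h : Lv Fx ρ n a x p) (ha : a ≤ a') (hx : x ≤ x') :
    Lv Fx ρ n a' x' p := ⟨h.1, h.2.1, by have := h.2.2.1; omega, h.2.2.2.trans ha⟩

theorem Rd.low (h : Rd R Fx ρ k n) (hg : Lip R B g) {C a Δ K K0 s0 I : ℕ} (hC : 0 < C)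
    (hs : 0 < s0) (hsI : s0 ≤ 2 ^ I) (ha : 2 * a ≤ 3 * n) (hK : 2 * k ≤ K)
    (hT : K + 2 * (2 + 2 * Δ + (2 * C + 1) * (I + C)) ≤ K0) :
    mass R g (fun p => Lv Fx ρ n a (Δ * (2 * s0 - 1)) p ∧
        K0 ≤ (buds univ s0 p).card + 2 * 2) + mass R g (Bad R n C Δ K) ≤
      (2 + 4 * B * C * k) ^ (2 * Δ + (2 * C + 1) * (I + C)) *
        (mass R g (Lv Fx ρ n a 0) + mass R g (Bad R n C Δ K)) := by
  set Λ : ℝ := 2 + 4 * B * C * k with hΛ
  have hΛ1 : 1 ≤ Λ := by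
    have := hg.one
    have : 0 ≤ 4 * B * C * k := by positivity
    linarith
  let F : ℕ → ℕ → ℝ := fun y t => mass R g (fun p => Lv Fx ρ n a y p ∧
    K0 ≤ (buds univ s0 p).card + 2 * t) + mass R g (Bad R n C Δ K)
  have hmono : ∀ y y' t, y ≤ y' → F y t ≤ F y' t := fun y y' t hy =>
    add_le_add_left (hg.mono fun p _ hp => ⟨hp.1.mono le_rfl hy, hp.2⟩) _
  have hstep : ∀ y s t, (C * s ≤ y ∨ s = 1) → 1 ≤ s → s ≤ s0 →
      t < 2 + 2 * Δ + (2 * C + 1) * (I + C) → F (y + s) t ≤ Λ * F y (t + 1) :=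
    fun y s t h1 h2 h3 h4 => h.low_step hg h1 h2 h3 ha hK (by omega)
  have hex : C * s0 ≤ 2 ^ (I + C) - 1 := by
    have h1 : C + 1 ≤ 2 ^ C := Nat.lt_two_pow_self
    have h2 : (C + 1) * s0 ≤ 2 ^ C * 2 ^ I := Nat.mul_le_mul h1 hsI
    rw [← pow_add, add_comm C I, add_mul, one_mul] at h2
    omega
  have hex' : ∃ i, C * s0 ≤ 2 ^ i - 1 := ⟨_, hex⟩
  set i := Nat.find hex' with hi
  have hiI : i ≤ I + C := Nat.find_min' hex' hex
  have hJ : (2 * C + 1) * i ≤ (2 * C + 1) * (I + C) := Nat.mul_le_mul_left _ hiI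
  have e1 := iter (zero_le_one.trans hΛ1) hstep (y := 2 ^ i - 1) (s := s0)
    (Or.inl (Nat.find_spec hex')) hs le_rfl (2 * Δ) 2 (by omega)
  have e2 := halve (zero_le_one.trans hΛ1) hC hmono hstep 0 i (2 + 2 * Δ) (by
    intro j _ hj
    have := Nat.find_min hex' (show j < i by omega)
    exact ⟨le_max_left _ _, max_le hs (Nat.div_le_of_le_mul (by omega))⟩) (by omega)
  have e3 := hmono (Δ * (2 * s0 - 1)) (2 ^ i - 1 + 2 * Δ * s0) 2 (by
    have : Δ * (2 * s0 - 1) ≤ Δ * (2 * s0) := Nat.mul_le_mul_left _ (by omega)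
    have : Δ * (2 * s0) = 2 * Δ * s0 := by ring
    omega)
  have e4 : F (2 ^ 0 - 1) (2 + 2 * Δ + (2 * C + 1) * i) ≤
      mass R g (Lv Fx ρ n a 0) + mass R g (Bad R n C Δ K) :=
    add_le_add_left (hg.mono fun p _ hp => hp.1) _
  have e5 : 0 ≤ mass R g (Lv Fx ρ n a 0) + mass R g (Bad R n C Δ K) :=
    add_nonneg (hg.mass_nonneg _) (hg.mass_nonneg _)
  rw [zero_add] at e2
  calc _ ≤ Λ ^ (2 * Δ) * (Λ ^ ((2 * C + 1) * i) * _) := e3.trans (e1.trans
        (mul_le_mul_of_nonneg_left (e2.trans (mul_le_mul_of_nonneg_left e4 (by positivity)))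
          (by positivity)))
    _ = Λ ^ (2 * Δ + (2 * C + 1) * i) * _ := by ring
    _ ≤ _ := mul_le_mul_of_nonneg_right (pow_le_pow_right₀ hΛ1 (by omega)) e5

theorem Rd.low2 (h : Rd R Fx ρ k n) (hg : Lip R B g) {C a x Δ K K0 I : ℕ} (hC : 0 < C)
    (hI : k * n < 2 ^ I) (ha : 2 * a ≤ 3 * n) (hK : 2 * k ≤ K)
    (hT : K + 2 * (2 + 2 * Δ + (2 * C + 1) * (I + C)) ≤ K0) (hx : (2 * K0 + 1) * (2 * x) < n) :
    mass R g (Lv Fx ρ n a x) + mass R g (Bad R n C Δ K) ≤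
      (2 + (I + 1) * ((1 + (B * (Fintype.card V : ℝ) ^ 2) ^ 2) *
        (2 + 4 * B * C * k) ^ (2 * Δ + (2 * C + 1) * (I + C)))) *
        (mass R g (Lv Fx ρ n a 0) + mass R g (Bad R n C Δ K)) := by
  set Λ : ℝ := (2 + 4 * B * C * k) ^ (2 * Δ + (2 * C + 1) * (I + C)) with hΛ
  have hΛ1 : 1 ≤ Λ := by
    have := hg.one
    have : 0 ≤ 4 * B * C * k := by positivity
    exact one_le_pow₀ (by linarith)
  set b := mass R g (Bad R n C Δ K) with hb
  set M := mass R g (Lv Fx ρ n a 0) with hM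
  have b0 : 0 ≤ b := hg.mass_nonneg _
  have M0 : 0 ≤ M := hg.mass_nonneg _
  let P : ℕ → (V → V) → Prop := fun j p => Lv Fx ρ n a x p ∧ (∀ y, (ch p y).card ≤ Δ) ∧
    (buds univ (2 ^ j) p).card ≤ K0 ∧ (j = 0 ∨ K0 ≤ (buds univ (2 ^ (j - 1)) p).card + 2 * 0)
  have c1 := hg.union (X := Lv Fx ρ n a x) (Y := Bad R n C Δ K)
    (Z := fun p => Lv Fx ρ n a x p ∧ ¬ Bad R n C Δ K p) fun p _ hp => by tauto
  have c2 := hg.cover (range (I + 1)) (X := fun p => Lv Fx ρ n a x p ∧ ¬ Bad R n C Δ K p)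
    (Y := P) (by
      intro p _ ⟨h1, h2⟩
      have hI' : (buds univ (2 ^ I) p).card ≤ K0 := by
        have := buds_mul_le (p := p) univ (2 ^ I)
        rw [h.hN] at this
        by_contra h'
        have : 1 * 2 ^ I ≤ (buds univ (2 ^ I) p).card * 2 ^ I :=
          Nat.mul_le_mul_right _ (by omega)
        omega
      have hex : ∃ j, (buds univ (2 ^ j) p).card ≤ K0 := ⟨_, hI'⟩
      refine ⟨Nat.find hex, mem_range.2 (Nat.lt_succ_of_le (Nat.find_min' hex hI')), h1,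
        fun y => ?_, Nat.find_spec hex, ?_⟩
      · by_contra h'
        exact h2 (Or.inl ⟨y, by omega⟩)
      · rcases Nat.eq_zero_or_pos (Nat.find hex) with h0 | h0
        · exact Or.inl h0
        · have := Nat.find_min hex (show Nat.find hex - 1 < Nat.find hex by omega)
          omega)
  have c3 : ∀ j ∈ range (I + 1), mass R g (P j) ≤
      (1 + (B * (Fintype.card V : ℝ) ^ 2) ^ 2) * Λ * (M + b) := by
    intro j hj
    have e1 := h.jump hg (a := a) (Δ := Δ) (s := 2 ^ j) hx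
      (fun t p => j = 0 ∨ K0 ≤ (buds univ (2 ^ (j - 1)) p).card + 2 * t)
      (fun t p w u hF hm hq => by have := buds_le_upd hF hm univ (2 ^ (j - 1)); omega)
      (fun p hq => by omega)
    refine e1.trans ?_
    rw [mul_assoc]
    refine mul_le_mul_of_nonneg_left ?_ (by positivity)
    rcases j with _ | j
    · have : mass R g (fun p => Lv Fx ρ n a (Δ * (2 ^ 0 - 1)) p ∧
          (0 = 0 ∨ K0 ≤ (buds univ (2 ^ (0 - 1)) p).card + 2 * 2)) ≤ M :=
        hg.mono fun p _ hp => by simpa using hp.1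
      nlinarith
    · have e2 := h.low hg (a := a) (s0 := 2 ^ j) hC (by positivity)
        (Nat.pow_le_pow_right (by norm_num) (by have := mem_range.1 hj; omega : j ≤ I)) ha hK hT
      refine le_trans ?_ ((le_add_of_nonneg_right b0).trans e2)
      refine hg.mono fun p _ hp => ⟨?_, by simpa using hp.2⟩
      rw [← pow_succ']
      exact hp.1
  have c4 := c2.trans (sum_le_card_nsmul _ _ _ c3)
  rw [card_range, nsmul_eq_mul] at c4
  push_cast at c4
  nlinarith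

theorem Rd.round (h : Rd R Fx ρ k n) (hg : Lip R B g) {C Δ K K0 i d1 d2 : ℕ}
    (hC : 48 * B * k ≤ C) (hC' : 60 ≤ C) (hCn : C ≤ n) (hI : k * n < 2 ^ (i + d1 + d2))
    (hI' : 2 ^ (i + d1 + d2) ≤ 2 * (k * n)) (hi1 : 2 * 2 ^ (i + d1) ≤ n) (hK : 2 * k ≤ K)
    (hT : K + 2 * (2 + 2 * Δ + (2 * C + 1) * (i + d1 + d2 + C)) ≤ K0)
    (hx : 2 * K0 + 1 ≤ 2 ^ d1) :
    mass R g (Lv Fx ρ n (k * n) (k * n)) + mass R g (Bad R n C Δ K) ≤
      (1 + 2 * B * ((k * n) ^ 2 : ℕ)) ^ ((2 * C + 1) * d2) *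
      (1 + 2 * B * (2 * C * 2 ^ (2 * d2 + d1) : ℕ)) ^ ((2 * C + 1) * d1) *
      (2 + ((i + d1 + d2 : ℕ) + 1) * ((1 + (B * (Fintype.card V : ℝ) ^ 2) ^ 2) *
        (2 + 4 * B * C * k) ^ (2 * Δ + (2 * C + 1) * (i + d1 + d2 + C)))) *
        (mass R g (fun p => ∀ r ∈ insert ρ Fx, sg p r = n) + mass R g (Bad R n C Δ K)) := by
  have hB := hg.one
  have hkC : 2 * k ≤ C := by
    have : (2 * k : ℝ) ≤ C := by
      have : (0 : ℝ) ≤ k := Nat.cast_nonneg _
      nlinarith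
    exact_mod_cast this
  have hhi : ∀ j, j < i + d1 + d2 → max 1 ((2 ^ j - 1) / C) ≤ n / 2 := by
    intro j hj
    refine max_le (by omega) ?_
    have e1 : 2 ^ (j + 1) ≤ 2 ^ (i + d1 + d2) := Nat.pow_le_pow_right (by norm_num) hj
    rw [pow_succ] at e1
    have e2 := Nat.mul_div_le (2 ^ j - 1) C
    have e3 : 2 * k * ((2 ^ j - 1) / C) ≤ C * ((2 ^ j - 1) / C) := Nat.mul_le_mul_right _ hkC
    have e4 : k * (2 * ((2 ^ j - 1) / C)) ≤ k * n := by
      have : k * (2 * ((2 ^ j - 1) / C)) = 2 * k * ((2 ^ j - 1) / C) := by ring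
      omega
    have := Nat.le_of_mul_le_mul_left e4 (by have := h.two; omega)
    omega
  have t1 := halve (F := fun y _ => mass R g (Lv Fx ρ n (k * n) y))
    (Λ := 1 + 2 * B * ((k * n) ^ 2 : ℕ)) (by positivity) (C := C) (lo := 1) (hi := n / 2)
    (T := (2 * C + 1) * d2) (by omega) (fun y y' _ hy => hg.mono fun p _ hp => hp.mono le_rfl hy)
    (fun y s t h1 h2 h3 _ => h.top_step hg hC hC' hCn h1 h2 (by omega) (m := 1) (Or.inl rfl)
      (by rw [mul_one]; exact Nat.le_mul_of_pos_right _ h2)) (i + d1) d2 0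
    (fun j _ hj => ⟨le_max_left _ _, hhi j hj⟩) (by omega)
  have t2 := halve (F := fun y _ => mass R g (Lv Fx ρ n (n + n / 2) y))
    (Λ := 1 + 2 * B * (2 * C * 2 ^ (2 * d2 + d1) : ℕ)) (by positivity) (C := C)
    (lo := max 1 ((2 ^ i - 1) / C)) (hi := n / 2)
    (T := (2 * C + 1) * d1) (by omega) (fun y y' _ hy => hg.mono fun p _ hp => hp.mono le_rfl hy)
    (fun y s t h1 h2 h3 _ => h.top_step hg hC hC' hCn h1 (by omega) (by omega) (m := n / 2)
      (Or.inr (by omega)) (by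
        have b1 := Nat.div_add_mod (2 ^ i - 1) C
        have b2 := Nat.mod_lt (2 ^ i - 1) (show 0 < C by omega)
        have b3 : C * ((2 ^ i - 1) / C) ≤ C * s := Nat.mul_le_mul_left _ (by omega)
        have b4 : C * 1 ≤ C * s := Nat.mul_le_mul_left _ (by omega)
        have b5 : 2 ^ i ≤ 2 * (C * s) := by omega
        calc (k * n) ^ 2 ≤ (2 ^ (i + d1 + d2)) ^ 2 := Nat.pow_le_pow_left hI.le _
          _ = 2 ^ (2 * d2 + d1) * 2 ^ i * 2 ^ (i + d1) := by ring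
          _ ≤ 2 ^ (2 * d2 + d1) * (2 * (C * s)) * (n / 2) := by gcongr; omega
          _ = _ := by ring)) i d1 0
    (fun j hj hj' => ⟨max_le_max le_rfl (Nat.div_le_div_right
      (Nat.sub_le_sub_right (Nat.pow_le_pow_right (by norm_num) hj) 1)), hhi j (by omega)⟩)
    (by omega)
  have t3 := h.low2 hg (C := C) (a := n + n / 2) (x := 2 ^ i - 1) (Δ := Δ) (by omega) hI
    (by omega) hK hT (by
      have e1 : (2 * K0 + 1) * (2 * 2 ^ i) ≤ 2 ^ d1 * (2 * 2 ^ i) := Nat.mul_le_mul_right _ hx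
      have e2 : 2 ^ d1 * (2 * 2 ^ i) = 2 * 2 ^ (i + d1) := by ring
      have e3 : (2 * K0 + 1) * (2 * (2 ^ i - 1)) < (2 * K0 + 1) * (2 * 2 ^ i) :=
        Nat.mul_lt_mul_of_pos_left (by have : 0 < 2 ^ i := by positivity
                                       omega) (by omega)
      omega)
  have t4 : mass R g (Lv Fx ρ n (k * n) (k * n)) ≤
      mass R g (Lv Fx ρ n (k * n) (2 ^ (i + d1 + d2) - 1)) :=
    hg.mono fun p _ hp => hp.mono le_rfl (by omega)
  have t5 : mass R g (Lv Fx ρ n (k * n) (2 ^ (i + d1) - 1)) ≤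
      mass R g (Lv Fx ρ n (n + n / 2) (2 ^ (i + d1) - 1)) :=
    hg.mono fun p _ hp => ⟨hp.1, hp.2.1, hp.2.2.1, by have := hp.2.2.1; omega⟩
  have t6 : mass R g (Lv Fx ρ n (n + n / 2) 0) ≤ mass R g (fun p => ∀ r ∈ insert ρ Fx, sg p r = n) :=
    hg.mono fun p _ hp r hr => by
      rcases mem_insert.1 hr with rfl | hr
      · exact le_antisymm hp.2.2.1 hp.2.1
      · exact hp.1 r hr
  have b0 := hg.mass_nonneg (Bad R n C Δ K)
  set b := mass R g (Bad R n C Δ K)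
  set A1 : ℝ := (1 + 2 * B * ((k * n) ^ 2 : ℕ)) ^ ((2 * C + 1) * d2)
  set A2 : ℝ := (1 + 2 * B * (2 * C * 2 ^ (2 * d2 + d1) : ℕ)) ^ ((2 * C + 1) * d1)
  have a1 : 1 ≤ A1 := one_le_pow₀ (le_add_of_nonneg_right (by positivity))
  have a2 : 1 ≤ A2 := one_le_pow₀ (le_add_of_nonneg_right (by positivity))
  have a12 : 1 ≤ A1 * A2 := one_le_mul_of_one_le_of_one_le a1 a2
  calc _ ≤ A1 * (A2 * mass R g (Lv Fx ρ n (n + n / 2) (2 ^ i - 1))) + A1 * A2 * b :=
        add_le_add (t4.trans (t1.trans (mul_le_mul_of_nonneg_left (t5.trans t2) (by linarith))))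
          (le_mul_of_one_le_left b0 a12)
    _ = A1 * A2 * (mass R g (Lv Fx ρ n (n + n / 2) (2 ^ i - 1)) + b) := by ring
    _ ≤ _ := by
        rw [mul_assoc (A1 * A2)]
        refine mul_le_mul_of_nonneg_left (t3.trans ?_) (by linarith)
        exact mul_le_mul_of_nonneg_left (by linarith) (by positivity)

theorem rounds (hg : Lip R B g) (hk : R.card = k) (hN : Fintype.card V = k * n) {Φ b : ℝ}
    (hb : 0 ≤ b) (hΦ : 1 ≤ Φ)
    (h : ∀ Fx ρ, Rd R Fx ρ k n → mass R g (Lv Fx ρ n (k * n) (k * n)) + b ≤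
      Φ * (mass R g (fun p => ∀ r ∈ insert ρ Fx, sg p r = n) + b)) (d : ℕ) (Fx : Finset V)
    (h1 : Fx ⊆ R) (h2 : Fx.card + (d + 1) = k) :
    mass R g (fun p => ∀ r ∈ Fx, sg p r = n) + b ≤
      (k * Φ) ^ d * (mass R g (fun p => ∀ r ∈ R, sg p r = n) + b) := by
  have hsum : ∀ {Fx : Finset V} (p : V → V), Fx ⊆ R → IsF R p → (∀ r ∈ Fx, sg p r = n) →
      ∑ r ∈ R \ Fx, sg p r = ∑ _r ∈ R \ Fx, n := by
    intro Fx p h1 hF hp
    have e1 := sum_sdiff h1 (f := sg p)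
    have e2 := sum_sdiff h1 (f := fun _ => n)
    rw [hF.sum_roots, sum_congr rfl hp] at e1
    rw [sum_const n (s := R), smul_eq_mul, hk] at e2
    omega
  induction d generalizing Fx with
  | zero =>
    rw [pow_zero, one_mul]
    refine add_le_add_left (hg.mono fun p hF hp r hr => ?_) _
    by_cases hr' : r ∈ Fx
    · exact hp r hr'
    · have e1 := hsum p h1 hF hp
      obtain ⟨a, ha⟩ := card_eq_one.1
        (show (R \ Fx).card = 1 by rw [card_sdiff_of_subset h1]; omega)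
      have : r ∈ R \ Fx := mem_sdiff.2 ⟨hr, hr'⟩
      rw [ha, mem_singleton] at this
      simpa [ha, ← this] using e1
  | succ d ih =>
    have hc : (R \ Fx).card = d + 2 := by rw [card_sdiff_of_subset h1]; omega
    have c1 := hg.cover (R \ Fx) (X := fun p => ∀ r ∈ Fx, sg p r = n)
      (Y := fun ρ => Lv Fx ρ n (k * n) (k * n)) (by
        intro p hF hp
        obtain ⟨ρ, hρ, h'⟩ := exists_le_of_sum_le (card_pos.1 (by omega)) (hsum p h1 hF hp).ge
        have := sg_le (p := p) ρ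
        exact ⟨ρ, hρ, hp, h', by omega, by omega⟩)
    set M := mass R g (fun p => ∀ r ∈ R, sg p r = n) + b with hM
    have M0 : 0 ≤ M := add_nonneg (hg.mass_nonneg _) hb
    have c2 : ∀ ρ ∈ R \ Fx, mass R g (Lv Fx ρ n (k * n) (k * n)) + b ≤ Φ * ((k * Φ) ^ d * M) := by
      intro ρ hρ
      obtain ⟨e1, e2⟩ := mem_sdiff.1 hρ
      refine (h Fx ρ ⟨hk, hN, h1, e1, e2, by omega⟩).trans
        (mul_le_mul_of_nonneg_left (ih _ (insert_subset e1 h1) ?_) (by linarith))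
      rw [card_insert_of_notMem e2]; omega
    have c3 := sum_le_card_nsmul _ _ _ c2
    rw [sum_add_distrib, sum_const, hc, nsmul_eq_mul, nsmul_eq_mul] at c3
    have c4 : ((d + 2 : ℕ) : ℝ) ≤ k := by exact_mod_cast (by omega : d + 2 ≤ k)
    have c5 : 0 ≤ Φ * ((k * Φ) ^ d * M) := by
      have : 0 ≤ Φ := by linarith
      positivity
    have c6 := mul_le_mul_of_nonneg_right c4 c5
    have c7 : b ≤ ((d + 2 : ℕ) : ℝ) * b :=
      le_mul_of_one_le_left hb (by exact_mod_cast (by omega : 1 ≤ d + 2))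
    calc _ ≤ k * (Φ * ((k * Φ) ^ d * M)) := by linarith
      _ = _ := by ring

theorem Lip.bad (hg : Lip R B g) (hk : R.card = k) (hN : Fintype.card V = k * n) {C m Δ K : ℕ}
    (hC : 48 * B * k ≤ C) (hC' : 60 ≤ C) (hm : 0 < m) (hΔ : 2 * m ≤ Δ) (hK : 6 * k ≤ K) :
    mass R g (Bad R n C Δ K) ≤ ((k * n : ℕ) * (B / m) ^ m +
      ((k * n + 1) * k * (k * n + 1) : ℕ) * (1 / 2) ^ (K / C)) * mass R g fun _ => True := by
  classical
  have c1 := hg.union (X := Bad R n C Δ K) fun p _ hp => hp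
  have c2 := hg.cover univ (X := fun p => ∃ y, Δ < (ch p y).card)
    (Y := fun y p => m + m ≤ (ch p y).card) fun p _ ⟨y, hy⟩ => ⟨y, mem_univ _, by omega⟩
  have c3 := c2.trans (sum_le_card_nsmul _ _ _ fun y _ => hg.deg y hm m)
  have c4 := hg.cover (range (k * n + 1) ×ˢ R ×ˢ range (k * n + 1))
    (X := fun p => ∃ s ρ, 0 < s ∧ 2 * s ≤ n ∧ ρ ∈ R ∧ n ≤ sg p ρ ∧
      K ≤ (buds univ s p).card ∧ C * (sb R C s p ρ).card ≤ (buds univ s p).card)
    (Y := fun x p => (0 < x.1 ∧ 2 * x.1 ≤ n ∧ K ≤ x.2.2) ∧ n ≤ sg p x.2.1 ∧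
      (buds univ x.1 p).card = x.2.2 ∧ C * (sb R C x.1 p x.2.1).card ≤ x.2.2) (by
      intro p _ ⟨s, ρ, h1, h2, h3, h4, h5, h6⟩
      refine ⟨(s, ρ, (buds univ s p).card), ?_, ⟨h1, h2, h5⟩, h4, rfl, h6⟩
      have := sg_le (p := p) ρ
      have := card_le_univ (buds univ s p)
      simp only [mem_product, mem_range, h3, true_and]
      omega)
  have M0 := hg.mass_nonneg fun _ => True
  have c5 := c4.trans (sum_le_card_nsmul _ _ ((1 / 2) ^ (K / C) * mass R g fun _ => True) (by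
    rintro ⟨s, ρ, κ⟩ hx
    have hρ : ρ ∈ R := (mem_product.1 (mem_product.1 hx).2).1
    by_cases hh : 0 < s ∧ 2 * s ≤ n ∧ K ≤ κ
    · refine (hg.mono fun p _ hp => hp.2).trans
        ((hg.asym hk hN hC hC' hρ hh.1 hh.2.1 (hK.trans hh.2.2)).trans ?_)
      exact mul_le_mul_of_nonneg_right
        (pow_le_pow_of_le_one (by norm_num) (by norm_num) (Nat.div_le_div_right hh.2.2)) M0
    · refine le_trans (le_of_eq ?_) (mul_nonneg (by positivity) M0)
      simp only [mass, hh, false_and, and_false, filter_false, sum_empty]))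
  rw [card_univ, hN, nsmul_eq_mul] at c3
  rw [card_product, card_product, card_range, hk, nsmul_eq_mul, ← mul_assoc (k * n + 1)] at c5
  linarith

end Pool.Agent.Lib.MP_5f8612_pr
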