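import Pool.Agent.Lib.MP_5f8612_pr.Bad

set_option linter.unusedSectionVars false

namespace Pool.Agent.Lib.MP_5f8612_pr

open Finset

variable {V : Type*} [Fintype V] [DecidableEq V] {R : Finset V} {p : V → V}
  {B : ℝ} {g : (V → V) → ℝ}

/-- the components in `Fx` are exact, that of `ρ` has excess at most `x` and size at most `a` -/
def Lv (Fx : Finset V) (ρ : V) (n a x : ℕ) (p : V → V) : Prop :=
  (∀ r ∈ Fx, sg p r = n) ∧ n ≤ sg p ρ ∧ sg p ρ ≤ n + x ∧ sg p ρ ≤ a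

open Classical in
/-- vertices in the other components -/
noncomputable def Ot (Fx : Finset V) (ρ : V) (p : V → V) : Finset V :=
  univ.filter fun u => ¬ Anc p u ρ ∧ ∀ r ∈ Fx, ¬ Anc p u r

theorem mem_Ot {Fx : Finset V} {ρ u : V} :
    u ∈ Ot Fx ρ p ↔ ¬ Anc p u ρ ∧ ∀ r ∈ Fx, ¬ Anc p u r := by simp [Ot]

theorem card_Ot (Fx : Finset V) (ρ : V) :
    Fintype.card V ≤ (Ot Fx ρ p).card + sg p ρ + ∑ r ∈ Fx, sg p r := by
  have : (univ : Finset V) ⊆ Ot Fx ρ p ∪ D p ρ ∪ Fx.biUnion (D p) := by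
    intro u _
    simp only [mem_union, mem_Ot, mem_D, mem_biUnion]
    by_contra h
    push Not at h
    obtain ⟨r, hr, h'⟩ := h.1.1 h.1.2
    exact h.2 r hr h'
  have h1 := card_le_card this
  have h2 := card_union_le (Ot Fx ρ p ∪ D p ρ) (Fx.biUnion (D p))
  have h3 := card_union_le (Ot Fx ρ p) (D p ρ)
  have h4 : (Fx.biUnion (D p)).card ≤ ∑ r ∈ Fx, sg p r := card_biUnion_le
  rw [card_univ] at h1
  simp only [sg] at *
  omega

/-- the data of a round -/
structure Rd (R Fx : Finset V) (ρ : V) (k n : ℕ) : Prop where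
  hk : R.card = k
  hN : Fintype.card V = k * n
  sub : Fx ⊆ R
  mem : ρ ∈ R
  nmem : ρ ∉ Fx
  two : Fx.card + 2 ≤ k

variable {Fx : Finset V} {ρ : V} {k n : ℕ}

theorem Rd.card_ot (h : Rd R Fx ρ k n) {a x : ℕ} (hp : Lv Fx ρ n a x p) :
    2 * n ≤ (Ot Fx ρ p).card + sg p ρ := by
  have h1 := card_Ot (p := p) Fx ρ
  rw [sum_congr rfl hp.1, sum_const, smul_eq_mul, h.hN] at h1
  have : (Fx.card + 2) * n ≤ k * n := Nat.mul_le_mul_right _ h.two
  rw [add_mul] at this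
  omega

theorem Rd.ot_ne (h : Rd R Fx ρ k n) (hF : IsF R p) : (Ot Fx ρ p).Nonempty := by
  obtain ⟨r, hr, hr'⟩ := exists_mem_notMem_of_card_lt_card (s := insert ρ Fx) (t := R)
    (by have := card_insert_le ρ Fx; have := h.hk; have := h.two; omega)
  rw [mem_insert, not_or] at hr'
  exact ⟨r, mem_Ot.2 ⟨fun h' => hr'.1 (h'.root hF hr).symm,
    fun r' h1 h' => hr'.2 ((h'.root hF hr) ▸ h1)⟩⟩

theorem Rd.out (h : Rd R Fx ρ k n) (hF : IsF R p) {w u : V} (hw : w ∉ R) (hwρ : Anc p w ρ)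
    (hu : u ∈ Ot Fx ρ p) : Mv R p w u ∧ sg (Function.update p w u) ρ + sg p w = sg p ρ ∧
      ∀ r ∈ Fx, sg (Function.update p w u) r = sg p r := by
  obtain ⟨h1, h2⟩ := mem_Ot.1 hu
  have hm : Mv R p w u := ⟨hw, fun h' => h1 (h'.trans hwρ)⟩
  refine ⟨hm, ?_, fun r hr => ?_⟩
  · simpa [hwρ, h1] using sg_upd_out hF hm (hF.root_not hw h.mem)
  · have : ¬ Anc p w r := fun h' => h.nmem (hF.root_unique (h.sub hr) h.mem h' hwρ ▸ hr)
    simpa [this, h2 r hr] using sg_upd_out hF hm (hF.root_not hw (h.sub hr))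

theorem Rd.inn (h : Rd R Fx ρ k n) (hF : IsF R p) {w u : V} (hm : Mv R p w u) (hw : Anc p w ρ)
    (hu : Anc p u ρ) : sg (Function.update p w u) ρ = sg p ρ ∧
      ∀ r ∈ Fx, sg (Function.update p w u) r = sg p r := by
  refine ⟨?_, fun r hr => ?_⟩
  · simpa [hw, hu] using sg_upd_out hF hm (hF.root_not hm.1 h.mem)
  · have : ∀ z, Anc p z ρ → ¬ Anc p z r := fun z hz h' =>
      h.nmem (hF.root_unique (h.sub hr) h.mem h' hz ▸ hr)
    simpa [this w hw, this u hu] using sg_upd_out hF hm (hF.root_not hm.1 (h.sub hr))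

theorem Bud.one {w : V} (h : Bud 1 p w) : sg p w ≤ 1 := by
  refine card_le_one.2 fun a ha b hb => ?_
  have : ∀ a ∈ D p w, a = w := fun a ha => by
    by_contra hne
    have := h.desc (mem_D.1 ha) hne
    have := sg_pos (p := p) a
    omega
  rw [this a ha, this b hb]

theorem Rd.out_step (h : Rd R Fx ρ k n) (hg : Lip R B g) {C s y a γ : ℕ}
    (hsy : C * s ≤ y ∨ s = 1) {P Q : (V → V) → Prop}
    (hP : ∀ p, IsF R p → P p → Lv Fx ρ n a (y + s) p ∧ n + y < sg p ρ ∧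
      (sb R C s p ρ).Nonempty ∧ ∀ w u, Mv R p w u → Q (Function.update p w u) ∧
        (buds univ s (Function.update p w u)).card * Fintype.card V ≤
          γ * ((sb R C s p ρ).card * (Ot Fx ρ p).card)) :
    mass R g P ≤ B * γ * mass R g fun p => Lv Fx ρ n a y p ∧ Q p := by
  refine hg.switch (fun p => sb R C s p ρ ×ˢ Ot Fx ρ p) (fun q => buds univ s q ×ˢ univ)
    (by positivity) fun p hF hp => ?_
  obtain ⟨h1, h2, h3, h4⟩ := hP p hF hp
  refine ⟨h3.product (h.ot_ne hF), fun x hx => ?_⟩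
  obtain ⟨e1, e2⟩ := mem_product.1 hx
  obtain ⟨a1, a2, a3, a4⟩ := mem_sb.1 e1
  obtain ⟨hm, b1, b2⟩ := h.out hF a3 a1 e2
  obtain ⟨c1, c2⟩ := h4 _ _ hm
  refine ⟨hm, ⟨⟨fun r hr => (b2 r hr).trans (h1.1 r hr), ?_, ?_, ?_⟩, c1⟩, ?_, ?_⟩
  · rcases hsy with hsy | rfl
    · omega
    · have := a2.one; omega
  · have := a2.1; have := h1.2.2.1; omega
  · have := h1.2.2.2; omega
  · simp [bud_upd_self hF hm a2]
  · rw [card_product, card_product, card_univ]
    exact_mod_cast c2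

theorem Rd.top_step (h : Rd R Fx ρ k n) (hg : Lip R B g) {C s y a γ m : ℕ}
    (hC : 48 * B * k ≤ C) (hC' : 60 ≤ C) (hCn : C ≤ n) (hsy : C * s ≤ y ∨ s = 1) (hs : 0 < s)
    (hn : 2 * s ≤ n) (hm : m = 1 ∨ m + a ≤ 2 * n) (hγ : (k * n) ^ 2 ≤ γ * s * m) :
    mass R g (Lv Fx ρ n a (y + s)) ≤ (1 + 2 * B * γ) * mass R g (Lv Fx ρ n a y) := by
  have c1 := hg.cond (C := C) h.hN hC hC' h.mem hs hn
    (X := fun p => Lv Fx ρ n a (y + s) p ∧ n + y < sg p ρ) (by
      intro p w u hF hp hm hw hu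
      obtain ⟨e1, e2⟩ := h.inn hF hm hw hu
      refine ⟨⟨fun r hr => (e2 r hr).trans (hp.1.1 r hr), ?_⟩, ?_⟩ <;> rw [e1]
      exacts [hp.1.2, hp.2]) (by
      intro p hp
      refine ⟨hp.1.2.1, ?_⟩
      have := hp.2
      rcases hsy with hsy | rfl <;> omega)
  have c2 := h.out_step hg (a := a) (γ := γ) hsy (Q := fun _ => True)
    (P := fun p => (Lv Fx ρ n a (y + s) p ∧ n + y < sg p ρ) ∧ (sb R C s p ρ).Nonempty) (by
      intro p hF hp
      refine ⟨hp.1.1, hp.1.2, hp.2, fun w u _ => ⟨trivial, ?_⟩⟩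
      have e1 := buds_mul_le (p := Function.update p w u) univ s
      have e2 : m ≤ (Ot Fx ρ p).card := by
        rcases hm with rfl | hm
        · exact card_pos.2 (h.ot_ne hF)
        · have := h.card_ot hp.1.1; have := hp.1.1.2.2.2; omega
      have e3 : m ≤ (sb R C s p ρ).card * (Ot Fx ρ p).card :=
        e2.trans (Nat.le_mul_of_pos_left _ (card_pos.2 hp.2))
      rw [h.hN] at e1 ⊢
      refine le_trans ?_ (Nat.mul_le_mul_left γ e3)
      refine Nat.le_of_mul_le_mul_right ?_ hs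
      calc _ = (buds univ s (Function.update p w u)).card * s * (k * n) := by ring
        _ ≤ k * n * (k * n) := by gcongr
        _ ≤ γ * s * m := by rw [← sq]; exact hγ
        _ = _ := by ring)
  have c3 := hg.union (X := Lv Fx ρ n a (y + s)) (Y := Lv Fx ρ n a y)
    (Z := fun p => Lv Fx ρ n a (y + s) p ∧ n + y < sg p ρ) fun p _ hp => by
      by_cases h' : n + y < sg p ρ
      · exact Or.inr ⟨hp, h'⟩
      · exact Or.inl ⟨hp.1, hp.2.1, by omega, hp.2.2.2⟩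
  simp only [and_true] at c2
  have c4 : mass R g (fun p => Lv Fx ρ n a y p) = mass R g (Lv Fx ρ n a y) := rfl
  rw [c4] at c2
  linarith

/-- atypical forests -/
def Bad (R : Finset V) (n C Δ K : ℕ) (p : V → V) : Prop :=
  (∃ y, Δ < (ch p y).card) ∨ ∃ s ρ, 0 < s ∧ 2 * s ≤ n ∧ ρ ∈ R ∧ n ≤ sg p ρ ∧
    K ≤ (buds univ s p).card ∧ C * (sb R C s p ρ).card ≤ (buds univ s p).card

theorem Rd.low_step (h : Rd R Fx ρ k n) (hg : Lip R B g) {C s y a Δ K K0 s0 t : ℕ}
    (hsy : C * s ≤ y ∨ s = 1) (hs : 0 < s) (hs0 : s ≤ s0) (ha : 2 * a ≤ 3 * n)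
    (hK : 2 * k ≤ K) (ht : K + 2 * t ≤ K0) :
    mass R g (fun p => Lv Fx ρ n a (y + s) p ∧ K0 ≤ (buds univ s0 p).card + 2 * t) +
        mass R g (Bad R n C Δ K) ≤
      (2 + 4 * B * C * k) * (mass R g (fun p => Lv Fx ρ n a y p ∧
        K0 ≤ (buds univ s0 p).card + 2 * (t + 1)) + mass R g (Bad R n C Δ K)) := by
  have hk := h.two
  have c2 := h.out_step hg (a := a) (γ := 4 * C * k) hsy
    (Q := fun p => K0 ≤ (buds univ s0 p).card + 2 * (t + 1))
    (P := fun p => (Lv Fx ρ n a (y + s) p ∧ K0 ≤ (buds univ s0 p).card + 2 * t) ∧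
      n + y < sg p ρ ∧ ¬ Bad R n C Δ K p) (by
      intro p hF ⟨⟨h1, h2⟩, h3, h4⟩
      have e1 := hF.buds_anti (U := univ) (fun _ _ _ _ => mem_univ _) hs0
      have e2 := buds_mul_le (p := p) univ s
      have e3 : 2 * s ≤ n := by
        rw [h.hN] at e2
        have : k * (2 * s) ≤ k * n := by
          calc k * (2 * s) = 2 * k * s := by ring
            _ ≤ (buds univ s p).card * s := by gcongr; omega
            _ ≤ _ := e2
        exact Nat.le_of_mul_le_mul_left this (by omega)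
      have e4 : (buds univ s p).card < C * (sb R C s p ρ).card := by
        by_contra h'
        exact h4 (Or.inr ⟨s, ρ, hs, e3, h.mem, h1.2.1, by omega, by omega⟩)
      refine ⟨h1, h3, card_pos.1 (Nat.pos_of_mul_pos_left (by omega : 0 < C * _)),
        fun w u hm => ⟨?_, ?_⟩⟩
      · have := buds_le_upd hF hm univ s0; omega
      · have e5 := buds_upd_le hF hm univ s
        have e6 := h.card_ot h1
        have e7 := h1.2.2.2
        rw [h.hN]
        calc _ ≤ (2 * (C * (sb R C s p ρ).card)) * (k * (2 * (Ot Fx ρ p).card)) := by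
              gcongr <;> omega
          _ = _ := by ring)
  have c3 := hg.union
    (X := fun p => Lv Fx ρ n a (y + s) p ∧ K0 ≤ (buds univ s0 p).card + 2 * t)
    (Y := fun p => Lv Fx ρ n a y p ∧ K0 ≤ (buds univ s0 p).card + 2 * (t + 1))
    (Z := fun p => (Lv Fx ρ n a (y + s) p ∧ K0 ≤ (buds univ s0 p).card + 2 * t) ∧
      n + y < sg p ρ) fun p _ hp => by
      by_cases h' : n + y < sg p ρ
      · exact Or.inr ⟨hp, h'⟩
      · exact Or.inl ⟨⟨hp.1.1, hp.1.2.1, by omega, hp.1.2.2.2⟩, by omega⟩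
  have c4 := hg.union
    (X := fun p => (Lv Fx ρ n a (y + s) p ∧ K0 ≤ (buds univ s0 p).card + 2 * t) ∧
      n + y < sg p ρ) (Y := Bad R n C Δ K)
    (Z := fun p => (Lv Fx ρ n a (y + s) p ∧ K0 ≤ (buds univ s0 p).card + 2 * t) ∧
      n + y < sg p ρ ∧ ¬ Bad R n C Δ K p) fun p _ hp => by tauto
  have c5 := hg.mass_nonneg (Bad R n C Δ K)
  have c6 := hg.mass_nonneg
    fun p => Lv Fx ρ n a y p ∧ K0 ≤ (buds univ s0 p).card + 2 * (t + 1)
  have c7 : 0 ≤ 4 * B * C * k * mass R g (Bad R n C Δ K) := by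
    have := hg.one
    positivity
  push_cast at c2
  nlinarith

theorem iter {F : ℕ → ℕ → ℝ} {Λ : ℝ} (hΛ : 0 ≤ Λ) {C lo hi T s y : ℕ}
    (hstep : ∀ y s t, (C * s ≤ y ∨ s = 1) → lo ≤ s → s ≤ hi → t < T →
      F (y + s) t ≤ Λ * F y (t + 1))
    (h1 : C * s ≤ y ∨ s = 1) (h2 : lo ≤ s) (h3 : s ≤ hi) (j t : ℕ) (ht : t + j ≤ T) :
    F (y + j * s) t ≤ Λ ^ j * F y (t + j) := by
  induction j generalizing t with
  | zero => simp
  | succ j ih =>
    have e1 := hstep (y + j * s) s t (by omega) h2 h3 (by omega)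
    have e2 := ih (t + 1) (by omega)
    calc F (y + (j + 1) * s) t = F (y + j * s + s) t := by congr 1; ring
      _ ≤ Λ * (Λ ^ j * F y (t + 1 + j)) := e1.trans (mul_le_mul_of_nonneg_left e2 hΛ)
      _ = _ := by rw [show t + 1 + j = t + (j + 1) by ring]; ring

theorem halve {F : ℕ → ℕ → ℝ} {Λ : ℝ} (hΛ : 0 ≤ Λ) {C lo hi T : ℕ} (hC : 0 < C)
    (hmono : ∀ y y' t, y ≤ y' → F y t ≤ F y' t)
    (hstep : ∀ y s t, (C * s ≤ y ∨ s = 1) → lo ≤ s → s ≤ hi → t < T →
      F (y + s) t ≤ Λ * F y (t + 1)) (i d t : ℕ)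
    (hs : ∀ j, i ≤ j → j < i + d → lo ≤ max 1 ((2 ^ j - 1) / C) ∧ max 1 ((2 ^ j - 1) / C) ≤ hi)
    (ht : t + (2 * C + 1) * d ≤ T) :
    F (2 ^ (i + d) - 1) t ≤ Λ ^ ((2 * C + 1) * d) * F (2 ^ i - 1) (t + (2 * C + 1) * d) := by
  induction d generalizing t with
  | zero => simp
  | succ d ih =>
    obtain ⟨a1, a2⟩ := hs (i + d) (by omega) (by omega)
    rw [mul_add, mul_one] at ht
    set y := 2 ^ (i + d) - 1 with hy
    have e0 : 2 ^ (i + (d + 1)) - 1 = 2 * y + 1 := by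
      have : 0 < 2 ^ (i + d) := by positivity
      rw [← add_assoc, pow_succ]; omega
    have e1 := iter hΛ hstep (y := y) (s := max 1 (y / C)) (by
      rcases le_total 1 (y / C) with h | h
      · left; rw [max_eq_right h]; exact Nat.mul_div_le _ _
      · right; exact max_eq_left h) a1 a2 (2 * C + 1) t (by omega)
    have e2 := ih (t + (2 * C + 1)) (fun j h1 h2 => hs j h1 (by omega)) (by omega)
    have e3 : 2 * y + 1 ≤ y + (2 * C + 1) * max 1 (y / C) := by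
      have b1 := Nat.div_add_mod y C
      have b2 := Nat.mod_lt y hC
      have b3 : C * (y / C) ≤ C * max 1 (y / C) := Nat.mul_le_mul_left _ (le_max_right _ _)
      have b4 : C * 1 ≤ C * max 1 (y / C) := Nat.mul_le_mul_left _ (le_max_left _ _)
      have b5 : (2 * C + 1) * max 1 (y / C) = 2 * (C * max 1 (y / C)) + max 1 (y / C) := by ring
      omega
    calc _ ≤ F (y + (2 * C + 1) * max 1 (y / C)) t := by rw [e0]; exact hmono _ _ _ e3
      _ ≤ Λ ^ (2 * C + 1) * (Λ ^ ((2 * C + 1) * d) *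
            F (2 ^ i - 1) (t + (2 * C + 1) + (2 * C + 1) * d)) :=
          e1.trans (mul_le_mul_of_nonneg_left e2 (pow_nonneg hΛ _))
      _ = _ := by
          rw [show t + (2 * C + 1) + (2 * C + 1) * d = t + (2 * C + 1) * (d + 1) by ring]; ring

theorem spine (hF : IsF R p) {Δ s e : ℕ} (hΔ : ∀ y, (ch p y).card ≤ Δ) (hρ : ρ ∈ R)
    (he : Δ * (s - 1) < e)
    (hno : ∀ u w, u ∉ R → Anc p u ρ → Anc p w u → w ≠ u →
      ¬ (sg p w + e ≤ sg p u + Δ * (s - 1) ∧ sg p u ≤ sg p w + e)) :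
    sg p ρ ≤ (2 * (buds univ s p).card + 1) * (e + Δ * (s - 1) + 1) := by
  classical
  set b := Δ * (s - 1) with hb
  set E := e + b + 1 with hE
  let sk : V → Finset V := fun y => (ch p y).filter fun c => s ≤ sg p c
  have bush : ∀ y, sg p y ≤ b + 1 + ∑ c ∈ sk y, sg p c := by
    intro y
    rw [hF.sg_eq y, ← sum_filter_add_sum_filter_not (ch p y) (fun c => s ≤ sg p c)]
    have : ∑ c ∈ (ch p y).filter (fun c => ¬ s ≤ sg p c), sg p c ≤ b := by
      refine (sum_le_card_nsmul _ _ (s - 1) fun c hc => ?_).trans ?_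
      · have := (mem_filter.1 hc).2; omega
      · exact Nat.mul_le_mul_right _ ((card_filter_le _ _).trans (hΔ y))
    simp only [sk]
    omega
  have sumK : ∀ y, ∑ c ∈ sk y, (buds (D p c) s p).card ≤ (buds (D p y) s p).card := by
    intro y
    rw [← card_biUnion]
    · refine card_le_card fun v hv => ?_
      obtain ⟨c, hc, hv⟩ := mem_biUnion.1 hv
      exact mem_buds.2 ⟨D_mono (ch_anc (mem_filter.1 hc).1) (mem_buds.1 hv).1, (mem_buds.1 hv).2⟩
    · intro a ha c hc hac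
      exact (hF.ch_disj y (mem_filter.1 ha).1 (mem_filter.1 hc).1 hac).mono
        (fun v hv => (mem_buds.1 hv).1) fun v hv => (mem_buds.1 hv).1
  have sumE : ∀ y, (∀ c ∈ sk y, sg p c + E ≤ 2 * (buds (D p c) s p).card * E) →
      ∑ c ∈ sk y, sg p c + (sk y).card * E ≤ 2 * (buds (D p y) s p).card * E := by
    intro y hy
    have := sum_le_sum hy
    rw [sum_add_distrib, sum_const, smul_eq_mul, ← sum_mul, ← mul_sum] at this
    exact this.trans (by gcongr; exact sumK y)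
  have main : ∀ m u, sg p u = m → u ∉ R → Anc p u ρ → s ≤ sg p u →
      sg p u + E ≤ 2 * (buds (D p u) s p).card * E := by
    intro m
    induction m using Nat.strong_induction_on with
    | _ m ih =>
    intro u hum hu huρ hsu
    obtain ⟨z, hz, hmin⟩ := exists_min_image
      (univ.filter fun z => Anc p z u ∧ s ≤ sg p z ∧ sg p u ≤ sg p z + e) (sg p)
      ⟨u, by simp [Anc.refl, hsu]⟩
    simp only [mem_filter, mem_univ, true_and] at hz hmin
    obtain ⟨z1, z2, z3⟩ := hz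
    have e1 := bush z
    have e2 := sumE z fun c hc => by
      have hc' := (mem_filter.1 hc).1
      have := hF.sg_lt (ch_anc hc') (mem_ch.1 hc').2
      have := sg_mono z1
      exact ih _ (by omega) c rfl (hF.ch_not_root hc') (((ch_anc hc').trans z1).trans huρ)
        (mem_filter.1 hc).2
    have e3 : (buds (D p z) s p).card ≤ (buds (D p u) s p).card := card_le_card fun v hv =>
      mem_buds.2 ⟨D_mono z1 (mem_buds.1 hv).1, (mem_buds.1 hv).2⟩
    have e4 : 2 * (buds (D p z) s p).card * E ≤ 2 * (buds (D p u) s p).card * E := by gcongr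
    rcases Nat.lt_trichotomy (sk z).card 1 with h | h | h
    · have h0 : sk z = ∅ := card_eq_zero.1 (by omega)
      obtain ⟨v, hv⟩ := hF.exists_bud hsu
      have : 1 ≤ (buds (D p u) s p).card := card_pos.2 ⟨v, mem_buds.2 ⟨mem_D.2 hv.1, hv.2⟩⟩
      have : 2 * 1 * E ≤ 2 * (buds (D p u) s p).card * E := by gcongr
      rw [h0, sum_empty] at e1
      omega
    · exfalso
      obtain ⟨c, hc⟩ := card_eq_one.1 h
      have hc0 : c ∈ sk z := by simp [hc]
      have hc' := (mem_filter.1 hc0).1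
      have a1 := hF.sg_lt (ch_anc hc') (mem_ch.1 hc').2
      rw [hc, sum_singleton] at e1
      have a2 : ¬ sg p u ≤ sg p c + e := fun h' => by
        have := hmin c ⟨(ch_anc hc').trans z1, (mem_filter.1 hc0).2, h'⟩
        omega
      refine hno u z hu huρ z1 ?_ ⟨by omega, z3⟩
      rintro rfl
      omega
    · have : 2 * E ≤ (sk z).card * E := Nat.mul_le_mul_right _ h
      omega
  have e1 := bush ρ
  have e2 := sumE ρ fun c hc => main _ c rfl (hF.ch_not_root (mem_filter.1 hc).1)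
    (ch_anc (mem_filter.1 hc).1) (mem_filter.1 hc).2
  have e3 : (buds (D p ρ) s p).card ≤ (buds univ s p).card := card_le_card fun v hv =>
    mem_buds.2 ⟨mem_univ _, (mem_buds.1 hv).2⟩
  have e4 : 2 * (buds (D p ρ) s p).card * E ≤ 2 * (buds univ s p).card * E := by gcongr
  rw [add_mul, one_mul]
  omega

theorem Rd.jump (h : Rd R Fx ρ k n) (hg : Lip R B g) {a x Δ s K0 : ℕ}
    (hx : (2 * K0 + 1) * (2 * x) < n) (Q : ℕ → (V → V) → Prop)
    (hQ : ∀ t p w u, IsF R p → Mv R p w u → Q t p → Q (t + 1) (Function.update p w u))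
    (hQ' : ∀ p, Q 0 p → Q 2 p) :
    mass R g (fun p => Lv Fx ρ n a x p ∧ (∀ y, (ch p y).card ≤ Δ) ∧
        (buds univ s p).card ≤ K0 ∧ Q 0 p) ≤
      (1 + (B * (Fintype.card V : ℝ) ^ 2) ^ 2) *
        mass R g fun p => Lv Fx ρ n a (Δ * (s - 1)) p ∧ Q 2 p := by
  have c1 := hg.crude (X := fun p => (Lv Fx ρ n a x p ∧ (∀ y, (ch p y).card ≤ Δ) ∧
        (buds univ s p).card ≤ K0 ∧ Q 0 p) ∧ n + Δ * (s - 1) < sg p ρ)
    (Y := fun p => Lv Fx ρ n a x p ∧ Q 1 p ∧ ∃ u, u ∉ R ∧ Anc p u ρ ∧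
      sg p ρ ≤ n + Δ * (s - 1) + sg p u ∧ n + sg p u ≤ sg p ρ) (by
      intro p hF ⟨⟨h1, h2, h3, h4⟩, h5⟩
      have h6 := h1.2.2.1
      by_contra hcon
      have := spine hF (e := sg p ρ - n) (s := s) h2 h.mem (by omega) ?_
      · have e1 : (2 * (buds univ s p).card + 1) * (sg p ρ - n + Δ * (s - 1) + 1) ≤
            (2 * K0 + 1) * (2 * x) := by gcongr; omega
        omega
      intro u w hu huρ hwu hne ⟨e1, e2⟩
      have hw : w ∉ R := fun hw => hu ((hwu.root hF hw) ▸ hw)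
      have hm : Mv R p w ρ := ⟨hw, hF.root_not hw h.mem⟩
      obtain ⟨a1, a2⟩ := h.inn hF hm (hwu.trans huρ) (Anc.refl ρ)
      have huw : ¬ Anc p u w := fun h' => hne (hwu.antisymm hF h')
      have a3 := sg_upd_out hF hm huw
      simp only [hwu, hF.root_not hu h.mem, if_true, if_false] at a3
      refine hcon ⟨w, ρ, hm, ⟨fun r hr => (a2 r hr).trans (h1.1 r hr), by rw [a1]; exact h1.2⟩,
        hQ 0 p w ρ hF hm h4, u, hu, (anc_upd_out huw).2 huρ, by omega, by omega⟩)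
  have c2 := hg.crude (X := fun p => Lv Fx ρ n a x p ∧ Q 1 p ∧ ∃ u, u ∉ R ∧ Anc p u ρ ∧
      sg p ρ ≤ n + Δ * (s - 1) + sg p u ∧ n + sg p u ≤ sg p ρ)
    (Y := fun p => Lv Fx ρ n a (Δ * (s - 1)) p ∧ Q 2 p) (by
      intro p hF ⟨h1, h2, u, h3, h4, h5, h6⟩
      obtain ⟨v, hv⟩ := h.ot_ne hF
      obtain ⟨hm, a1, a2⟩ := h.out hF h3 h4 hv
      have := h1.2.2.2
      exact ⟨u, v, hm, ⟨fun r hr => (a2 r hr).trans (h1.1 r hr), by omega, by omega, by omega⟩,
        hQ 1 p u v hF hm h2⟩)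
  have c3 := hg.union (X := fun p => Lv Fx ρ n a x p ∧ (∀ y, (ch p y).card ≤ Δ) ∧
        (buds univ s p).card ≤ K0 ∧ Q 0 p)
    (Y := fun p => Lv Fx ρ n a (Δ * (s - 1)) p ∧ Q 2 p)
    (Z := fun p => (Lv Fx ρ n a x p ∧ (∀ y, (ch p y).card ≤ Δ) ∧
        (buds univ s p).card ≤ K0 ∧ Q 0 p) ∧ n + Δ * (s - 1) < sg p ρ) fun p _ hp => by
      by_cases h' : n + Δ * (s - 1) < sg p ρ
      · exact Or.inr ⟨hp, h'⟩
      · exact Or.inl ⟨⟨hp.1.1, hp.1.2.1, by omega, hp.1.2.2.2⟩, hQ' p hp.2.2.2⟩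
  have hB : 0 ≤ B * (Fintype.card V : ℝ) ^ 2 := by
    have := hg.one
    positivity
  have c4 := mul_le_mul_of_nonneg_left c2 hB
  nlinarith

end Pool.Agent.Lib.MP_5f8612_pr
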