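import Pool.Agent.Lib.MP_5f8612_pr.Defs
import Pool.Agent.Lib.MP_5f8612_pr.Forest

set_option linter.unusedSectionVars false

namespace Pool.Agent.Lib.MP_5f8612_pr

open Finset SimpleGraph

variable {V : Type} [Fintype V] [DecidableEq V] {R : Finset V} {p q : V → V}

/-- the graph of a parent function -/
def gr (q : V → V) : SimpleGraph V := SimpleGraph.fromRel fun a b => q a = b

theorem gr_adj {a b : V} : (gr q).Adj a b ↔ a ≠ b ∧ (q a = b ∨ q b = a) := by
  simp [gr]

theorem Anc.reach {y v : V} (h : Anc q y v) : (gr q).Reachable y v := by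
  refine h.ind (P := fun y => (gr q).Reachable y v) (Reachable.refl v) fun a _ ih => ?_
  by_cases ha : q a = a
  · rwa [ha] at ih
  · exact (Adj.reachable (gr_adj.2 ⟨Ne.symm ha, Or.inl rfl⟩)).trans ih

theorem IsF.reach_iff (hF : IsF R q) {r y : V} (hr : r ∈ R) :
    (gr q).Reachable r y ↔ Anc q y r := by
  refine ⟨fun h => ?_, fun h => h.reach.symm⟩
  rw [reachable_iff_reflTransGen] at h
  induction h with
  | refl => exact Anc.refl _
  | tail _ h2 ih =>
    obtain ⟨_, h | h⟩ := gr_adj.1 h2
    · rcases ih.cases with h' | h'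
      · rw [← h, h', hF.1 r hr]; exact Anc.refl _
      · rwa [← h]
    · exact Anc.head (h ▸ ih)

theorem IsF.edge_sub (hF : IsF R q) :
    (gr q).edgeSet ⊆ ↑((univ \ R).image fun v => s(v, q v)) := by
  intro e he
  induction e using Sym2.ind with
  | _ a b =>
  obtain ⟨hne, h | h⟩ := gr_adj.1 ((mem_edgeSet _).1 he)
  · refine mem_coe.2 (mem_image.2 ⟨a, by simpa using fun ha => hne (by rw [← h, hF.1 a ha]), ?_⟩)
    rw [h]
  · refine mem_coe.2 (mem_image.2 ⟨b, by simpa using fun hb => hne (by rw [← h, hF.1 b hb]), ?_⟩)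
    rw [h, Sym2.eq_swap]

theorem tree_iff {T : SimpleGraph V} :
    T.IsTree ↔ T.Connected ∧ T.edgeSet.ncard + 1 ≤ Fintype.card V := by
  rw [isTree_iff_connected_and_card, Nat.card_coe_set_eq, Nat.card_eq_fintype_card]
  refine and_congr_right fun h => ⟨fun h => h.le, fun h' => le_antisymm h' ?_⟩
  have := h.card_vert_le_card_edgeSet_add_one
  rwa [Nat.card_coe_set_eq, Nat.card_eq_fintype_card] at this

theorem tree_card {T : SimpleGraph V} (h : T.IsTree) : T.edgeSet.ncard + 1 = Fintype.card V := by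
  have := (isTree_iff_connected_and_card.1 h).2
  rwa [Nat.card_coe_set_eq, Nat.card_eq_fintype_card] at this

theorem IsF.tree {r : V} (hF : IsF {r} q) : (gr q).IsTree := by
  refine tree_iff.2 ⟨(connected_iff_exists_forall_reachable _).2 ⟨r, fun y => ?_⟩, ?_⟩
  · obtain ⟨r', hr, h⟩ := hF.exists_root y
    rw [mem_singleton] at hr
    exact (hr ▸ h).reach.symm
  · have h1 := Set.ncard_le_ncard hF.edge_sub (Finset.finite_toSet _)
    rw [Set.ncard_coe_finset] at h1
    have h2 := h1.trans card_image_le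
    rw [card_sdiff_of_subset (subset_univ _), card_univ, card_singleton] at h2
    have : 0 < Fintype.card V := Fintype.card_pos_iff.2 ⟨r⟩
    omega

theorem gr_inj {q' : V → V} (hF : IsF R q) (hF' : IsF R q') (h : gr q = gr q') : q = q' := by
  obtain ⟨h0, d, hd⟩ := id hF
  funext v
  induction hv : d v using Nat.strong_induction_on generalizing v with
  | _ m ih =>
  by_cases hvR : v ∈ R
  · rw [h0 v hvR, hF'.1 v hvR]
  have h1 : (gr q').Adj v (q v) := h ▸ gr_adj.2 ⟨(hF.ne hvR).symm, Or.inl rfl⟩
  obtain ⟨_, h2 | h2⟩ := gr_adj.1 h1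
  · exact h2.symm
  · have := ih _ (hv ▸ hd v hvR) (q v) rfl
    exact absurd (show Anc q (q v) v by
      have := Anc.step (p := q) (q v)
      rwa [‹q (q v) = q' (q v)›, h2] at this) (hF.not_anc hvR)

theorem exists_gr {T : SimpleGraph V} (hT : T.IsTree) (r : V) : ∃ q, IsF {r} q ∧ gr q = T := by
  have : ∀ v, ∃ u, (v = r → u = r) ∧ (v ≠ r → T.Adj v u ∧ T.dist u r < T.dist v r) := by
    intro v
    by_cases hv : v = r
    · exact ⟨r, fun _ => rfl, fun h => absurd hv h⟩
    obtain ⟨w, hw⟩ := hT.connected.exists_walk_length_eq_dist v r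
    cases w with
    | nil => exact absurd rfl hv
    | cons h w =>
      refine ⟨_, fun h => absurd h hv, fun _ => ⟨h, ?_⟩⟩
      have := dist_le w
      rw [Walk.length_cons] at hw
      omega
  choose q h1 h2 using this
  have hF : IsF {r} q := ⟨fun v hv => by rw [mem_singleton.1 hv]; exact h1 r rfl,
    fun v => T.dist v r, fun v hv => (h2 v (by simpa using hv)).2⟩
  refine ⟨q, hF, ?_⟩
  have hle : gr q ≤ T := by
    have : ∀ a b, a ≠ b → q a = b → T.Adj a b := fun a b hne h => by
      refine h ▸ (h2 a ?_).1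
      rintro rfl
      exact hne ((h1 a rfl).symm.trans h)
    intro a b hab
    obtain ⟨hne, h | h⟩ := gr_adj.1 hab
    exacts [this a b hne h, (this b a hne.symm h).symm]
  have e1 := tree_card hT
  have e2 := tree_card hF.tree
  exact edgeSet_injective (Set.eq_of_subset_of_ncard_le (edgeSet_mono hle) (by omega))

/-- join the roots to `r` -/
def lift (R : Finset V) (r : V) (p : V → V) : V → V := fun v => if v ∈ R then r else p v

theorem IsF.lift (hF : IsF R p) {r : V} (hr : r ∈ R) : IsF {r} (lift R r p) := by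
  obtain ⟨_, d, hd⟩ := hF
  refine ⟨fun v hv => by rw [mem_singleton.1 hv]; simp [MP_5f8612_pr.lift, hr],
    fun v => if v = r then 0 else d v + 1, fun v hv => ?_⟩
  rw [mem_singleton] at hv
  simp only [MP_5f8612_pr.lift, hv, if_false]
  by_cases h : v ∈ R
  · simp [h]
  · have := hd v h
    simp only [h, if_false]
    split_ifs <;> omega

theorem lift_inj {r : V} (hp : IsF R p) (hq : IsF R q) (h : lift R r p = lift R r q) : p = q := by
  funext v
  by_cases hv : v ∈ R
  · rw [hp.1 v hv, hq.1 v hv]
  · simpa [lift, hv] using congrFun h v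

theorem IsF.split (hF : IsF R p) {r : V} (hr : r ∈ R) {n : ℕ} (hn : ∀ r ∈ R, sg p r = n) :
    Splittable R.card n (gr (MP_5f8612_pr.lift R r p)) := by
  let F : Finset (Sym2 V) := (R.erase r).image fun v => s(v, r)
  have hdel : (gr (MP_5f8612_pr.lift R r p)).deleteEdges ↑F = gr p := by
    have key : ∀ a b, a ≠ b → (MP_5f8612_pr.lift R r p a = b ∧ s(a, b) ∉ F ↔ p a = b) := by
      intro a b hne
      simp only [MP_5f8612_pr.lift, F, mem_image, mem_erase, not_exists, not_and]
      by_cases ha : a ∈ R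
      · simp only [ha, if_true, hF.1 a ha, hne, iff_false, not_and, not_forall, not_not]
        rintro rfl
        exact ⟨a, ⟨hne, ha⟩, rfl⟩
      · simp only [ha, if_false, and_iff_left_iff_imp]
        rintro - x hx h
        rcases Sym2.eq_iff.1 h with h | h
        · exact ha (h.1 ▸ hx.2)
        · exact ha (h.2 ▸ hr)
    ext a b
    rw [deleteEdges_adj, gr_adj, gr_adj, and_assoc, mem_coe]
    refine and_congr_right fun hne => ?_
    rw [← key a b hne, ← key b a hne.symm, Sym2.eq_swap (a := b)]
    tauto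
  refine ⟨↑F, fun e he => ?_, ?_, ?_⟩
  · obtain ⟨v, hv, rfl⟩ := mem_image.1 (mem_coe.1 he)
    exact gr_adj.2 ⟨(mem_erase.1 hv).1, Or.inl (by simp [MP_5f8612_pr.lift, (mem_erase.1 hv).2])⟩
  · rw [Set.ncard_coe_finset, card_image_of_injOn, card_erase_of_mem hr]
    intro a ha b _ h
    rcases Sym2.eq_iff.1 h with h | h
    · exact h.1
    · exact absurd h.1 (mem_erase.1 ha).1
  rw [hdel]
  have surj : ∀ c : (gr p).ConnectedComponent, ∃ x ∈ R, (gr p).connectedComponentMk x = c := by
    intro c
    induction c using ConnectedComponent.ind with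
    | _ y =>
    obtain ⟨x, hx, h⟩ := hF.exists_root y
    exact ⟨x, hx, ConnectedComponent.sound h.reach.symm⟩
  constructor
  · rw [← Fintype.card_coe R, ← Nat.card_eq_fintype_card]
    refine (Nat.card_eq_of_bijective (fun x : R => (gr p).connectedComponentMk x) ⟨?_, ?_⟩).symm
    · intro a b h
      exact Subtype.ext (((hF.reach_iff a.2).1 (ConnectedComponent.exact h)).root hF b.2)
    · intro c
      obtain ⟨x, hx, h⟩ := surj c
      exact ⟨⟨x, hx⟩, h⟩
  · intro c
    obtain ⟨x, hx, rfl⟩ := surj c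
    rw [← hn x hx, sg, ← Set.ncard_coe_finset]
    congr 1
    ext y
    rw [ConnectedComponent.mem_supp_iff, ConnectedComponent.eq, reachable_comm, hF.reach_iff hx,
      mem_coe, mem_D]

theorem gr_lift_upd {r w u : V} :
    (gr (lift R r (Function.update p w u))).edgeSet ⊆
      insert s(w, u) (gr (lift R r p)).edgeSet := by
  have key : ∀ a b, a ≠ b → lift R r (Function.update p w u) a = b →
      s(a, b) ∈ insert s(w, u) (gr (lift R r p)).edgeSet := by
    intro a b hne h
    by_cases ha : a ∈ R
    · exact Or.inr (gr_adj.2 ⟨hne, Or.inl (by simpa [lift, ha] using h)⟩)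
    by_cases haw : a = w
    · subst haw
      left
      simp only [lift, ha, if_false, Function.update_self] at h
      rw [h]
    · exact Or.inr (gr_adj.2 ⟨hne, Or.inl (by
        simpa [lift, ha, Function.update_of_ne haw] using h)⟩)
  intro e he
  induction e using Sym2.ind with
  | _ a b =>
  obtain ⟨hne, h | h⟩ := gr_adj.1 ((mem_edgeSet _).1 he)
  · exact key a b hne h
  · rw [Sym2.eq_swap (a := a)]; exact key b a hne.symm h

/-- cut the vertices of `R` from their parents -/
def cutR (R : Finset V) (q : V → V) : V → V := fun v => if v ∈ R then v else q v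

theorem IsF.cutR {r : V} (hF : IsF {r} q) (hr : r ∈ R) : IsF R (cutR R q) := by
  obtain ⟨_, d, hd⟩ := hF
  refine ⟨fun v hv => by simp [MP_5f8612_pr.cutR, hv], d, fun v hv => ?_⟩
  simp only [MP_5f8612_pr.cutR, hv, if_false]
  exact hd v fun h => hv (mem_singleton.1 h ▸ hr)

theorem gr_lift_cut {r : V} : (gr (lift R r (cutR R q))).edgeSet \ (gr q).edgeSet ⊆
    ↑(R.image fun v => s(v, r)) := by
  have key : ∀ a b, a ≠ b → lift R r (cutR R q) a = b → ¬ (gr q).Adj a b →
      s(a, b) ∈ R.image fun v => s(v, r) := by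
    intro a b hne h hn
    by_cases ha : a ∈ R
    · simp only [lift, ha, if_true] at h
      exact mem_image.2 ⟨a, ha, by rw [h]⟩
    · exact absurd (gr_adj.2 ⟨hne, Or.inl (by simpa [lift, cutR, ha] using h)⟩) hn
  intro e he
  induction e using Sym2.ind with
  | _ a b =>
  obtain ⟨hne, h | h⟩ := gr_adj.1 ((mem_edgeSet _).1 he.1)
  · exact key a b hne h he.2
  · rw [Sym2.eq_swap]; exact key b a hne.symm h fun h' => he.2 h'.symm

end Pool.Agent.Lib.MP_5f8612_pr
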